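import Mathlib

/-!
Definitions for Axiom 3 with respect to separable subgroups, and for Butler groups of types 1
and 2.
-/

namespace Pool.Agent.Helper548.Axiom3

universe u

section
variable {G : Type u} [AddCommGroup G]

/-- The `p`-height of `x` in `G`: the supremum of all `n` with `x ∈ p ^ n G`. -/
noncomputable def height (p : ℕ) (x : G) : ℕ∞ :=
  ⨆ (n : ℕ) (_ : ∃ y : G, p ^ n • y = x), (n : ℕ∞)

/-- The height sequence of `x`; height sequences are ordered coordinatewise. -/
noncomputable def heightSeq (x : G) : Nat.Primes → ℕ∞ := fun p => height p x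

/-- `H` is a separable subgroup of `G`: for every `g` there are countably many `h 0, h 1, ...` in
`H` such that for every `x ∈ H` one has `|g + x| ≤ |g + h n|` for some `n`. -/
def IsSeparable (H : AddSubgroup G) : Prop :=
  ∀ g : G, ∃ h : ℕ → G, (∀ n, h n ∈ H) ∧ ∀ x ∈ H, ∃ n, heightSeq (g + x) ≤ heightSeq (g + h n)

/-- `H` is a pure subgroup of the torsion-free group `G`. -/
def IsPure (H : AddSubgroup G) : Prop :=
  ∀ (n : ℕ) (x : G), n ≠ 0 → n • x ∈ H → x ∈ H

/-- `B` is a Butler group of finite rank: it is isomorphic (through `f`) to a pure subgroup of a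
completely decomposable group `A 1 ⊕ ... ⊕ A n` of finite rank, the `A i` being subgroups of `ℚ`. -/
def IsFiniteRankButler (B : AddSubgroup G) : Prop :=
  ∃ (n : ℕ) (A : Fin n → AddSubgroup ℚ) (f : B →+ (Fin n → ℚ)),
    Function.Injective f ∧ (∀ b i, f b i ∈ A i) ∧
      ∀ (k : ℤ) (x : Fin n → ℚ), k ≠ 0 → (∀ i, x i ∈ A i) → k • x ∈ Set.range f →
        x ∈ Set.range f

end

/-- `G` satisfies Axiom 3 with respect to separable subgroups: there is a family `𝒞` of separable
subgroups, containing `0`, closed under arbitrary sums, and such that every countable subgroup of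
`G` is contained in a countable member of `𝒞`. -/
def SatisfiesAxiom3 (G : Type u) [AddCommGroup G] : Prop :=
  ∃ 𝒞 : Set (AddSubgroup G), (∀ H ∈ 𝒞, IsSeparable H) ∧ ⊥ ∈ 𝒞 ∧ (∀ 𝒮 ⊆ 𝒞, sSup 𝒮 ∈ 𝒞) ∧
    ∀ A : AddSubgroup G, (A : Set G).Countable →
      ∃ H ∈ 𝒞, A ≤ H ∧ (H : Set G).Countable

/-- `G` is a Butler group of type 2: it is torsion-free and the union `F μ` of a smooth ascending
chain `F α` (`α ≤ μ`) of pure subgroups with `F 0 = 0` and `F (α + 1) = F α + B` for some Butler
group `B` of finite rank. -/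
def IsButlerTwo (G : Type u) [AddCommGroup G] : Prop :=
  (∀ (n : ℕ) (x : G), n ≠ 0 → n • x = 0 → x = 0) ∧
  ∃ (μ : Ordinal.{u}) (F : Ordinal.{u} → AddSubgroup G),
    F 0 = ⊥ ∧ F μ = ⊤ ∧ (∀ α β, α ≤ β → β ≤ μ → F α ≤ F β) ∧ (∀ α ≤ μ, IsPure (F α)) ∧
    (∀ α < μ, ∃ B : AddSubgroup G, IsFiniteRankButler B ∧ F (α + 1) = F α ⊔ B) ∧
    ∀ α ≤ μ, Order.IsSuccLimit α → F α = ⨆ β : Set.Iio α, F β

/-- `G` is a Butler group of type 1: it is torsion-free and `Bext(G, T) = 0` for every torsion
group `T`, that is, every balanced-exact sequence `0 → T → X → G → 0` (given here by the surjection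
`π` from `X` onto `G` with torsion kernel, balanced meaning that homomorphisms from rank-one
torsion-free groups, i.e. from subgroups of `ℚ`, into `G` lift to `X`) splits. -/
def IsButlerOne (G : Type u) [AddCommGroup G] : Prop :=
  (∀ (n : ℕ) (x : G), n ≠ 0 → n • x = 0 → x = 0) ∧
  ∀ (X : Type u) [AddCommGroup X] (π : X →+ G), Function.Surjective π →
    (∀ x : X, π x = 0 → ∃ n : ℕ, n ≠ 0 ∧ n • x = 0) →
    (∀ (R : AddSubgroup ℚ) (f : R →+ G), ∃ f' : R →+ X, ∀ r, π (f' r) = f r) →
    ∃ s : G →+ X, ∀ g, π (s g) = g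

end Pool.Agent.Helper548.Axiom3
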