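import Mathlib
import Pool.Agent.Helper548.Axiom3Defs

/-!
Basic facts on heights and separable subgroups, and a Hill-type criterion: if `G` is generated by
a well-ordered family all of whose initial segments generate separable subgroups, then `G`
satisfies Axiom 3 with respect to separable subgroups.
-/

namespace Pool.Agent.Helper548.Axiom3

universe u v

section Height
variable {G : Type u} [AddCommGroup G]

theorem natCast_le_height {p : ℕ} {x : G} (n : ℕ) :
    (n : ℕ∞) ≤ height p x ↔ ∃ y : G, p ^ n • y = x := by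
  constructor
  · intro h
    rcases Nat.eq_zero_or_pos n with hn | hn
    · subst hn
      exact ⟨x, by simp⟩
    · have h1 : ((n - 1 : ℕ) : ℕ∞) < height p x := by
        refine lt_of_lt_of_le ?_ h
        exact_mod_cast (by omega : n - 1 < n)
      rw [height] at h1
      simp only [lt_iSup_iff] at h1
      obtain ⟨m, ⟨y, hyx⟩, hm⟩ := h1
      have hm' : n - 1 < m := by exact_mod_cast hm
      refine ⟨p ^ (m - n) • y, ?_⟩
      rw [← mul_nsmul', ← pow_add, show n + (m - n) = m by omega, hyx]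
  · intro h
    exact le_iSup₂_of_le n h le_rfl

theorem min_height_le (p : ℕ) (x y : G) :
    min (height p x) (height p y) ≤ height p (x + y) := by
  rw [← ENat.forall_natCast_le_iff_le]
  intro n hn
  rw [le_min_iff, natCast_le_height, natCast_le_height] at hn
  obtain ⟨⟨a, hax⟩, b, hby⟩ := hn
  rw [natCast_le_height]
  exact ⟨a + b, by rw [nsmul_add, hax, hby]⟩

theorem height_neg_le (p : ℕ) (x : G) : height p x ≤ height p (-x) := by
  rw [← ENat.forall_natCast_le_iff_le]
  intro n hn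
  rw [natCast_le_height] at hn
  obtain ⟨a, hax⟩ := hn
  rw [natCast_le_height]
  exact ⟨-a, by rw [smul_neg, hax]⟩

theorem height_zero (p : ℕ) : height p (0 : G) = ⊤ := by
  rw [← top_le_iff, ← ENat.forall_natCast_le_iff_le]
  intro n _
  rw [natCast_le_height]
  exact ⟨0, by simp⟩

theorem le_heightSeq_add {χ : Nat.Primes → ℕ∞} {x y : G} (hx : χ ≤ heightSeq x)
    (hy : χ ≤ heightSeq y) : χ ≤ heightSeq (x + y) :=
  fun p => (le_min (hx p) (hy p)).trans (min_height_le p x y)

theorem le_heightSeq_neg {χ : Nat.Primes → ℕ∞} {x : G} (hx : χ ≤ heightSeq x) :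
    χ ≤ heightSeq (-x) :=
  fun p => (hx p).trans (height_neg_le p x)

theorem le_heightSeq_sub {χ : Nat.Primes → ℕ∞} {x y : G} (hx : χ ≤ heightSeq x)
    (hy : χ ≤ heightSeq y) : χ ≤ heightSeq (x - y) := by
  rw [sub_eq_add_neg]
  exact le_heightSeq_add hx (le_heightSeq_neg hy)

theorem le_heightSeq_zero (χ : Nat.Primes → ℕ∞) : χ ≤ heightSeq (0 : G) := by
  intro p
  change χ p ≤ height p 0
  rw [height_zero]
  exact le_top

end Height

section Gen
variable {G : Type u} [AddCommGroup G] {ι : Type v}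

theorem countable_closure {s : Set G} (hs : s.Countable) :
    ((AddSubgroup.closure s : AddSubgroup G) : Set G).Countable := by
  have : Countable s := hs.to_subtype
  have h1 : ((AddSubgroup.closure s : AddSubgroup G) : Set G) ⊆
      Set.range (fun f : s →₀ ℤ => f.sum fun x n => n • (x : G)) := by
    intro x hx
    refine AddSubgroup.closure_induction (p := fun x _ => x ∈
      Set.range (fun f : s →₀ ℤ => f.sum fun x n => n • (x : G))) ?_ ?_ ?_ ?_ hx
    · intro y hy
      exact ⟨Finsupp.single ⟨y, hy⟩ 1, by simp⟩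
    · exact ⟨0, by simp⟩
    · rintro _ _ _ _ ⟨f, rfl⟩ ⟨g, rfl⟩
      exact ⟨f + g, by
        change (f + g).sum _ = _
        rw [Finsupp.sum_add_index'] <;> simp [add_smul]⟩
    · rintro _ _ ⟨f, rfl⟩
      exact ⟨-f, by
        change (-f).sum _ = _
        rw [Finsupp.sum_neg_index] <;> simp [Finsupp.sum]⟩
  exact (Set.countable_range _).mono h1

/-- The subgroup generated by the members of the family `c` with index in `S`. -/
def gen (c : ι → G) (S : Set ι) : AddSubgroup G := AddSubgroup.closure (c '' S)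

theorem gen_mono (c : ι → G) {S T : Set ι} (h : S ⊆ T) : gen c S ≤ gen c T :=
  AddSubgroup.closure_mono (Set.image_mono h)

theorem mem_gen (c : ι → G) {S : Set ι} {i : ι} (h : i ∈ S) : c i ∈ gen c S :=
  AddSubgroup.subset_closure (Set.mem_image_of_mem c h)

theorem countable_gen (c : ι → G) {S : Set ι} (h : S.Countable) :
    ((gen c S : AddSubgroup G) : Set G).Countable :=
  countable_closure (h.image c)

theorem exists_finset_of_mem_gen [DecidableEq ι] (c : ι → G) {S : Set ι} {x : G}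
    (hx : x ∈ gen c S) : ∃ F : Finset ι, (F : Set ι) ⊆ S ∧ x ∈ gen c (F : Set ι) := by
  refine AddSubgroup.closure_induction (p := fun x _ => ∃ F : Finset ι, (F : Set ι) ⊆ S ∧
    x ∈ gen c (F : Set ι)) ?_ ?_ ?_ ?_ hx
  · rintro _ ⟨i, hi, rfl⟩
    refine ⟨{i}, by simpa using hi, mem_gen c (by simp)⟩
  · exact ⟨∅, by simp, AddSubgroup.zero_mem _⟩
  · rintro x y _ _ ⟨F, hF, hx⟩ ⟨F', hF', hy⟩
    refine ⟨F ∪ F', by simp [hF, hF'], ?_⟩
    refine AddSubgroup.add_mem _ (gen_mono c ?_ hx) (gen_mono c ?_ hy) <;> simp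
  · rintro x _ ⟨F, hF, hx⟩
    exact ⟨F, hF, AddSubgroup.neg_mem _ hx⟩

theorem gen_iUnion (c : ι → G) {κ : Sort*} (S : κ → Set ι) :
    gen c (⋃ k, S k) = ⨆ k, gen c (S k) := by
  unfold gen
  rw [Set.image_iUnion, AddSubgroup.closure_iUnion]

theorem exists_top [LinearOrder ι] (c : ι → G) {S : Set ι} {γ : ι} {x : G}
    (hx : x ∈ gen c (S ∩ Set.Iio γ)) :
    x = 0 ∨ ∃ γ' ∈ S, γ' < γ ∧ ∃ n : ℤ, ∃ y ∈ gen c (S ∩ Set.Iio γ'), x = n • c γ' + y := by
  refine AddSubgroup.closure_induction (p := fun x _ => x = 0 ∨ ∃ γ' ∈ S, γ' < γ ∧ ∃ n : ℤ,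
    ∃ y ∈ gen c (S ∩ Set.Iio γ'), x = n • c γ' + y) ?_ ?_ ?_ ?_ hx
  · rintro _ ⟨i, ⟨hiS, hi⟩, rfl⟩
    exact Or.inr ⟨i, hiS, hi, 1, 0, AddSubgroup.zero_mem _, by simp⟩
  · exact Or.inl rfl
  · rintro x y _ _ (rfl | ⟨a, haS, ha, n, x', hx', rfl⟩) hy
    · rwa [zero_add]
    rcases hy with rfl | ⟨b, hbS, hb, m, y', hy', rfl⟩
    · rw [add_zero]
      exact Or.inr ⟨a, haS, ha, n, x', hx', rfl⟩
    right
    rcases lt_trichotomy a b with hab | hab | hab
    · refine ⟨b, hbS, hb, m, (n • c a + x') + y', ?_, by abel⟩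
      refine AddSubgroup.add_mem _ (AddSubgroup.add_mem _ ?_ ?_) hy'
      · exact AddSubgroup.zsmul_mem _ (mem_gen c (S := S ∩ Set.Iio b) ⟨haS, hab⟩) n
      · exact gen_mono c (Set.inter_subset_inter_right _ (Set.Iio_subset_Iio hab.le)) hx'
    · subst hab
      exact ⟨a, haS, ha, n + m, x' + y', AddSubgroup.add_mem _ hx' hy', by rw [add_smul]; abel⟩
    · refine ⟨a, haS, ha, n, x' + (m • c b + y'), ?_, by abel⟩
      refine AddSubgroup.add_mem _ hx' (AddSubgroup.add_mem _ ?_ ?_)
      · exact AddSubgroup.zsmul_mem _ (mem_gen c (S := S ∩ Set.Iio a) ⟨hbS, hab⟩) m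
      · exact gen_mono c (Set.inter_subset_inter_right _ (Set.Iio_subset_Iio hab.le)) hy'
  · rintro x _ (rfl | ⟨a, haS, ha, n, x', hx', rfl⟩)
    · exact Or.inl (by simp)
    · exact Or.inr ⟨a, haS, ha, -n, -x', AddSubgroup.neg_mem _ hx', by rw [neg_smul]; abel⟩

end Gen

section Hill
variable {G : Type u} [AddCommGroup G] {ι : Type v} [LinearOrder ι]

/-- A countable set of indices below `γ` that supports a dominating sequence for `t`. -/
theorem exists_support (c : ι → G) (γ : ι) (hsep : IsSeparable (gen c (Set.Iio γ))) (t : G) :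
    ∃ R : Set ι, R.Countable ∧ R ⊆ Set.Iio γ ∧
      ∀ x ∈ gen c (Set.Iio γ), ∃ y ∈ gen c R, heightSeq (t + x) ≤ heightSeq (t + y) := by
  obtain ⟨h, hh, hdom⟩ := hsep t
  choose F hF hF' using fun n => exists_finset_of_mem_gen c (hh n)
  refine ⟨⋃ n, (F n : Set ι), Set.countable_iUnion fun n => (F n).countable_toSet,
    Set.iUnion_subset hF, ?_⟩
  intro x hx
  obtain ⟨n, hn⟩ := hdom x hx
  exact ⟨h n, gen_mono c (Set.subset_iUnion (fun n => (F n : Set ι)) n) (hF' n), hn⟩

/-- The support function of the Hill family. -/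
theorem exists_D (c : ι → G) (i : ι) (hsep : IsSeparable (gen c (Set.Iio i))) :
    ∃ D : Set ι, D.Countable ∧ D ⊆ Set.Iio i ∧
      ∀ n : ℤ, ∀ x ∈ gen c (Set.Iio i), ∃ y ∈ gen c D,
        heightSeq (n • c i + x) ≤ heightSeq (n • c i + y) := by
  choose R hRc hRs hR using fun n : ℤ => exists_support c i hsep (n • c i)
  refine ⟨⋃ n, R n, Set.countable_iUnion hRc, Set.iUnion_subset hRs, ?_⟩
  intro n x hx
  obtain ⟨y, hy, hxy⟩ := hR n x hx
  exact ⟨y, gen_mono c (Set.subset_iUnion R n) hy, hxy⟩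

omit [LinearOrder ι] in
/-- A countable set closed under the support function `D` and rich with respect to `R`. -/
theorem exists_rich (c : ι → G) (D : ι → Set ι) (hD : ∀ i, (D i).Countable)
    (R : G → ι → Set ι) (hR : ∀ t i, (R t i).Countable) {T₀ : Set ι} (hT₀ : T₀.Countable) :
    ∃ T : Set ι, T.Countable ∧ T₀ ⊆ T ∧ (∀ i ∈ T, D i ⊆ T) ∧
      ∀ t ∈ gen c T, ∀ i ∈ T, R t i ⊆ T := by
  let step : Set ι → Set ι := fun T =>
    T ∪ ((⋃ i ∈ T, D i) ∪ ⋃ t ∈ ((gen c T : AddSubgroup G) : Set G), ⋃ i ∈ T, R t i)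
  have hstep : ∀ T : Set ι, T.Countable → (step T).Countable := by
    intro T hT
    refine hT.union ((hT.biUnion fun i _ => hD i).union ?_)
    exact (countable_gen c hT).biUnion fun t _ => hT.biUnion fun i _ => hR t i
  let Tn : ℕ → Set ι := fun n => Nat.rec T₀ (fun _ T => step T) n
  have hTn : ∀ n, Tn (n + 1) = step (Tn n) := fun n => rfl
  have hc : ∀ n, (Tn n).Countable := by
    intro n
    induction n with
    | zero => exact hT₀
    | succ n ih => rw [hTn]; exact hstep _ ih
  have hmono : Monotone Tn := by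
    refine monotone_nat_of_le_succ fun n => ?_
    rw [hTn]
    exact Set.subset_union_left
  refine ⟨⋃ n, Tn n, Set.countable_iUnion hc, Set.subset_iUnion Tn 0, ?_, ?_⟩
  · intro i hi j hj
    obtain ⟨n, hn⟩ := Set.mem_iUnion.mp hi
    refine Set.mem_iUnion.mpr ⟨n + 1, ?_⟩
    rw [hTn]
    exact Or.inr (Or.inl (Set.mem_biUnion hn hj))
  · intro t ht i hi j hj
    obtain ⟨n, hn⟩ := Set.mem_iUnion.mp hi
    rw [gen_iUnion] at ht
    have hdir : Directed (· ≤ ·) fun n => gen c (Tn n) :=
      Monotone.directed_le fun a b hab => gen_mono c (hmono hab)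
    obtain ⟨m, hm⟩ := (AddSubgroup.mem_iSup_of_directed hdir).mp ht
    refine Set.mem_iUnion.mpr ⟨max n m + 1, ?_⟩
    rw [hTn]
    refine Or.inr (Or.inr ?_)
    refine Set.mem_biUnion (x := t) (gen_mono c (hmono (le_max_right n m)) hm) ?_
    exact Set.mem_biUnion (x := i) (hmono (le_max_left n m) hn) hj

/-- The members of the Hill family are separable. -/
theorem isSeparable_gen [WellFoundedLT ι] (c : ι → G) (htop : gen c Set.univ = ⊤)
    (hsep : ∀ i, IsSeparable (gen c (Set.Iio i)))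
    {D : ι → Set ι} (hDc : ∀ i, (D i).Countable) (hDs : ∀ i, D i ⊆ Set.Iio i)
    (hD2 : ∀ i (n : ℤ), ∀ x ∈ gen c (Set.Iio i), ∃ y ∈ gen c (D i),
        heightSeq (n • c i + x) ≤ heightSeq (n • c i + y))
    {S : Set ι} (hS : ∀ i ∈ S, D i ⊆ S) : IsSeparable (gen c S) := by
  intro g
  choose R hRc hRs hR using fun (t : G) (i : ι) => exists_support c i (hsep i) t
  obtain ⟨F, _, hgF⟩ := exists_finset_of_mem_gen c (S := Set.univ) (x := g) (by rw [htop]; trivial)
  obtain ⟨T, hTc, hT₀, hTD, hTR⟩ := exists_rich c D hDc R hRc F.countable_toSet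
  have hgT : g ∈ gen c T := gen_mono c hT₀ hgF
  -- key claim
  have key : ∀ β : ι, ∀ g' ∈ gen c T, ∀ m ∈ gen c (S ∩ Set.Iio β),
      ∃ m' ∈ gen c S, m' ∈ gen c T ∧ heightSeq (g' + m) ≤ heightSeq (g' + m') := by
    intro β
    induction β using WellFoundedLT.induction with
    | ind β ih =>
      intro g' hg' m hm
      rcases exists_top c hm with rfl | ⟨γ, hγS, hγβ, n, m₁, hm₁, rfl⟩
      · exact ⟨0, AddSubgroup.zero_mem _, AddSubgroup.zero_mem _, le_rfl⟩
      by_cases hγT : γ ∈ T
      · have hcT : n • c γ ∈ gen c T := AddSubgroup.zsmul_mem _ (mem_gen c hγT) n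
        obtain ⟨m', hm'S, hm'T, hle⟩ :=
          ih γ hγβ (g' + n • c γ) (AddSubgroup.add_mem _ hg' hcT) m₁ hm₁
        refine ⟨n • c γ + m', AddSubgroup.add_mem _
          (AddSubgroup.zsmul_mem _ (mem_gen c hγS) n) hm'S, AddSubgroup.add_mem _ hcT hm'T, ?_⟩
        rw [← add_assoc, ← add_assoc]
        exact hle
      · -- there is y in gen c (Iio γ) with |m - y| ≥ |g' + m|
        have hy : ∃ y ∈ gen c (Set.Iio γ),
            heightSeq (g' + (n • c γ + m₁)) ≤ heightSeq ((n • c γ + m₁) - y) := by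
          by_cases hne : ∃ δ ∈ T, γ < δ
          · -- least element of T above γ
            obtain ⟨δ, ⟨hδT, hγδ⟩, hmin⟩ := WellFounded.has_min
              (wellFounded_lt : WellFounded ((· < ·) : ι → ι → Prop))
              {δ | δ ∈ T ∧ γ < δ} (by obtain ⟨δ, h1, h2⟩ := hne; exact ⟨δ, h1, h2⟩)
            have hmδ : n • c γ + m₁ ∈ gen c (Set.Iio δ) := by
              refine AddSubgroup.add_mem _ (AddSubgroup.zsmul_mem _ (mem_gen c (S := Set.Iio δ) hγδ) n) ?_
              exact gen_mono c (Set.inter_subset_right.trans (Set.Iio_subset_Iio hγδ.le)) hm₁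
            obtain ⟨y, hyR, hle⟩ := hR g' δ _ hmδ
            have hyT : y ∈ gen c T := gen_mono c (hTR g' hg' δ hδT) hyR
            have hyδ : y ∈ gen c (Set.Iio δ) := gen_mono c (hRs g' δ) hyR
            have hyTδ : y ∈ gen c (T ∩ Set.Iio δ) := by
              refine gen_mono c (Set.subset_inter (hTR g' hg' δ hδT) (hRs g' δ)) hyR
            have hsub : T ∩ Set.Iio δ ⊆ Set.Iio γ := by
              rintro η ⟨hηT, hηδ⟩
              by_contra hc
              rcases lt_or_eq_of_le (not_lt.mp hc) with h | h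
              · exact hmin η ⟨hηT, h⟩ hηδ
              · exact hγT (h ▸ hηT)
            refine ⟨y, gen_mono c hsub hyTδ, ?_⟩
            have h1 : (n • c γ + m₁) - y = (g' + (n • c γ + m₁)) - (g' + y) := by abel
            rw [h1]
            exact le_heightSeq_sub le_rfl hle
          · refine ⟨-g', ?_, ?_⟩
            · refine AddSubgroup.neg_mem _ (gen_mono c ?_ hg')
              intro η hη
              by_contra hc
              rcases lt_or_eq_of_le (not_lt.mp hc) with h | h
              · exact hne ⟨η, hη, h⟩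
              · exact hγT (h ▸ hη)
            · have h1 : (n • c γ + m₁) - -g' = g' + (n • c γ + m₁) := by abel
              rw [h1]
        obtain ⟨y, hyγ, hle⟩ := hy
        have hm₁γ : m₁ ∈ gen c (Set.Iio γ) := gen_mono c Set.inter_subset_right hm₁
        obtain ⟨z, hzD, hz⟩ := hD2 γ n (m₁ - y) (AddSubgroup.sub_mem _ hm₁γ hyγ)
        have hz' : heightSeq (g' + (n • c γ + m₁)) ≤ heightSeq (n • c γ + z) := by
          refine hle.trans ?_
          rw [add_sub_assoc]
          exact hz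
        have hzS : z ∈ gen c (S ∩ Set.Iio γ) :=
          gen_mono c (Set.subset_inter (hS γ hγS) (hDs γ)) hzD
        obtain ⟨m', hm'S, hm'T, hle'⟩ := ih γ hγβ g' hg' (m₁ - z) (AddSubgroup.sub_mem _ hm₁ hzS)
        refine ⟨m', hm'S, hm'T, le_trans ?_ hle'⟩
        have h1 : g' + (m₁ - z) = (g' + (n • c γ + m₁)) - (n • c γ + z) := by abel
        rw [h1]
        exact le_heightSeq_sub le_rfl hz'
  -- enumerate the countable set gen c S ∩ gen c T
  have hcount : {x : G | x ∈ gen c S ∧ x ∈ gen c T}.Countable :=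
    (countable_gen c hTc).mono fun x hx => hx.2
  obtain ⟨f, hf⟩ := hcount.exists_eq_range ⟨0, AddSubgroup.zero_mem _, AddSubgroup.zero_mem _⟩
  refine ⟨f, fun n => ?_, fun x hx => ?_⟩
  · have : f n ∈ {x : G | x ∈ gen c S ∧ x ∈ gen c T} := by rw [hf]; exact ⟨n, rfl⟩
    exact this.1
  · obtain ⟨m', hm'S, hm'T, hle⟩ : ∃ m' ∈ gen c S, m' ∈ gen c T ∧
        heightSeq (g + x) ≤ heightSeq (g + m') := by
      obtain ⟨F', hF'S, hxF'⟩ := exists_finset_of_mem_gen c hx
      rcases F'.eq_empty_or_nonempty with rfl | hne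
      · have hx0 : x = 0 := by
          have : x ∈ AddSubgroup.closure (∅ : Set G) := by simpa [gen] using hxF'
          simpa using this
        exact ⟨0, AddSubgroup.zero_mem _, AddSubgroup.zero_mem _, by rw [hx0]⟩
      · -- the top index
        set μ := F'.max' hne with hμ
        by_cases hx' : ∃ β : ι, μ < β
        · obtain ⟨β, hβ⟩ := hx'
          refine key β g hgT x (gen_mono c ?_ hxF')
          intro i hi
          exact ⟨hF'S hi, lt_of_le_of_lt (F'.le_max' i hi) hβ⟩
        · -- μ is the largest index: split off its contribution by hand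
          have hsplit : ∃ n : ℤ, ∃ m₁ ∈ gen c (S ∩ Set.Iio μ), x = n • c μ + m₁ := by
            have hsub : (F' : Set ι) ⊆ insert μ (S ∩ Set.Iio μ) := by
              intro i hi
              rcases lt_or_eq_of_le (F'.le_max' i hi) with h | h
              · exact Or.inr ⟨hF'S hi, h⟩
              · exact Or.inl h
            have h1 : x ∈ gen c (insert μ (S ∩ Set.Iio μ)) := gen_mono c hsub hxF'
            unfold gen at h1
            rw [Set.image_insert_eq, Set.insert_eq, AddSubgroup.closure_union] at h1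
            obtain ⟨a, ha, b, hb, hab⟩ := AddSubgroup.mem_sup.mp h1
            obtain ⟨n, rfl⟩ := AddSubgroup.mem_closure_singleton.mp ha
            exact ⟨n, b, hb, hab.symm⟩
          obtain ⟨n, m₁, hm₁, rfl⟩ := hsplit
          have hμS : μ ∈ S := hF'S (F'.max'_mem hne)
          by_cases hμT : μ ∈ T
          · have hcT : n • c μ ∈ gen c T := AddSubgroup.zsmul_mem _ (mem_gen c hμT) n
            obtain ⟨m', hm'S, hm'T, hle⟩ :=
              key μ (g + n • c μ) (AddSubgroup.add_mem _ hgT hcT) m₁ hm₁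
            refine ⟨n • c μ + m', AddSubgroup.add_mem _
              (AddSubgroup.zsmul_mem _ (mem_gen c hμS) n) hm'S, AddSubgroup.add_mem _ hcT hm'T, ?_⟩
            rw [← add_assoc, ← add_assoc]
            exact hle
          · have hgμ : g ∈ gen c (Set.Iio μ) := by
              refine gen_mono c ?_ hgT
              intro η hη
              by_contra hc
              rcases lt_or_eq_of_le (not_lt.mp hc) with h | h
              · exact hx' ⟨η, h⟩
              · exact hμT (h ▸ hη)
            have hm₁γ : m₁ ∈ gen c (Set.Iio μ) := gen_mono c Set.inter_subset_right hm₁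
            obtain ⟨z, hzD, hz⟩ := hD2 μ n (m₁ + g) (AddSubgroup.add_mem _ hm₁γ hgμ)
            have hz' : heightSeq (g + (n • c μ + m₁)) ≤ heightSeq (n • c μ + z) := by
              have h1 : g + (n • c μ + m₁) = n • c μ + (m₁ + g) := by abel
              rw [h1]
              exact hz
            have hzS : z ∈ gen c (S ∩ Set.Iio μ) :=
              gen_mono c (Set.subset_inter (hS μ hμS) (hDs μ)) hzD
            obtain ⟨m', hm'S, hm'T, hle'⟩ := key μ g hgT (m₁ - z) (AddSubgroup.sub_mem _ hm₁ hzS)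
            refine ⟨m', hm'S, hm'T, le_trans ?_ hle'⟩
            have h1 : g + (m₁ - z) = (g + (n • c μ + m₁)) - (n • c μ + z) := by abel
            rw [h1]
            exact le_heightSeq_sub le_rfl hz'
    obtain ⟨n, hn⟩ : ∃ n, f n = m' := by
      have : m' ∈ {x : G | x ∈ gen c S ∧ x ∈ gen c T} := ⟨hm'S, hm'T⟩
      rw [hf] at this
      exact this
    exact ⟨n, by rw [hn]; exact hle⟩

/-- Hill-type criterion. -/
theorem satisfiesAxiom3_of_wellOrdered [WellFoundedLT ι] (c : ι → G) (htop : gen c Set.univ = ⊤)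
    (hsep : ∀ i, IsSeparable (gen c (Set.Iio i))) : SatisfiesAxiom3 G := by
  choose D hDc hDs hD2 using fun i => exists_D c i (hsep i)
  refine ⟨{H | ∃ S : Set ι, (∀ i ∈ S, D i ⊆ S) ∧ H = gen c S}, ?_, ?_, ?_, ?_⟩
  · rintro _ ⟨S, hS, rfl⟩
    exact isSeparable_gen c htop hsep hDc hDs hD2 hS
  · exact ⟨∅, by simp, by simp [gen]⟩
  · intro 𝒮 h𝒮
    have h𝒮' : ∀ H ∈ 𝒮, ∃ S : Set ι, (∀ i ∈ S, D i ⊆ S) ∧ H = gen c S := fun H hH => h𝒮 hH
    choose! S hS hS' using h𝒮'
    refine ⟨⋃ H : 𝒮, S H, ?_, ?_⟩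
    · intro i hi
      obtain ⟨H, hH⟩ := Set.mem_iUnion.mp hi
      exact (hS H.1 H.2 i hH).trans (Set.subset_iUnion (fun H : 𝒮 => S H) H)
    · rw [gen_iUnion, sSup_eq_iSup']
      exact iSup_congr fun H => hS' H.1 H.2
  · intro A hA
    have hF : ∀ a : G, ∃ F : Finset ι, a ∈ gen c (F : Set ι) := fun a => by
      obtain ⟨F, _, hF⟩ := exists_finset_of_mem_gen c (S := Set.univ) (x := a)
        (by rw [htop]; trivial)
      exact ⟨F, hF⟩
    choose F hF using hF
    obtain ⟨T, hTc, hT₀, hTD, _⟩ := exists_rich c D hDc (fun _ _ => ∅)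
      (fun _ _ => Set.countable_empty)
      (T₀ := ⋃ a ∈ (A : Set G), (F a : Set ι)) (hA.biUnion fun a _ => (F a).countable_toSet)
    refine ⟨gen c T, ⟨T, hTD, rfl⟩, ?_, countable_gen c hTc⟩
    intro a ha
    refine gen_mono c ?_ (hF a)
    exact (Set.subset_biUnion_of_mem (u := fun a => (F a : Set ι)) ha).trans hT₀

end Hill

end Pool.Agent.Helper548.Axiom3
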