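import Mathlib
import Pool.Agent.Helper548.Axiom3Defs
import Pool.Agent.Helper548.Axiom3Hill

/-!
Closed sets of indices in a system of subgroups, and sums of the corresponding subgroups.
-/

namespace Pool.Agent.Helper548.Axiom3

universe u v

section Sp
variable {G : Type u} [AddCommGroup G] {ι : Type v}

/-- The sum of the members of the family `B` with index in `J`. -/
def sp (B : ι → AddSubgroup G) (J : Set ι) : AddSubgroup G := ⨆ j ∈ J, B j

theorem sp_mono (B : ι → AddSubgroup G) {J K : Set ι} (h : J ⊆ K) : sp B J ≤ sp B K :=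
  biSup_mono h

theorem le_sp (B : ι → AddSubgroup G) {J : Set ι} {j : ι} (h : j ∈ J) : B j ≤ sp B J :=
  le_biSup B h

theorem sp_union (B : ι → AddSubgroup G) (J K : Set ι) : sp B (J ∪ K) = sp B J ⊔ sp B K :=
  iSup_union

theorem sp_iUnion (B : ι → AddSubgroup G) {κ : Sort*} (J : κ → Set ι) :
    sp B (⋃ k, J k) = ⨆ k, sp B (J k) := by
  unfold sp
  rw [iSup_iUnion]

theorem sp_empty (B : ι → AddSubgroup G) : sp B ∅ = ⊥ := by
  simp [sp]

theorem sp_singleton (B : ι → AddSubgroup G) (i : ι) : sp B {i} = B i := by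
  simp [sp]

theorem sp_le {B : ι → AddSubgroup G} {J : Set ι} {H : AddSubgroup G} (h : ∀ j ∈ J, B j ≤ H) :
    sp B J ≤ H := iSup₂_le h

theorem exists_finset_of_mem_sp (B : ι → AddSubgroup G) {J : Set ι} {x : G}
    (hx : x ∈ sp B J) : ∃ s : Finset ι, (s : Set ι) ⊆ J ∧ x ∈ sp B (s : Set ι) := by
  classical
  have h1 : sp B J = ⨆ s : {s : Finset ι // (s : Set ι) ⊆ J}, sp B (s : Set ι) := by
    apply le_antisymm
    · refine sp_le fun j hj => ?_
      refine le_trans ?_ (le_iSup (fun s : {s : Finset ι // (s : Set ι) ⊆ J} => sp B (s : Set ι))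
        ⟨{j}, by simpa using hj⟩)
      exact le_sp B (by simp)
    · exact iSup_le fun s => sp_mono B s.2
  rw [h1] at hx
  have : Nonempty {s : Finset ι // (s : Set ι) ⊆ J} := ⟨⟨∅, by simp⟩⟩
  have hdir : Directed (· ≤ ·) fun s : {s : Finset ι // (s : Set ι) ⊆ J} => sp B (s : Set ι) := by
    intro s t
    refine ⟨⟨s.1 ∪ t.1, ?_⟩, ?_, ?_⟩
    · rw [Finset.coe_union]
      exact Set.union_subset s.2 t.2
    · exact sp_mono B (by simp)
    · exact sp_mono B (by simp)
  obtain ⟨s, hs⟩ := (AddSubgroup.mem_iSup_of_directed hdir).mp hx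
  exact ⟨s.1, s.2, hs⟩

/-- The set `J` is closed under the function `F`. -/
def FClosed (F : ι → Finset ι) (J : Set ι) : Prop := ∀ i ∈ J, (F i : Set ι) ⊆ J

theorem FClosed.inter {F : ι → Finset ι} {J K : Set ι} (hJ : FClosed F J) (hK : FClosed F K) :
    FClosed F (J ∩ K) := fun i hi => Set.subset_inter (hJ i hi.1) (hK i hi.2)

theorem FClosed.union {F : ι → Finset ι} {J K : Set ι} (hJ : FClosed F J) (hK : FClosed F K) :
    FClosed F (J ∪ K) := by
  rintro i (hi | hi)
  · exact (hJ i hi).trans Set.subset_union_left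
  · exact (hK i hi).trans Set.subset_union_right

theorem FClosed.univ (F : ι → Finset ι) : FClosed F Set.univ := fun _ _ => Set.subset_univ _

theorem FClosed.empty (F : ι → Finset ι) : FClosed F ∅ := fun _ hi => hi.elim

end Sp

section Sys
variable {G : Type u} [AddCommGroup G] {ι : Type v} [LinearOrder ι]

/-- A well-ordered system of countable subgroups with finite support function `F`. -/
structure Sys (B : ι → AddSubgroup G) (F : ι → Finset ι) : Prop where
  lt : ∀ i, ∀ j ∈ F i, j < i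
  pure : ∀ i, IsPure (sp B (Set.Iio i))
  top : sp B Set.univ = ⊤
  cov : ∀ i, ∀ b ∈ B i, b ∈ sp B (Set.Iio i) → ∃ n : ℕ, n ≠ 0 ∧ n • b ∈ sp B (F i : Set ι)
  count : ∀ i, (B i : Set G).Countable

variable {B : ι → AddSubgroup G} {F : ι → Finset ι}

/-- The combined purity and intersection property on the initial segment `A`. -/
def PI (B : ι → AddSubgroup G) (F : ι → Finset ι) (A : Set ι) : Prop :=
  ∀ J J' : Set ι, FClosed F J → FClosed F J' → ∀ (n : ℕ) (x : G), n ≠ 0 →
    x ∈ sp B (J' ∩ A) → n • x ∈ sp B (J ∩ A) → x ∈ sp B (J ∩ J' ∩ A)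

theorem PI_of_forall {A : Set ι} (hA : ∀ m ∈ A, PI B F (Set.Iic m))
    (hlow : ∀ m ∈ A, Set.Iic m ⊆ A) : PI B F A := by
  classical
  intro J J' hJ hJ' n x hn hx hnx
  obtain ⟨s, hs, hxs⟩ := exists_finset_of_mem_sp B hx
  obtain ⟨s', hs', hxs'⟩ := exists_finset_of_mem_sp B hnx
  rcases (s ∪ s').eq_empty_or_nonempty with he | hne
  · have hs0 : s = ∅ := (Finset.union_eq_empty.mp he).1
    rw [hs0, Finset.coe_empty, sp_empty, AddSubgroup.mem_bot] at hxs
    rw [hxs]
    exact AddSubgroup.zero_mem _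
  · set m := (s ∪ s').max' hne with hm
    have hmA : m ∈ A := by
      rcases Finset.mem_union.mp ((s ∪ s').max'_mem hne) with h | h
      · exact (hs h).2
      · exact (hs' h).2
    have h1 : x ∈ sp B (J' ∩ Set.Iic m) := by
      refine sp_mono B ?_ hxs
      intro i hi
      exact ⟨(hs hi).1, Finset.le_max' _ _ (Finset.mem_union_left _ hi)⟩
    have h2 : n • x ∈ sp B (J ∩ Set.Iic m) := by
      refine sp_mono B ?_ hxs'
      intro i hi
      exact ⟨(hs' hi).1, Finset.le_max' _ _ (Finset.mem_union_right _ hi)⟩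
    exact sp_mono B (Set.inter_subset_inter_right _ (hlow m hmA))
      (hA m hmA J J' hJ hJ' n x hn h1 h2)

theorem inter_Iic_of_mem {J : Set ι} {m : ι} (hm : m ∈ J) :
    J ∩ Set.Iic m = (J ∩ Set.Iio m) ∪ {m} := by
  ext i
  simp only [Set.mem_inter_iff, Set.mem_Iic, Set.mem_union, Set.mem_Iio, Set.mem_singleton_iff]
  constructor
  · rintro ⟨h1, h2⟩
    rcases lt_or_eq_of_le h2 with h | h
    · exact Or.inl ⟨h1, h⟩
    · exact Or.inr h
  · rintro (⟨h1, h2⟩ | rfl)
    · exact ⟨h1, h2.le⟩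
    · exact ⟨hm, le_rfl⟩

theorem inter_Iic_of_notMem {J : Set ι} {m : ι} (hm : m ∉ J) :
    J ∩ Set.Iic m = J ∩ Set.Iio m := by
  ext i
  simp only [Set.mem_inter_iff, Set.mem_Iic, Set.mem_Iio]
  constructor
  · rintro ⟨h1, h2⟩
    exact ⟨h1, lt_of_le_of_ne h2 fun h => hm (h ▸ h1)⟩
  · rintro ⟨h1, h2⟩
    exact ⟨h1, h2.le⟩

theorem Sys.PI_Iic [WellFoundedLT ι] (h : Sys B F) (m : ι) : PI B F (Set.Iic m) := by
  induction m using WellFoundedLT.induction with
  | ind m ih =>
    have hlt : PI B F (Set.Iio m) := PI_of_forall (fun k hk => ih k hk)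
      (fun k (hk : k < m) i (hi : i ≤ k) => lt_of_le_of_lt hi hk)
    have habs : ∀ J : Set ι, FClosed F J → m ∈ J → ∀ b ∈ B m, b ∈ sp B (Set.Iio m) →
        b ∈ sp B (J ∩ Set.Iio m) := by
      intro J hJ hm b hb hb'
      obtain ⟨n, hn, hnb⟩ := h.cov m b hb hb'
      have hsub : (F m : Set ι) ⊆ J ∩ Set.Iio m := fun i hi => ⟨hJ m hm hi, h.lt m i hi⟩
      have h1 := hlt J Set.univ hJ (FClosed.univ F) n b hn (by rwa [Set.univ_inter])
        (sp_mono B hsub hnb)
      rwa [Set.inter_univ] at h1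
    intro J J' hJ hJ' n x hn hx hnx
    by_cases hmJ : m ∈ J
    · by_cases hmJ' : m ∈ J'
      · have hmm : m ∈ J ∩ J' := ⟨hmJ, hmJ'⟩
        rw [inter_Iic_of_mem hmm, sp_union, sp_singleton]
        rw [inter_Iic_of_mem hmJ', sp_union, sp_singleton] at hx
        rw [inter_Iic_of_mem hmJ, sp_union, sp_singleton] at hnx
        obtain ⟨u', hu', b', hb', rfl⟩ := AddSubgroup.mem_sup.mp hx
        obtain ⟨u, hu, b, hb, hub⟩ := AddSubgroup.mem_sup.mp hnx
        have h1 : b - n • b' = n • u' - u := by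
          rw [nsmul_add] at hub
          rw [sub_eq_sub_iff_add_eq_add, add_comm b u, hub]
        have h2 : b - n • b' ∈ sp B (J ∩ J' ∩ Set.Iio m) := by
          refine habs _ (hJ.inter hJ') hmm _ ?_ ?_
          · exact AddSubgroup.sub_mem _ hb (AddSubgroup.nsmul_mem _ hb' n)
          · rw [h1]
            refine AddSubgroup.sub_mem _ (AddSubgroup.nsmul_mem _ ?_ n) ?_
            · exact sp_mono B Set.inter_subset_right hu'
            · exact sp_mono B Set.inter_subset_right hu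
        have h3 : n • u' = u + (b - n • b') := by
          rw [h1]
          abel
        have h4 : n • u' ∈ sp B (J ∩ Set.Iio m) := by
          rw [h3]
          exact AddSubgroup.add_mem _ hu
            (sp_mono B (Set.inter_subset_inter_left _ Set.inter_subset_left) h2)
        exact AddSubgroup.add_mem_sup (hlt J J' hJ hJ' n u' hn hu' h4) hb'
      · rw [inter_Iic_of_notMem (fun h => hmJ' h.2)]
        rw [inter_Iic_of_notMem hmJ'] at hx
        rw [inter_Iic_of_mem hmJ, sp_union, sp_singleton] at hnx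
        obtain ⟨u, hu, b, hb, hub⟩ := AddSubgroup.mem_sup.mp hnx
        refine hlt J J' hJ hJ' n x hn hx ?_
        rw [← hub]
        refine AddSubgroup.add_mem _ hu (habs J hJ hmJ b hb ?_)
        have h1 : b = n • x - u := by rw [← hub]; abel
        rw [h1]
        refine AddSubgroup.sub_mem _ (AddSubgroup.nsmul_mem _ ?_ n) ?_
        · exact sp_mono B Set.inter_subset_right hx
        · exact sp_mono B Set.inter_subset_right hu
    · rw [inter_Iic_of_notMem (fun h => hmJ h.1)]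
      rw [inter_Iic_of_notMem hmJ] at hnx
      by_cases hmJ' : m ∈ J'
      · rw [inter_Iic_of_mem hmJ', sp_union, sp_singleton] at hx
        obtain ⟨u', hu', b', hb', rfl⟩ := AddSubgroup.mem_sup.mp hx
        refine hlt J J' hJ hJ' n _ hn ?_ hnx
        refine AddSubgroup.add_mem _ hu' (habs J' hJ' hmJ' b' hb' ?_)
        refine h.pure m n b' hn ?_
        have h1 : n • b' = n • (u' + b') - n • u' := by rw [nsmul_add]; abel
        rw [h1]
        refine AddSubgroup.sub_mem _ (sp_mono B Set.inter_subset_right hnx)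
          (AddSubgroup.nsmul_mem _ (sp_mono B Set.inter_subset_right hu') n)
      · rw [inter_Iic_of_notMem hmJ'] at hx
        exact hlt J J' hJ hJ' n x hn hx hnx

theorem Sys.PI_univ [WellFoundedLT ι] (h : Sys B F) : PI B F Set.univ :=
  PI_of_forall (fun m _ => h.PI_Iic m) (fun _ _ => Set.subset_univ _)

theorem Sys.isPure [WellFoundedLT ι] (h : Sys B F) {J : Set ι} (hJ : FClosed F J) :
    IsPure (sp B J) := by
  intro n x hn hx
  have h1 := h.PI_univ J Set.univ hJ (FClosed.univ F) n x hn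
  simp only [Set.inter_univ] at h1
  exact h1 (by rw [h.top]; trivial) hx

theorem Sys.mem_inter [WellFoundedLT ι] (h : Sys B F) {J J' : Set ι} (hJ : FClosed F J)
    (hJ' : FClosed F J') {x : G} (hx : x ∈ sp B J) (hx' : x ∈ sp B J') : x ∈ sp B (J ∩ J') := by
  have h1 := h.PI_univ J J' hJ hJ' 1 x one_ne_zero
  simp only [Set.inter_univ, one_smul] at h1
  exact h1 hx' hx

omit [AddCommGroup G] in
/-- Every finite set of indices lies in a finite closed set. -/
theorem exists_finset_closed [WellFoundedLT ι] {F : ι → Finset ι} (hF : ∀ i, ∀ j ∈ F i, j < i)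
    (s : Finset ι) : ∃ c : Finset ι, s ⊆ c ∧ FClosed F (c : Set ι) := by
  classical
  have h1 : ∀ i, ∃ c : Finset ι, i ∈ c ∧ FClosed F (c : Set ι) := by
    intro i
    induction i using WellFoundedLT.induction with
    | ind i ih =>
      choose! c hc hc' using ih
      refine ⟨insert i ((F i).biUnion c), Finset.mem_insert_self _ _, ?_⟩
      intro j hj
      rw [Finset.coe_insert] at hj
      rcases hj with rfl | hj
      · intro k hk
        rw [Finset.coe_insert]
        right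
        exact Finset.mem_coe.mpr (Finset.mem_biUnion.mpr ⟨k, hk, hc k (hF j k hk)⟩)
      · obtain ⟨k, hk, hjk⟩ := Finset.mem_biUnion.mp (Finset.mem_coe.mp hj)
        intro l hl
        rw [Finset.coe_insert]
        right
        exact Finset.mem_coe.mpr (Finset.mem_biUnion.mpr ⟨k, hk, hc' k (hF i k hk) j hjk hl⟩)
  choose c hc hc' using h1
  refine ⟨s.biUnion c, fun i hi => Finset.mem_biUnion.mpr ⟨i, hi, hc i⟩, ?_⟩
  intro j hj k hk
  obtain ⟨i, hi, hji⟩ := Finset.mem_biUnion.mp (Finset.mem_coe.mp hj)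
  exact Finset.mem_coe.mpr (Finset.mem_biUnion.mpr ⟨i, hi, hc' i j hji hk⟩)

theorem Sys.countable_sp (h : Sys B F) {J : Set ι} (hJ : J.Countable) :
    ((sp B J : AddSubgroup G) : Set G).Countable := by
  have h1 : sp B J ≤ AddSubgroup.closure (⋃ j ∈ J, (B j : Set G)) := by
    refine sp_le fun j hj x hx => AddSubgroup.subset_closure (Set.mem_biUnion hj hx)
  exact (countable_closure (hJ.biUnion fun j _ => h.count j)).mono h1

/-! ### Good sets -/

/-- A set `J` of indices is good if over `sp B J` every finite closed set can be retracted. -/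
def Good (B : ι → AddSubgroup G) (F : ι → Finset ι) (J : Set ι) : Prop :=
  FClosed F J ∧ ∀ c : Finset ι, FClosed F (c : Set ι) →
    ∃ φ : sp B (c : Set ι) →+ G, (∀ x, φ x ∈ sp B J) ∧
      ∀ x : sp B (c : Set ι), (x : G) ∈ sp B J → φ x = x

omit [LinearOrder ι] in
theorem good_empty (B : ι → AddSubgroup G) (F : ι → Finset ι) : Good B F ∅ := by
  refine ⟨FClosed.empty F, fun c _ => ⟨0, fun x => AddSubgroup.zero_mem _, fun x hx => ?_⟩⟩
  rw [sp_empty, AddSubgroup.mem_bot] at hx
  rw [hx]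
  rfl

theorem Sys.isSeparable_of_good [WellFoundedLT ι] (h : Sys B F) {J : Set ι} (hJ : Good B F J) :
    IsSeparable (sp B J) := by
  classical
  intro g
  obtain ⟨s, _, hgs⟩ := exists_finset_of_mem_sp B (J := Set.univ) (x := g) (by rw [h.top]; trivial)
  obtain ⟨c, hsc, hc⟩ := exists_finset_closed h.lt s
  have hgc : g ∈ sp B (c : Set ι) := sp_mono B (by exact_mod_cast hsc) hgs
  obtain ⟨φ, hφ, hφ'⟩ := hJ.2 c hc
  refine ⟨fun _ => -φ ⟨g, hgc⟩, fun _ => AddSubgroup.neg_mem _ (hφ _), fun y hy => ⟨0, ?_⟩⟩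
  intro p
  change height p (g + y) ≤ height p (g + -φ ⟨g, hgc⟩)
  rw [← ENat.forall_natCast_le_iff_le]
  intro n hn
  rw [natCast_le_height] at hn
  obtain ⟨z, hz⟩ := hn
  rw [natCast_le_height]
  have hpn : (p : ℕ) ^ n ≠ 0 := pow_ne_zero _ p.2.ne_zero
  have hzc : z ∈ sp B ((c : Set ι) ∪ J) := by
    refine h.isPure (hc.union hJ.1) _ z hpn ?_
    rw [hz]
    exact AddSubgroup.add_mem _ (sp_mono B Set.subset_union_left hgc)
      (sp_mono B Set.subset_union_right hy)
  rw [sp_union] at hzc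
  obtain ⟨z₁, hz₁, z₂, hz₂, rfl⟩ := AddSubgroup.mem_sup.mp hzc
  have h1 : (p : ℕ) ^ n • z₁ - g = y - (p : ℕ) ^ n • z₂ := by
    rw [nsmul_add] at hz
    rw [sub_eq_sub_iff_add_eq_add, hz]
    abel
  have h2 : φ ((p : ℕ) ^ n • ⟨z₁, hz₁⟩ - ⟨g, hgc⟩) = (p : ℕ) ^ n • z₁ - g := by
    refine hφ' ((p : ℕ) ^ n • ⟨z₁, hz₁⟩ - ⟨g, hgc⟩) ?_
    change (p : ℕ) ^ n • z₁ - g ∈ sp B J
    rw [h1]
    exact AddSubgroup.sub_mem _ hy (AddSubgroup.nsmul_mem _ hz₂ _)
  rw [map_sub, map_nsmul] at h2
  refine ⟨z₁ - φ ⟨z₁, hz₁⟩, ?_⟩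
  rw [nsmul_sub]
  have h3 : (p : ℕ) ^ n • φ ⟨z₁, hz₁⟩ = ((p : ℕ) ^ n • z₁ - g) + φ ⟨g, hgc⟩ := by
    rw [← h2]
    abel
  rw [h3]
  abel

end Sys

end Pool.Agent.Helper548.Axiom3
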