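import Mathlib
import Pool.Agent.Helper548.Axiom3Defs
import Pool.Agent.Helper548.Axiom3Hill
import Pool.Agent.Helper548.Axiom3Sys

/-!
Twins: every union of a good set with a set closed under suitable finitary operations is good.
-/

open Cardinal

namespace Pool.Agent.Helper548.Axiom3

universe u

variable {G : Type u} [AddCommGroup G] {ι : Type u} [LinearOrder ι]
variable {B : ι → AddSubgroup G} {F : ι → Finset ι}

theorem exists_enum {H : AddSubgroup G} (hH : (H : Set G).Countable) :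
    ∃ π : (ℕ →₀ ℤ) →+ G, ∀ x, x ∈ H ↔ ∃ f, π f = x := by
  obtain ⟨e, he⟩ := hH.exists_eq_range ⟨0, H.zero_mem⟩
  refine ⟨(Finsupp.linearCombination ℤ e).toAddMonoidHom, fun x => ⟨fun hx => ?_, ?_⟩⟩
  · have : x ∈ (H : Set G) := hx
    rw [he] at this
    obtain ⟨n, rfl⟩ := this
    exact ⟨Finsupp.single n 1, by simp⟩
  · rintro ⟨f, rfl⟩
    change Finsupp.linearCombination ℤ e f ∈ H
    rw [Finsupp.linearCombination_apply]
    refine AddSubgroup.sum_mem _ fun n _ => AddSubgroup.zsmul_mem _ ?_ _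
    have : e n ∈ (H : Set G) := by rw [he]; exact ⟨n, rfl⟩
    exact this

/-- Twins over finite sets of indices, relative to the set `K`. -/
theorem Sys.exists_twin (h : Sys B F) (K : Set ι) :
    ∃ T : Finset ι → Set ι, (∀ d, #(T d) ≤ 𝔠) ∧
      ∀ c d : Finset ι, FClosed F (c : Set ι) →
        ∃ c' : Finset ι, FClosed F (c' : Set ι) ∧ (c' : Set ι) ⊆ T d ∧
          ∃ ψ : sp B (c : Set ι) →+ G, (∀ x, ψ x ∈ sp B (c' : Set ι)) ∧
            (∀ x : sp B (c : Set ι), (x : G) ∈ sp B (d : Set ι) → ψ x = x) ∧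
            ∀ x : sp B (c : Set ι), (x : G) ∈ sp B K → ψ x ∈ sp B K := by
  classical
  choose π hπ using fun c : Finset ι => exists_enum (h.countable_sp c.countable_toSet)
  -- the codes
  let Code : Finset ι → Type u := fun d =>
    Set ((ℕ →₀ ℤ) × (sp B (d : Set ι))) × Set (ℕ →₀ ℤ)
  let code : (d c : Finset ι) → Code d := fun d c =>
    ({q | π c q.1 = q.2}, {f | π c f ∈ sp B K})
  let T : Finset ι → Set ι := fun d => ⋃ q : Code d,
    if hq : ∃ c : Finset ι, FClosed F (c : Set ι) ∧ code d c = q then (hq.choose : Set ι) else ∅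
  have hCode : ∀ d, #(Code d) ≤ 𝔠 := by
    intro d
    have hc : Countable (sp B (d : Set ι)) := (h.countable_sp d.countable_toSet).to_subtype
    change #(Set ((ℕ →₀ ℤ) × (sp B (d : Set ι))) × Set (ℕ →₀ ℤ)) ≤ 𝔠
    rw [mk_prod]
    refine mul_le_of_le aleph0_le_continuum ?_ ?_
    · simp
    · simp
  refine ⟨T, ?_, ?_⟩
  · intro d
    refine (mk_iUnion_le _).trans ?_
    refine mul_le_of_le aleph0_le_continuum (hCode d) ?_
    refine ciSup_le' fun q => ?_
    split_ifs with hq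
    · exact (mk_le_aleph0 (α := ((hq.choose : Finset ι) : Set ι))).trans aleph0_le_continuum
    · simp
  · intro c d hc
    have hq : ∃ c' : Finset ι, FClosed F (c' : Set ι) ∧ code d c' = code d c := ⟨c, hc, rfl⟩
    have hqT : (hq.choose : Set ι) ⊆ T d := by
      intro i hi
      refine Set.mem_iUnion.mpr ⟨code d c, ?_⟩
      rw [dif_pos hq]
      exact hi
    obtain ⟨hcl, hcode⟩ := hq.choose_spec
    set c' : Finset ι := hq.choose with hc'
    have hR : ∀ (f : ℕ →₀ ℤ) (y : sp B (d : Set ι)), π c' f = y ↔ π c f = y := by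
      intro f y
      have h1 : ((f, y) ∈ (code d c').1) ↔ ((f, y) ∈ (code d c).1) := by rw [hcode]
      exact h1
    have hS : ∀ f : ℕ →₀ ℤ, π c' f ∈ sp B K ↔ π c f ∈ sp B K := by
      intro f
      have h1 : (f ∈ (code d c').2) ↔ (f ∈ (code d c).2) := by rw [hcode]
      exact h1
    refine ⟨c', hcl, hqT, ?_⟩
    have hker : ∀ f f' : ℕ →₀ ℤ, π c f = π c f' → π c' f = π c' f' := by
      intro f f' hff
      have h1 : π c (f - f') = ((0 : sp B (d : Set ι)) : G) := by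
        rw [map_sub, hff, sub_self]
        rfl
      have h2 := (hR (f - f') 0).mpr h1
      rw [map_sub] at h2
      exact sub_eq_zero.mp h2
    choose g hg using fun x : sp B (c : Set ι) => (hπ c x).mp x.2
    refine ⟨⟨⟨fun x => π c' (g x), ?_⟩, ?_⟩, ?_, ?_, ?_⟩
    · have h1 : π c' (g 0) = π c' 0 := hker _ _ (by rw [hg, map_zero]; rfl)
      rw [h1, map_zero]
    · intro x y
      change π c' (g (x + y)) = π c' (g x) + π c' (g y)
      rw [← map_add]
      refine hker _ _ ?_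
      rw [map_add, hg, hg, hg]
      rfl
    · intro x
      exact (hπ c' _).mpr ⟨g x, rfl⟩
    · intro x hx
      exact (hR (g x) ⟨x, hx⟩).mpr (hg x)
    · intro x hx
      refine (hS (g x)).mpr ?_
      rw [hg]
      exact hx

/-- `L` is closed under the finitary operations `T`. -/
def TClosed (T : Finset ι → Set ι) (L : Set ι) : Prop :=
  ∀ d : Finset ι, (d : Set ι) ⊆ L → T d ⊆ L

theorem Sys.exists_good_union [WellFoundedLT ι] (h : Sys B F) {K : Set ι} (hK : Good B F K) :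
    ∃ T : Finset ι → Set ι, (∀ d, #(T d) ≤ 𝔠) ∧
      ∀ L : Set ι, FClosed F L → TClosed T L → Good B F (K ∪ L) := by
  classical
  obtain ⟨T, hT, htwin⟩ := h.exists_twin K
  refine ⟨T, hT, fun L hL hTL => ⟨hK.1.union hL, fun c hc => ?_⟩⟩
  let d : Finset ι := c.filter (· ∈ L)
  have hd : (d : Set ι) = (c : Set ι) ∩ L := by
    ext i
    simp [d]
  have hdL : (d : Set ι) ⊆ L := by
    rw [hd]
    exact Set.inter_subset_right
  obtain ⟨c', hc', hc'T, ψ, hψ, hψd, hψK⟩ := htwin c d hc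
  have hc'L : (c' : Set ι) ⊆ L := hc'T.trans (hTL d hdL)
  have hcc : FClosed F ((c ∪ c' : Finset ι) : Set ι) := by
    rw [Finset.coe_union]
    exact hc.union hc'
  obtain ⟨φK, hφK, hφK'⟩ := hK.2 (c ∪ c') hcc
  have hle : sp B (c : Set ι) ≤ sp B ((c ∪ c' : Finset ι) : Set ι) :=
    sp_mono B (by simp)
  have hle' : sp B (c' : Set ι) ≤ sp B ((c ∪ c' : Finset ι) : Set ι) :=
    sp_mono B (by simp)
  let δ : sp B (c : Set ι) →+ sp B ((c ∪ c' : Finset ι) : Set ι) :=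
    ((sp B (c : Set ι)).subtype - ψ).codRestrict _
      (fun x => AddSubgroup.sub_mem _ (hle x.2) (hle' (hψ x)))
  have hδ : ∀ x, ((δ x : sp B ((c ∪ c' : Finset ι) : Set ι)) : G) = x - ψ x := fun x => rfl
  refine ⟨ψ + φK.comp δ, fun x => ?_, ?_⟩
  · rw [sp_union]
    change ψ x + φK (δ x) ∈ _
    exact AddSubgroup.add_mem _ (AddSubgroup.mem_sup_right (sp_mono B hc'L (hψ x)))
      (AddSubgroup.mem_sup_left (hφK _))
  · rintro ⟨x, hxc⟩ hx
    change x ∈ sp B (K ∪ L) at hx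
    have h1 := h.mem_inter hc (hK.1.union hL) hxc hx
    rw [Set.inter_union_distrib_left, sp_union] at h1
    obtain ⟨x₁, hx₁, x₂, hx₂, rfl⟩ := AddSubgroup.mem_sup.mp h1
    have hx₁c : x₁ ∈ sp B (c : Set ι) := sp_mono B Set.inter_subset_left hx₁
    have hx₂c : x₂ ∈ sp B (c : Set ι) := sp_mono B Set.inter_subset_left hx₂
    have hx₁K : x₁ ∈ sp B K := sp_mono B Set.inter_subset_right hx₁
    have e : (⟨x₁ + x₂, hxc⟩ : sp B (c : Set ι)) = ⟨x₁, hx₁c⟩ + ⟨x₂, hx₂c⟩ := rfl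
    rw [e, map_add]
    have e1 : (ψ + φK.comp δ) ⟨x₁, hx₁c⟩ = x₁ := by
      change ψ ⟨x₁, hx₁c⟩ + φK (δ ⟨x₁, hx₁c⟩) = x₁
      have h2 : φK (δ ⟨x₁, hx₁c⟩) = δ ⟨x₁, hx₁c⟩ := by
        refine hφK' _ ?_
        rw [hδ]
        exact AddSubgroup.sub_mem _ hx₁K (hψK ⟨x₁, hx₁c⟩ hx₁K)
      rw [h2, hδ]
      abel
    have e2 : (ψ + φK.comp δ) ⟨x₂, hx₂c⟩ = x₂ := by
      change ψ ⟨x₂, hx₂c⟩ + φK (δ ⟨x₂, hx₂c⟩) = x₂
      have h3 : ψ ⟨x₂, hx₂c⟩ = x₂ := hψd ⟨x₂, hx₂c⟩ (by rw [hd]; exact hx₂)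
      have h2 : δ ⟨x₂, hx₂c⟩ = 0 := by
        apply Subtype.ext
        rw [hδ, h3]
        simp
      rw [h2, h3, map_zero, add_zero]
    rw [e1, e2]
    rfl

end Pool.Agent.Helper548.Axiom3
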