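import Mathlib
import Pool.Agent.Helper548.Axiom3Defs
import Pool.Agent.Helper548.Axiom3Hill
import Pool.Agent.Helper548.Axiom3Sys
import Pool.Agent.Helper548.Axiom3Twin

/-!
Under the continuum hypothesis a well-ordered system is generated by a well-ordered family whose
initial segments generate separable subgroups.
-/

open Cardinal

namespace Pool.Agent.Helper548.Axiom3

universe u

section General
variable {ι : Type u}

theorem exists_subset_of_directed {α : Type u} [Nonempty α] {X : α → Set ι}
    (hX : Directed (· ⊆ ·) X) (d : Finset ι) (hd : (d : Set ι) ⊆ ⋃ a, X a) :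
    ∃ a, (d : Set ι) ⊆ X a := by
  classical
  induction d using Finset.induction_on with
  | empty => exact ⟨Classical.arbitrary α, by simp⟩
  | insert i d _ ih =>
    rw [Finset.coe_insert, Set.insert_subset_iff] at hd
    obtain ⟨a, ha⟩ := ih hd.2
    obtain ⟨b, hb⟩ := Set.mem_iUnion.mp hd.1
    obtain ⟨c, hac, hbc⟩ := hX a b
    refine ⟨c, ?_⟩
    rw [Finset.coe_insert, Set.insert_subset_iff]
    exact ⟨hbc hb, ha.trans hac⟩

theorem TClosed.iUnion {T : Finset ι → Set ι} {α : Type u} [Nonempty α] {X : α → Set ι}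
    (hX : Directed (· ⊆ ·) X) (hT : ∀ a, TClosed T (X a)) : TClosed T (⋃ a, X a) := by
  intro d hd
  obtain ⟨a, ha⟩ := exists_subset_of_directed hX d hd
  exact (hT a d ha).trans (Set.subset_iUnion X a)

/-- The closure of a set under finitary operations. -/
theorem exists_hull (T : Finset ι → Set ι) (hT : ∀ d, #(T d) ≤ 𝔠) (X : Set ι)
    {κ : Cardinal.{u}} (hκ : 𝔠 ≤ κ) (hX : #X ≤ κ) :
    ∃ Y : Set ι, X ⊆ Y ∧ #Y ≤ κ ∧ TClosed T Y := by
  classical
  have hκ0 : ℵ₀ ≤ κ := aleph0_le_continuum.trans hκ
  let step : Set ι → Set ι := fun Z => Z ∪ ⋃ d : {d : Finset ι // (d : Set ι) ⊆ Z}, T d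
  have hstep : ∀ Z : Set ι, #Z ≤ κ → #(step Z) ≤ κ := by
    intro Z hZ
    refine (mk_union_le _ _).trans (add_le_of_le hκ0 hZ ?_)
    refine (mk_iUnion_le _).trans (mul_le_of_le hκ0 ?_ ?_)
    · have h1 : #{d : Finset ι // (d : Set ι) ⊆ Z} ≤ #(Finset Z) := by
        refine mk_le_of_surjective (f := fun s : Finset Z =>
          (⟨s.map (Function.Embedding.subtype _), ?_⟩ : {d : Finset ι // (d : Set ι) ⊆ Z})) ?_
        · intro i hi
          simp only [Finset.coe_map, Set.mem_image, Finset.mem_coe] at hi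
          obtain ⟨j, _, rfl⟩ := hi
          exact j.2
        · rintro ⟨d, hd⟩
          refine ⟨d.subtype (· ∈ Z), ?_⟩
          apply Subtype.ext
          change (d.subtype (· ∈ Z)).map (Function.Embedding.subtype _) = d
          rw [Finset.subtype_map]
          exact Finset.filter_true_of_mem fun i hi => hd hi
      have h2 : #(Finset Z) ≤ #(List Z) := mk_le_of_surjective List.toFinset_surjective
      refine h1.trans (h2.trans ((mk_list_le_max Z).trans ?_))
      exact max_le hκ0 hZ
    · exact ciSup_le' fun d => (hT d).trans hκ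
  let Xn : ℕ → Set ι := fun n => Nat.rec X (fun _ Z => step Z) n
  have hXn : ∀ n, Xn (n + 1) = step (Xn n) := fun n => rfl
  have hc : ∀ n, #(↥(Xn n)) ≤ κ := by
    intro n
    induction n with
    | zero => exact hX
    | succ n ih => rw [hXn]; exact hstep _ ih
  have hmono : Monotone Xn := by
    refine monotone_nat_of_le_succ fun n => ?_
    rw [hXn]
    exact Set.subset_union_left
  let Xu : ULift.{u} ℕ → Set ι := fun n => Xn n.down
  have hdir : Directed (· ⊆ ·) Xu := fun a b =>
    ⟨⟨max a.down b.down⟩, hmono (le_max_left _ _), hmono (le_max_right _ _)⟩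
  refine ⟨⋃ n, Xu n, Set.subset_iUnion Xu ⟨0⟩, ?_, ?_⟩
  · refine (mk_iUnion_le _).trans (mul_le_of_le hκ0 ?_ (ciSup_le' fun n => hc n.down))
    exact mk_le_aleph0.trans hκ0
  · intro d hd
    obtain ⟨n, hn⟩ := exists_subset_of_directed hdir d hd
    refine Set.Subset.trans ?_ (Set.subset_iUnion Xu ⟨n.down + 1⟩)
    change T d ⊆ Xn (n.down + 1)
    rw [hXn]
    exact (Set.subset_iUnion (fun d : {d : Finset ι // (d : Set ι) ⊆ Xn n.down} => T d)
      ⟨d, hn⟩).trans Set.subset_union_right

theorem sigmaLex_wellFoundedLT {J : Type u} [LinearOrder J] [WellFoundedLT J] {W : J → Type u}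
    [∀ j, LinearOrder (W j)] [hW : ∀ j, WellFoundedLT (W j)] : WellFoundedLT (Σₗ j, W j) := by
  refine ⟨⟨?_⟩⟩
  have h1 : ∀ (j : J) (w : W j), Acc (· < ·) (toLex ⟨j, w⟩ : Σₗ j, W j) := by
    intro j
    induction j using WellFoundedLT.induction with
    | ind j ih =>
      intro w
      induction w using WellFoundedLT.induction with
      | ind w ihw =>
        refine Acc.intro _ ?_
        rintro ⟨i, v⟩ h
        rcases Sigma.Lex.lt_def.mp h with h | ⟨h1, h2⟩
        · exact ih i h v
        · change i = j at h1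
          subst h1
          exact ihw v h2
  rintro ⟨j, w⟩
  exact h1 j w

end General

section Sep
variable {G : Type u} [AddCommGroup G]

theorem isSeparable_sup_of_countable {H K : AddSubgroup G} (hH : IsSeparable H)
    (hK : (K : Set G).Countable) : IsSeparable (H ⊔ K) := by
  intro g
  obtain ⟨k, hk⟩ := hK.exists_eq_range ⟨0, K.zero_mem⟩
  have hkK : ∀ n, k n ∈ K := fun n => by
    have : k n ∈ (K : Set G) := by rw [hk]; exact ⟨n, rfl⟩
    exact this
  choose h hh hdom using fun j => hH (g + k j)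
  refine ⟨fun n => k n.unpair.1 + h n.unpair.1 n.unpair.2, fun n => ?_, fun x hx => ?_⟩
  · exact AddSubgroup.add_mem _ (AddSubgroup.mem_sup_right (hkK _))
      (AddSubgroup.mem_sup_left (hh _ _))
  · obtain ⟨a, ha, b, hb, rfl⟩ := AddSubgroup.mem_sup.mp hx
    have : b ∈ (K : Set G) := hb
    rw [hk] at this
    obtain ⟨j, rfl⟩ := this
    obtain ⟨n, hn⟩ := hdom j a ha
    refine ⟨Nat.pair j n, ?_⟩
    simp only [Nat.unpair_pair]
    have e1 : g + (a + k j) = g + k j + a := by abel
    have e2 : g + (k j + h j n) = g + k j + h j n := by abel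
    rw [e1, e2]
    exact hn

/-- An enumeration of a subgroup of cardinality at most `ℵ₁` in order type `ω₁`. -/
theorem exists_enum_aleph_one (H : AddSubgroup G) (hH : #H ≤ ℵ_ 1) :
    ∃ (W : Type u) (_ : LinearOrder W) (_ : WellFoundedLT W) (c : W → G),
      gen c Set.univ = H ∧ ∀ w : W, (Set.Iio w).Countable := by
  classical
  let W : Type u := (ℵ_ 1 : Cardinal.{u}).ord.ToType
  have hW : #W = ℵ_ 1 := mk_ord_toType _
  obtain ⟨f⟩ : Nonempty (H ↪ W) := by
    rw [← Cardinal.le_def, hW]
    exact hH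
  let c : W → G := fun w => if h : ∃ x : H, f x = w then (h.choose : G) else 0
  have hc_mem : ∀ w, c w ∈ H := by
    intro w
    simp only [c]
    split_ifs with h
    · exact (h.choose).2
    · exact AddSubgroup.zero_mem _
  have hc_surj : ∀ x : H, c (f x) = x := by
    intro x
    have h : ∃ y : H, f y = f x := ⟨x, rfl⟩
    have h2 : c (f x) = (h.choose : G) := by
      simp only [c]
      exact dif_pos h
    rw [h2]
    exact congrArg Subtype.val (f.injective h.choose_spec)
  refine ⟨W, inferInstance, inferInstance, c, ?_, ?_⟩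
  · apply le_antisymm
    · refine (AddSubgroup.closure_le _).mpr ?_
      rintro _ ⟨w, _, rfl⟩
      exact hc_mem w
    · intro x hx
      have h1 := mem_gen c (S := Set.univ) (i := f ⟨x, hx⟩) (Set.mem_univ _)
      rw [hc_surj] at h1
      exact h1
  · intro w
    have h1 : #(Set.Iio w) < #W := mk_Iio_lt w (by rw [hW]; simp [W])
    have h10 : (ℵ_ 1 : Cardinal.{u}) = Order.succ ℵ₀ := succ_aleph0.symm
    exact le_aleph0_iff_set_countable.mp
      (Order.lt_succ_iff.mp (lt_of_lt_of_eq (lt_of_lt_of_eq h1 hW) h10))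

end Sep

end Pool.Agent.Helper548.Axiom3
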