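import Mathlib
import Pool.Agent.Helper548.Axiom3Defs
import Pool.Agent.Helper548.Axiom3Hill
import Pool.Agent.Helper548.Axiom3Sys
import Pool.Agent.Helper548.Axiom3Twin
import Pool.Agent.Helper548.Axiom3Chain

/-!
Under the continuum hypothesis every Butler group of type 2 satisfies Axiom 3 with respect to
separable subgroups.
-/

open Cardinal

namespace Pool.Agent.Helper548.Axiom3

universe u

section Main
variable {G : Type u} [AddCommGroup G] {ι : Type u} [LinearOrder ι]
variable {B : ι → AddSubgroup G} {F : ι → Finset ι}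

/-- The conclusion of the main construction. -/
def Ext (B : ι → AddSubgroup G) (T : Finset ι → Set ι) (K X Y : Set ι) (κ : Cardinal.{u}) : Prop :=
  X ⊆ Y ∧ #Y ≤ κ ∧ TClosed T Y ∧
    ∃ (W : Type u) (_ : LinearOrder W) (_ : WellFoundedLT W) (c : W → G),
      sp B K ⊔ gen c Set.univ = sp B (K ∪ Y) ∧ ∀ w : W, IsSeparable (sp B K ⊔ gen c (Set.Iio w))

theorem Sys.card_sp_le (h : Sys B F) {J : Set ι} {κ : Cardinal.{u}} (hκ : ℵ₀ ≤ κ)
    (hJ : #J ≤ κ) : #(sp B J) ≤ κ := by
  classical
  have h1 : ((sp B J : AddSubgroup G) : Set G) ⊆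
      ⋃ s : List J, ((sp B {i | ∃ j ∈ s, (j : ι) = i} : AddSubgroup G) : Set G) := by
    intro x hx
    obtain ⟨s, hs, hxs⟩ := exists_finset_of_mem_sp B hx
    refine Set.mem_iUnion.mpr ⟨(s.subtype (· ∈ J)).toList, sp_mono B ?_ hxs⟩
    intro i hi
    refine ⟨⟨i, hs hi⟩, ?_, rfl⟩
    rw [Finset.mem_toList, Finset.mem_subtype]
    exact hi
  refine (mk_le_mk_of_subset h1).trans ((mk_iUnion_le _).trans (mul_le_of_le hκ ?_ ?_))
  · exact (mk_list_le_max J).trans (max_le hκ hJ)
  · refine ciSup_le' fun s => ?_
    have h2 : {i | ∃ j ∈ s, (j : ι) = i}.Countable := by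
      have : {i | ∃ j ∈ s, (j : ι) = i} = ((s.map Subtype.val).toFinset : Set ι) := by
        ext i
        simp
      rw [this]
      exact Finset.countable_toSet _
    exact (le_aleph0_iff_set_countable.mpr (h.countable_sp h2)).trans hκ

omit [LinearOrder ι] in
theorem FClosed.of_tClosed {T : Finset ι → Set ι}
    (hFT : ∀ d : Finset ι, ∀ i ∈ d, (F i : Set ι) ⊆ T d) {L : Set ι} (hL : TClosed T L) :
    FClosed F L := by
  intro i hi
  exact (hFT {i} i (Finset.mem_singleton_self i)).trans
    (hL {i} (by rw [Finset.coe_singleton]; exact Set.singleton_subset_iff.mpr hi))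

theorem Sys.exists_ext [WellFoundedLT ι] (h : Sys B F) (hCH : (𝔠 : Cardinal.{u}) = ℵ_ 1)
    (κ : Cardinal.{u}) : 𝔠 ≤ κ → ∀ K : Set ι, Good B F K → ∀ T : Finset ι → Set ι,
      (∀ d, #(T d) ≤ 𝔠) → (∀ d : Finset ι, ∀ i ∈ d, (F i : Set ι) ⊆ T d) →
      ∀ X : Set ι, #X ≤ κ → ∃ Y, Ext B T K X Y κ := by
  classical
  induction κ using WellFoundedLT.induction with
  | ind κ ih =>
    intro hκ K hK T hT hFT X hX
    rcases eq_or_lt_of_le hκ with hκ' | hκ'
    · -- the base case
      obtain ⟨Y, hXY, hY, hTY⟩ := exists_hull T hT X hκ hX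
      have hspY : #(sp B Y) ≤ ℵ_ 1 := by
        rw [← hCH]
        exact h.card_sp_le aleph0_le_continuum (hκ' ▸ hY)
      obtain ⟨W, i1, i2, c, hc, hcount⟩ := exists_enum_aleph_one (sp B Y) hspY
      refine ⟨Y, hXY, hY, hTY, W, i1, i2, c, ?_, ?_⟩
      · rw [hc, sp_union]
      · intro w
        exact isSeparable_sup_of_countable (h.isSeparable_of_good hK) (countable_gen c (hcount w))
    · -- the inductive step
      have hκ0 : ℵ₀ ≤ κ := aleph0_le_continuum.trans hκ
      let J : Type u := κ.ord.ToType
      have hJ : #J = κ := mk_ord_toType _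
      have hJne : Nonempty J := by
        rw [← mk_ne_zero_iff, hJ]
        exact (lt_of_lt_of_le aleph0_pos hκ0).ne'
      have hIio : ∀ j : J, #(Set.Iio j) < κ := fun j =>
        lt_of_lt_of_eq (mk_Iio_lt j (by rw [hJ]; simp [J])) hJ
      obtain ⟨e⟩ : Nonempty (X ↪ J) := by
        rw [← Cardinal.le_def, hJ]
        exact hX
      obtain ⟨TK, hTK, hTKgood⟩ := h.exists_good_union hK
      let T' : Finset ι → Set ι := fun d => T d ∪ TK d
      have hT' : ∀ d, #(T' d) ≤ 𝔠 := fun d =>
        (mk_union_le _ _).trans (add_le_of_le aleph0_le_continuum (hT d) (hTK d))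
      have hFT' : ∀ d : Finset ι, ∀ i ∈ d, (F i : Set ι) ⊆ T' d := fun d i hi =>
        (hFT d i hi).trans Set.subset_union_left
      have hTT : ∀ L : Set ι, TClosed T' L → TClosed T L := fun L hL d hd =>
        Set.subset_union_left.trans (hL d hd)
      have hTTK : ∀ L : Set ι, TClosed T' L → Good B F (K ∪ L) := fun L hL =>
        hTKgood L (FClosed.of_tClosed hFT' hL) fun d hd => Set.subset_union_right.trans (hL d hd)
      let μ : J → Cardinal.{u} := fun j => max #(Set.Iio j) 𝔠
      have hμ : ∀ j, μ j < κ := fun j => max_lt (hIio j) hκ'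
      have hμ0 : ∀ j, ℵ₀ ≤ μ j := fun j => aleph0_le_continuum.trans (le_max_right _ _)
      have hμmono : ∀ i j, i ≤ j → μ i ≤ μ j := fun i j hij =>
        max_le_max (mk_le_mk_of_subset (Set.Iio_subset_Iio hij)) le_rfl
      let Xj : J → Set ι := fun j => {x | ∃ hx : x ∈ X, e ⟨x, hx⟩ = j}
      have hXj : ∀ j, #(Xj j) ≤ 1 := by
        intro j
        rw [mk_le_one_iff_set_subsingleton]
        rintro x ⟨hx, hx'⟩ y ⟨hy, hy'⟩
        exact congrArg Subtype.val (e.injective (hx'.trans hy'.symm))
      have hstep : ∀ (j : J) (Z : Set ι), ∃ Y, Good B F (K ∪ Z) → #Z ≤ μ j →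
          Ext B T' (K ∪ Z) (Z ∪ Xj j) Y (μ j) := by
        intro j Z
        by_cases hg : Good B F (K ∪ Z) ∧ #Z ≤ μ j
        · obtain ⟨Y, hY⟩ := ih (μ j) (hμ j) (le_max_right _ _) (K ∪ Z) hg.1 T' hT' hFT' (Z ∪ Xj j)
            ((mk_union_le _ _).trans (add_le_of_le (hμ0 j) hg.2
              ((hXj j).trans (one_le_aleph0.trans (hμ0 j)))))
          exact ⟨Y, fun _ _ => hY⟩
        · exact ⟨∅, fun h1 h2 => absurd ⟨h1, h2⟩ hg⟩
      choose step hstep using hstep
      let Y : J → Set ι := WellFounded.fix (wellFounded_lt : WellFounded ((· < ·) : J → J → Prop))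
        (fun j rec => step j (⋃ i : Set.Iio j, rec i.1 i.2))
      let Z : J → Set ι := fun j => ⋃ i : Set.Iio j, Y i
      have hY : ∀ j, Y j = step j (Z j) := fun j => WellFounded.fix_eq _ _ j
      have key : ∀ j, Good B F (K ∪ Z j) ∧ Ext B T' (K ∪ Z j) (Z j ∪ Xj j) (Y j) (μ j) := by
        intro j
        induction j using WellFoundedLT.induction with
        | ind j ihj =>
          have hmono : ∀ i i' : J, i < i' → i' < j → Y i ⊆ Y i' := by
            intro i i' hii' hi'
            refine Set.Subset.trans ?_ (Set.subset_union_left.trans (ihj i' hi').2.1)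
            exact Set.subset_iUnion (fun a : Set.Iio i' => Y a) ⟨i, hii'⟩
          have hZcard : #(Z j) ≤ μ j := by
            refine (mk_iUnion_le _).trans (mul_le_of_le (hμ0 j) (le_max_left _ _) ?_)
            exact ciSup_le' fun i => (ihj i i.2).2.2.1.trans (hμmono i j (le_of_lt i.2))
          have hgood : Good B F (K ∪ Z j) := by
            rcases isEmpty_or_nonempty (Set.Iio j) with hE | hE
            · have : Z j = ∅ := Set.iUnion_of_empty _
              rw [this, Set.union_empty]
              exact hK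
            · refine hTTK _ (TClosed.iUnion ?_ fun i => (ihj i i.2).2.2.2.1)
              intro a b
              rcases lt_trichotomy a b with hab | hab | hab
              · exact ⟨b, hmono a b hab b.2, subset_rfl⟩
              · exact ⟨b, hab ▸ subset_rfl, subset_rfl⟩
              · exact ⟨a, subset_rfl, hmono b a hab a.2⟩
          refine ⟨hgood, ?_⟩
          rw [hY]
          exact hstep j (Z j) hgood hZcard
      have hmono : ∀ i j : J, i ≤ j → Y i ⊆ Y j := by
        intro i j hij
        rcases eq_or_lt_of_le hij with rfl | hij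
        · exact subset_rfl
        refine Set.Subset.trans ?_ (Set.subset_union_left.trans (key j).2.1)
        exact Set.subset_iUnion (fun a : Set.Iio j => Y a) ⟨i, hij⟩
      have hZY : ∀ j, Z j ⊆ Y j := fun j => Set.subset_union_left.trans (key j).2.1
      choose W i1 i2 c hc hcsep using fun j => (key j).2.2.2.2
      let cc : (Σₗ j, W j) → G := fun q => c (ofLex q).1 (ofLex q).2
      have hccle : ∀ (q : Σₗ j, W j), cc q ∈ sp B (K ∪ Y (ofLex q).1) := by
        intro q
        have h1 : cc q ∈ gen (c (ofLex q).1) Set.univ :=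
          mem_gen (c (ofLex q).1) (Set.mem_univ (ofLex q).2)
        have h2 : cc q ∈ sp B ((K ∪ Z (ofLex q).1) ∪ Y (ofLex q).1) := by
          rw [← hc]
          exact AddSubgroup.mem_sup_right h1
        refine sp_mono B ?_ h2
        rw [Set.union_assoc]
        exact Set.union_subset_union_right _ (Set.union_subset (hZY _) subset_rfl)
      have hgenle : ∀ (j : J) (V : Set (W j)) (S : Set (Σₗ j, W j)),
          (∀ v ∈ V, (toLex ⟨j, v⟩ : Σₗ j, W j) ∈ S) → gen (c j) V ≤ gen cc S := by
        intro j V S hS
        refine (AddSubgroup.closure_le _).mpr ?_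
        rintro _ ⟨v, hv, rfl⟩
        exact mem_gen cc (hS v hv)
      have hA : ∀ j, sp B K ⊔ gen cc {q | (ofLex q).1 < j} = sp B (K ∪ Z j) := by
        intro j
        induction j using WellFoundedLT.induction with
        | ind j ihj =>
          apply le_antisymm
          · refine sup_le (sp_mono B Set.subset_union_left) ((AddSubgroup.closure_le _).mpr ?_)
            rintro _ ⟨q, hq, rfl⟩
            refine sp_mono B (Set.union_subset_union_right _ ?_) (hccle q)
            exact Set.subset_iUnion (fun a : Set.Iio j => Y a) ⟨(ofLex q).1, hq⟩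
          · rw [sp_union]
            refine sup_le le_sup_left ?_
            rw [sp_iUnion]
            refine iSup_le fun i => ?_
            have h1 : sp B (Y i) ≤ sp B ((K ∪ Z i) ∪ Y i) := sp_mono B Set.subset_union_right
            refine h1.trans ?_
            rw [← hc, ← ihj i i.2]
            refine sup_le (sup_le_sup_left (gen_mono cc ?_) _) (le_sup_of_le_right ?_)
            · intro q hq
              have hq' : (ofLex q).1 < (i : J) := hq
              have hi : (i : J) < j := i.2
              exact lt_trans hq' hi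
            · exact hgenle i _ _ fun v _ => i.2
      refine ⟨⋃ j, Y j, ?_, ?_, ?_, Σₗ j, W j, inferInstance, sigmaLex_wellFoundedLT,
        cc, ?_, ?_⟩
      · intro x hx
        refine Set.mem_iUnion.mpr ⟨e ⟨x, hx⟩, (key _).2.1 (Or.inr ⟨hx, rfl⟩)⟩
      · refine (mk_iUnion_le _).trans (mul_le_of_le hκ0 hJ.le ?_)
        exact ciSup_le' fun j => (key j).2.2.1.trans (hμ j).le
      · refine hTT _ (TClosed.iUnion ?_ fun j => (key j).2.2.2.1)
        intro a b
        exact ⟨max a b, hmono _ _ (le_max_left _ _), hmono _ _ (le_max_right _ _)⟩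
      · apply le_antisymm
        · refine sup_le (sp_mono B Set.subset_union_left) ((AddSubgroup.closure_le _).mpr ?_)
          rintro _ ⟨q, _, rfl⟩
          exact sp_mono B (Set.union_subset_union_right _ (Set.subset_iUnion Y _)) (hccle q)
        · rw [sp_union]
          refine sup_le le_sup_left ?_
          rw [sp_iUnion]
          refine iSup_le fun j => ?_
          have h1 : sp B (Y j) ≤ sp B ((K ∪ Z j) ∪ Y j) := sp_mono B Set.subset_union_right
          refine h1.trans ?_
          rw [← hc, ← hA j]
          exact sup_le (sup_le_sup_left (gen_mono cc (Set.subset_univ _)) _)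
            (le_sup_of_le_right (hgenle j _ _ fun v _ => Set.mem_univ _))
      · intro q
        have h1 : sp B K ⊔ gen cc (Set.Iio q) =
            sp B (K ∪ Z (ofLex q).1) ⊔ gen (c (ofLex q).1) (Set.Iio (ofLex q).2) := by
          rw [← hA]
          apply le_antisymm
          · refine sup_le (le_sup_of_le_left le_sup_left) ((AddSubgroup.closure_le _).mpr ?_)
            rintro _ ⟨r, hr, rfl⟩
            rcases Sigma.Lex.lt_def.mp (show r < q from hr) with h2 | ⟨h2, h3⟩
            · exact AddSubgroup.mem_sup_left (AddSubgroup.mem_sup_right (mem_gen cc h2))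
            · refine AddSubgroup.mem_sup_right ?_
              obtain ⟨i, v⟩ := r
              obtain ⟨j, w⟩ := q
              change i = j at h2
              subst h2
              exact mem_gen (c i) h3
          · rw [sup_assoc]
            refine sup_le_sup_left (sup_le (gen_mono cc ?_) (hgenle _ _ _ ?_)) _
            · intro r hr
              exact Sigma.Lex.lt_def.mpr (Or.inl hr)
            · intro v hv
              exact Sigma.Lex.lt_def.mpr (Or.inr ⟨rfl, hv⟩)
        rw [h1]
        exact hcsep _ _

end Main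

end Pool.Agent.Helper548.Axiom3
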