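import Mathlib
import Pool.Agent.Helper548.Axiom3Defs
import Pool.Agent.Helper548.Axiom3Hill
import Pool.Agent.Helper548.Axiom3Sys
import Pool.Agent.Helper548.Axiom3Twin
import Pool.Agent.Helper548.Axiom3Chain
import Pool.Agent.Helper548.Axiom3Type2

/-!
Under the continuum hypothesis every Butler group of type 2 satisfies Axiom 3 with respect to
separable subgroups.
-/

open Cardinal

namespace Pool.Agent.Helper548.Axiom3

universe u

section FiniteRank
variable {G : Type u} [AddCommGroup G]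

theorem exists_nsmul_mem_closure {V : Type*} [AddCommGroup V] [Module ℚ V] (s : Set V) {v : V}
    (hv : v ∈ Submodule.span ℚ s) : ∃ N : ℕ, N ≠ 0 ∧ N • v ∈ AddSubgroup.closure s := by
  induction hv using Submodule.span_induction with
  | mem x hx => exact ⟨1, one_ne_zero, by rw [one_smul]; exact AddSubgroup.subset_closure hx⟩
  | zero => exact ⟨1, one_ne_zero, by rw [smul_zero]; exact AddSubgroup.zero_mem _⟩
  | add x y _ _ hx hy =>
    obtain ⟨N, hN, hNx⟩ := hx
    obtain ⟨M, hM, hMy⟩ := hy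
    refine ⟨N * M, mul_ne_zero hN hM, ?_⟩
    rw [nsmul_add]
    refine AddSubgroup.add_mem _ ?_ ?_
    · rw [mul_comm, mul_nsmul']
      exact AddSubgroup.nsmul_mem _ hNx M
    · rw [mul_nsmul']
      exact AddSubgroup.nsmul_mem _ hMy N
  | smul q x _ hx =>
    obtain ⟨N, hN, hNx⟩ := hx
    refine ⟨q.den * N, mul_ne_zero q.den_nz hN, ?_⟩
    have h1 : (q.den * N) • (q • x) = q.num • (N • x) := by
      rw [← Nat.cast_smul_eq_nsmul ℚ, ← Int.cast_smul_eq_zsmul ℚ, ← Nat.cast_smul_eq_nsmul ℚ N,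
        smul_smul, smul_smul]
      congr 1
      push_cast
      rw [← Rat.mul_den_eq_num q]
      ring
    rw [h1]
    exact AddSubgroup.zsmul_mem _ hNx _

theorem exists_finset_of_finiteRank {B C : AddSubgroup G} {n : ℕ} (f : B →+ (Fin n → ℚ))
    (hf : Function.Injective f) (hC : C ≤ B) :
    ∃ t : Finset G, (t : Set G) ⊆ C ∧
      ∀ x ∈ C, ∃ N : ℕ, N ≠ 0 ∧ N • x ∈ AddSubgroup.closure (t : Set G) := by
  classical
  set S : Set (Fin n → ℚ) := f '' {b : B | (b : G) ∈ C} with hS
  have hfg : (Submodule.span ℚ S).FG := IsNoetherian.noetherian _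
  obtain ⟨s, hsS, hspan⟩ := (Submodule.fg_span_iff_fg_span_finset_subset S).mp hfg
  have hch : ∀ v : (Fin n → ℚ), ∃ b : B, v ∈ s → (b : G) ∈ C ∧ f b = v := by
    intro v
    by_cases hv : v ∈ s
    · obtain ⟨b, hb, hbv⟩ := hsS hv
      exact ⟨b, fun _ => ⟨hb, hbv⟩⟩
    · exact ⟨0, fun h => absurd h hv⟩
  choose b hb using hch
  refine ⟨s.image (fun v => (b v : G)), ?_, ?_⟩
  · intro x hx
    obtain ⟨v, hv, rfl⟩ := Finset.mem_image.mp (Finset.mem_coe.mp hx)
    exact (hb v hv).1
  · intro x hx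
    have h1 : f ⟨x, hC hx⟩ ∈ Submodule.span ℚ (s : Set (Fin n → ℚ)) := by
      rw [← hspan]
      exact Submodule.subset_span ⟨⟨x, hC hx⟩, hx, rfl⟩
    obtain ⟨N, hN, hNx⟩ := exists_nsmul_mem_closure _ h1
    refine ⟨N, hN, ?_⟩
    have h2 : (s : Set (Fin n → ℚ)) ⊆ f '' {y | (y : G) ∈
        AddSubgroup.closure ((s.image (fun v => (b v : G)) : Finset G) : Set G)} := by
      intro v hv
      refine ⟨b v, AddSubgroup.subset_closure ?_, (hb v hv).2⟩
      exact Finset.mem_coe.mpr (Finset.mem_image_of_mem _ hv)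
    have h3 : AddSubgroup.closure (s : Set (Fin n → ℚ)) ≤ AddSubgroup.map f
        ((AddSubgroup.closure ((s.image (fun v => (b v : G)) : Finset G) : Set G)).comap
          B.subtype) := by
      refine (AddSubgroup.closure_le _).mpr (h2.trans ?_)
      rintro _ ⟨y, hy, rfl⟩
      exact ⟨y, hy, rfl⟩
    obtain ⟨y, hy, hyN⟩ := h3 hNx
    rw [← map_nsmul] at hyN
    have h4 := hf hyN
    have h5 : (y : G) = N • x := by rw [h4]; rfl
    rw [← h5]
    exact hy

theorem IsFiniteRankButler.countable {B : AddSubgroup G} (hB : IsFiniteRankButler B) :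
    (B : Set G).Countable := by
  obtain ⟨n, _, f, hf, _⟩ := hB
  have : Countable B := hf.countable
  exact Set.countable_coe_iff.mp this

end FiniteRank

section Final
variable {G : Type u} [AddCommGroup G]

theorem exists_sys (hG : IsButlerTwo G) :
    ∃ (ι : Type u) (_ : LinearOrder ι) (_ : WellFoundedLT ι) (B : ι → AddSubgroup G)
      (F : ι → Finset ι), Sys B F := by
  classical
  obtain ⟨_, μ, Fc, hF0, hFμ, hFmono, hFpure, hFsucc, hFlim⟩ := hG
  let ι : Type u := μ.ToType
  let o : ι → Ordinal.{u} := fun i => ((Ordinal.ToType.mk (o := μ)).symm i : Set.Iio μ)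
  have ho : ∀ i, o i < μ := fun i => ((Ordinal.ToType.mk (o := μ)).symm i).2
  have hlt : ∀ i j : ι, o i < o j ↔ i < j := fun i j =>
    (Ordinal.ToType.mk (o := μ)).symm.lt_iff_lt
  have hsurj : ∀ α (hα : α < μ), ∃ i : ι, o i = α := fun α hα =>
    ⟨Ordinal.ToType.mk ⟨α, hα⟩, by simp [o]⟩
  have hinj : Function.Injective o := fun i j hij => by
    apply le_antisymm
    · exact not_lt.mp fun h => absurd ((hlt _ _).mpr h) (by rw [hij]; exact lt_irrefl _)
    · exact not_lt.mp fun h => absurd ((hlt _ _).mpr h) (by rw [hij]; exact lt_irrefl _)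
  choose B hB hBF using fun i : ι => hFsucc (o i) (ho i)
  have hsp : ∀ α ≤ μ, Fc α = sp B {i | o i < α} := by
    intro α
    induction α using Ordinal.limitRecOn with
    | zero =>
      intro _
      have : {i | o i < 0} = ∅ := by
        ext i
        simp
      rw [hF0, this, sp_empty]
    | add_one α ihα =>
      intro hα
      have hα' : α < μ := lt_of_lt_of_le (Order.lt_add_one_iff.mpr le_rfl) hα
      obtain ⟨i, hi⟩ := hsurj α hα'
      have h1 : {j | o j < α + 1} = {j | o j < α} ∪ {i} := by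
        ext j
        simp only [Set.mem_ofPred_eq, Set.mem_union, Set.mem_singleton_iff, Order.lt_add_one_iff]
        constructor
        · intro h
          rcases lt_or_eq_of_le h with h | h
          · exact Or.inl h
          · exact Or.inr (hinj (h.trans hi.symm))
        · rintro (h | rfl)
          · exact h.le
          · exact hi.le
      rw [h1, sp_union, sp_singleton, ← ihα hα'.le, ← hi, hBF]
    | limit α hlim ihα =>
      intro hα
      rw [hFlim α hα hlim]
      apply le_antisymm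
      · refine iSup_le fun β => ?_
        rw [ihα β β.2 (le_of_lt (lt_of_lt_of_le β.2 hα))]
        exact sp_mono B fun i (hi : o i < β) => lt_trans hi β.2
      · refine sp_le fun i (hi : o i < α) => ?_
        have h1 : o i + 1 < α := hlim.succ_lt hi
        refine le_trans ?_ (le_iSup (fun β : Set.Iio α => Fc β) ⟨o i + 1, h1⟩)
        rw [ihα _ h1 (le_of_lt (lt_of_lt_of_le h1 hα))]
        exact le_sp B (Order.lt_add_one_iff.mpr le_rfl : o i < o i + 1)
  have hIio : ∀ i : ι, sp B (Set.Iio i) = Fc (o i) := by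
    intro i
    rw [hsp _ (ho i).le]
    congr 1
    ext j
    exact (hlt j i).symm
  have huniv : sp B Set.univ = ⊤ := by
    rw [← hFμ, hsp μ le_rfl]
    congr 1
    ext i
    simp [ho i]
  have hF : ∀ i : ι, ∃ s : Finset ι, (∀ j ∈ s, j < i) ∧ ∀ b ∈ B i, b ∈ sp B (Set.Iio i) →
      ∃ n : ℕ, n ≠ 0 ∧ n • b ∈ sp B (s : Set ι) := by
    intro i
    obtain ⟨n, _, f, hf, _⟩ := hB i
    obtain ⟨t, htC, ht⟩ := exists_finset_of_finiteRank f hf
      (C := B i ⊓ sp B (Set.Iio i)) inf_le_left
    have h1 : ∀ x : G, ∃ s : Finset ι, x ∈ t → (s : Set ι) ⊆ Set.Iio i ∧ x ∈ sp B (s : Set ι) := by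
      intro x
      by_cases hx : x ∈ t
      · obtain ⟨s, hs, hs'⟩ := exists_finset_of_mem_sp B (AddSubgroup.mem_inf.mp (htC hx)).2
        exact ⟨s, fun _ => ⟨hs, hs'⟩⟩
      · exact ⟨∅, fun h => absurd h hx⟩
    choose s hs using h1
    refine ⟨t.biUnion s, ?_, ?_⟩
    · intro j hj
      obtain ⟨x, hx, hjx⟩ := Finset.mem_biUnion.mp hj
      exact (hs x hx).1 hjx
    · intro b hb hb'
      obtain ⟨N, hN, hNb⟩ := ht b (AddSubgroup.mem_inf.mpr ⟨hb, hb'⟩)
      refine ⟨N, hN, ?_⟩
      have h2 : AddSubgroup.closure (t : Set G) ≤ sp B ((t.biUnion s : Finset ι) : Set ι) := by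
        refine (AddSubgroup.closure_le _).mpr fun x hx => ?_
        refine sp_mono B ?_ (hs x hx).2
        intro j hj
        exact Finset.mem_coe.mpr (Finset.mem_biUnion.mpr ⟨x, hx, hj⟩)
      exact h2 hNb
  choose F hFlt hFcov using hF
  exact ⟨ι, inferInstance, inferInstance, B, F, hFlt, fun i => by
    rw [hIio]; exact hFpure _ (ho i).le, huniv, hFcov, fun i => (hB i).countable⟩

/-- Under the continuum hypothesis, every Butler group of type 2 satisfies Axiom 3 with respect to
separable subgroups. -/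
theorem satisfiesAxiom3_of_isButlerTwo (hCH : (𝔠 : Cardinal.{u}) = ℵ_ 1) (hG : IsButlerTwo G) :
    SatisfiesAxiom3 G := by
  obtain ⟨ι, _, _, B, F, h⟩ := exists_sys hG
  obtain ⟨Y, hXY, _, _, W, _, _, c, hc, hsep⟩ := h.exists_ext hCH (max #(Set.univ : Set ι) 𝔠)
    (le_max_right _ _) ∅ (good_empty B F) (fun d => ⋃ i ∈ d, (F i : Set ι))
    (fun d => (le_aleph0_iff_set_countable.mpr (by
      exact d.countable_toSet.biUnion fun i _ => (F i).countable_toSet)).trans aleph0_le_continuum)
    (fun d i hi => Set.subset_biUnion_of_mem (u := fun i => (F i : Set ι)) hi)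
    Set.univ (le_max_left _ _)
  have hY : Y = Set.univ := Set.univ_subset_iff.mp hXY
  have hbot : sp B ∅ = ⊥ := sp_empty B
  rw [hY, Set.union_univ, h.top, hbot, bot_sup_eq] at hc
  refine satisfiesAxiom3_of_wellOrdered c hc fun w => ?_
  have := hsep w
  rwa [hbot, bot_sup_eq] at this

end Final

end Pool.Agent.Helper548.Axiom3
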