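import Mathlib
import Pool.Agent.Helper548.Axiom3Defs
import Pool.Agent.Helper548.Axiom3Hill

/-!
If the continuum hypothesis fails, there is a Butler group (of type 2 and of type 1) of cardinality
`ℵ₂` that does not satisfy Axiom 3 with respect to separable subgroups.
-/

open Cardinal

namespace Pool.Agent.Helper548.Axiom3

universe u

/-! ### Rationals with denominator prime to `p` -/

/-- The rationals whose denominator is prime to `p`. -/
def zloc (p : Nat.Primes) : Subring ℚ where
  carrier := {r | ¬ (p : ℕ) ∣ r.den}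
  zero_mem' := by
    simp only [Set.mem_ofPred_eq, Rat.den_zero]
    exact Nat.Prime.not_dvd_one p.2
  one_mem' := by
    simp only [Set.mem_ofPred_eq, Rat.den_one]
    exact Nat.Prime.not_dvd_one p.2
  add_mem' := by
    intro a b ha hb h
    rcases (Nat.Prime.dvd_mul p.2).mp (h.trans (Rat.add_den_dvd a b)) with h | h
    · exact ha h
    · exact hb h
  mul_mem' := by
    intro a b ha hb h
    rcases (Nat.Prime.dvd_mul p.2).mp (h.trans (Rat.mul_den_dvd a b)) with h | h
    · exact ha h
    · exact hb h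
  neg_mem' := by
    intro a ha
    simpa using ha

theorem mem_zloc {p : Nat.Primes} {r : ℚ} : r ∈ zloc p ↔ ¬ (p : ℕ) ∣ r.den := Iff.rfl

theorem inv_mem_zloc {q : Nat.Primes} {n : ℕ} (hn : 0 < n) (h : ¬ (q : ℕ) ∣ n) :
    ((n : ℚ))⁻¹ ∈ zloc q := by
  rw [mem_zloc, Rat.inv_natCast_den_of_pos hn]
  exact h

theorem inv_pow_mem_zloc {p q : Nat.Primes} (h : p ≠ q) (n : ℕ) :
    (((p : ℕ) : ℚ) ^ n)⁻¹ ∈ zloc q := by
  have := inv_mem_zloc (q := q) (n := (p : ℕ) ^ n) (pow_pos p.2.pos n) (by
    intro hd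
    have h1 := (Nat.prime_dvd_prime_iff_eq q.2 p.2).mp (Nat.Prime.dvd_of_dvd_pow q.2 hd)
    exact h (Subtype.ext h1.symm))
  simpa using this

theorem eq_zero_of_forall_zloc {p : Nat.Primes} {r : ℚ}
    (h : ∀ n : ℕ, ∃ s ∈ zloc p, ((p : ℕ) : ℚ) ^ n * s = r) : r = 0 := by
  by_contra hr
  have hnum : r.num.natAbs ≠ 0 := by
    rw [Ne, Int.natAbs_eq_zero, Rat.num_eq_zero]
    exact hr
  obtain ⟨s, hs, hsr⟩ := h r.num.natAbs
  set n := r.num.natAbs with hn
  have h1 : (r.num : ℤ) * s.den = (p : ℕ) ^ n * s.num * r.den := by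
    have h2 : (r.num : ℚ) / r.den = ((p : ℕ) : ℚ) ^ n * ((s.num : ℚ) / s.den) := by
      rw [Rat.num_div_den, Rat.num_div_den, hsr]
    have h3 : (r.den : ℚ) ≠ 0 := by exact_mod_cast r.den_nz
    have h4 : (s.den : ℚ) ≠ 0 := by exact_mod_cast s.den_nz
    field_simp at h2
    have h5 : ((r.num * s.den : ℤ) : ℚ) = (((p : ℕ) ^ n * s.num * r.den : ℤ) : ℚ) := by
      push_cast
      linarith
    exact_mod_cast h5
  have h2 : ((p : ℕ) : ℤ) ^ n ∣ r.num * s.den := by
    rw [h1, mul_assoc]
    exact dvd_mul_right _ _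
  have h3 : (p : ℕ) ^ n ∣ n * s.den := by
    have := Int.natAbs_dvd_natAbs.mpr h2
    rw [Int.natAbs_mul, Int.natAbs_pow, Int.natAbs_natCast, Int.natAbs_natCast] at this
    exact this
  have h4 : Nat.Coprime ((p : ℕ) ^ n) s.den :=
    Nat.Coprime.pow_left n ((Nat.Prime.coprime_iff_not_dvd p.2).mpr hs)
  have h5 : (p : ℕ) ^ n ∣ n := h4.dvd_of_dvd_mul_right h3
  have h6 := Nat.le_of_dvd (Nat.pos_of_ne_zero hnum) h5
  have h7 : n < (p : ℕ) ^ n := Nat.lt_pow_self p.2.one_lt
  omega

/-! ### An independent family of sets of primes -/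

/-- The prime number `2`. -/
def P2 : Nat.Primes := ⟨2, Nat.prime_two⟩

/-- An injection of `ℕ` into the odd primes. -/
noncomputable def oddPrime (n : ℕ) : Nat.Primes := ⟨Nat.nth Nat.Prime (n + 1), Nat.prime_nth_prime _⟩

theorem oddPrime_injective : Function.Injective oddPrime := by
  intro m n h
  have h1 : Nat.nth Nat.Prime (m + 1) = Nat.nth Nat.Prime (n + 1) := congrArg Subtype.val h
  have := Nat.nth_injective Nat.infinite_setOfPred_prime h1
  omega

theorem oddPrime_ne_two (n : ℕ) : oddPrime n ≠ P2 := by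
  intro h
  have h1 : Nat.nth Nat.Prime (n + 1) = 2 := congrArg Subtype.val h
  have h2 : Nat.nth Nat.Prime 0 < Nat.nth Nat.Prime (n + 1) :=
    Nat.nth_strictMono Nat.infinite_setOfPred_prime (Nat.succ_pos n)
  have h3 := (Nat.prime_nth_prime 0).two_le
  omega

open Classical in
/-- The trace of `A` below `n`. -/
noncomputable def trace (n : ℕ) (A : Set ℕ) : Finset ℕ := (Finset.range n).filter (· ∈ A)

/-- The set of odd primes attached to the set `A` of natural numbers. -/
def primesOf (A : Set ℕ) : Set Nat.Primes :=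
  {p | ∃ (n : ℕ) (s : Finset (Finset ℕ)), p = oddPrime (Encodable.encode (n, s)) ∧ trace n A ∈ s}

theorem exists_prime_separating {A B C : Set ℕ} (hA : C ≠ A) (hB : C ≠ B) :
    ∃ p : Nat.Primes, p ≠ P2 ∧ p ∈ primesOf A ∧ p ∈ primesOf B ∧ p ∉ primesOf C := by
  classical
  have key : ∀ D : Set ℕ, C ≠ D → ∃ N, ∀ n, N ≤ n → trace n C ≠ trace n D := by
    intro D hD
    have : ∃ k, ¬ (k ∈ C ↔ k ∈ D) := by
      by_contra hc
      push Not at hc
      exact hD (Set.ext hc)
    obtain ⟨k, hk⟩ := this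
    refine ⟨k + 1, fun n hn he => hk ?_⟩
    have h1 : k ∈ trace n C ↔ k ∈ trace n D := by rw [he]
    simp only [trace, Finset.mem_filter, Finset.mem_range] at h1
    have hkn : k < n := by omega
    simpa [hkn] using h1
  obtain ⟨N₁, hN₁⟩ := key A hA
  obtain ⟨N₂, hN₂⟩ := key B hB
  set n := max N₁ N₂
  refine ⟨oddPrime (Encodable.encode (n, ({trace n A, trace n B} : Finset (Finset ℕ)))),
    oddPrime_ne_two _, ⟨n, _, rfl, by simp⟩, ⟨n, _, rfl, by simp⟩, ?_⟩
  rintro ⟨m, s, hms, hs⟩
  have h1 := Encodable.encode_injective (oddPrime_injective hms)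
  obtain ⟨rfl, rfl⟩ := Prod.mk.inj h1
  rcases Finset.mem_insert.mp hs with h | h
  · exact hN₁ n (le_max_left _ _) h
  · exact hN₂ n (le_max_right _ _) (Finset.mem_singleton.mp h)

/-! ### The group -/

section Group

variable {I : Type u} (X : I → Set Nat.Primes)

/-- The ambient rational vector space, with basis `x i` (`i ∈ I`) and `h`. -/
abbrev Amb (I : Type u) : Type u := (I →₀ ℚ) × ℚ

/-- The sum of all coordinates. -/
noncomputable def total : Amb I →ₗ[ℚ] ℚ :=
  (Finsupp.lsum ℚ (fun _ : I => (LinearMap.id : ℚ →ₗ[ℚ] ℚ))).comp (LinearMap.fst ℚ _ _) +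
    LinearMap.snd ℚ _ _

/-- The coordinate functionals. -/
noncomputable def coord (i : I) : Amb I →ₗ[ℚ] ℚ :=
  (Finsupp.lapply i).comp (LinearMap.fst ℚ _ _)

/-- The last coordinate. -/
noncomputable def last : Amb I →ₗ[ℚ] ℚ := LinearMap.snd ℚ _ _

/-- The integrality conditions at the prime `p`. -/
def conds (p : Nat.Primes) : Set (Amb I →ₗ[ℚ] ℚ) :=
  {f | (p = P2 ∧ f = total) ∨ (p ≠ P2 ∧ (f = last ∨ ∃ i, p ∉ X i ∧ f = coord i))}

/-- The group: all vectors satisfying the integrality conditions. -/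
noncomputable def grp : AddSubgroup (Amb I) where
  carrier := {v | ∀ p, ∀ f ∈ conds X p, f v ∈ zloc p}
  zero_mem' := by
    intro p f _
    rw [map_zero]
    exact (zloc p).zero_mem
  add_mem' := by
    intro a b ha hb p f hf
    rw [map_add]
    exact (zloc p).add_mem (ha p f hf) (hb p f hf)
  neg_mem' := by
    intro a ha p f hf
    rw [map_neg]
    exact (zloc p).neg_mem (ha p f hf)

theorem mem_grp_iff {v : Amb I} : v ∈ grp X ↔
    total v ∈ zloc P2 ∧ (∀ p, p ≠ P2 → last v ∈ zloc p) ∧
      ∀ p, p ≠ P2 → ∀ i, p ∉ X i → coord i v ∈ zloc p := by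
  constructor
  · intro h
    refine ⟨h P2 _ (Or.inl ⟨rfl, rfl⟩), fun p hp => h p _ (Or.inr ⟨hp, Or.inl rfl⟩),
      fun p hp i hi => h p _ (Or.inr ⟨hp, Or.inr ⟨i, hi, rfl⟩⟩)⟩
  · rintro ⟨h1, h2, h3⟩ p f (⟨rfl, rfl⟩ | ⟨hp, rfl | ⟨i, hi, rfl⟩⟩)
    · exact h1
    · exact h2 p hp
    · exact h3 p hp i hi

theorem height_eq_top_iff (v : grp X) (p : Nat.Primes) :
    height p v = ⊤ ↔ ∀ f ∈ conds X p, f (v : Amb I) = 0 := by
  have hp0 : ((p : ℕ) : ℚ) ≠ 0 := by exact_mod_cast p.2.ne_zero
  constructor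
  · intro h f hf
    refine eq_zero_of_forall_zloc (p := p) fun n => ?_
    have h1 : (n : ℕ∞) ≤ height p v := by rw [h]; exact le_top
    rw [natCast_le_height] at h1
    obtain ⟨y, hyv⟩ := h1
    refine ⟨f y, y.2 p f hf, ?_⟩
    rw [← hyv]
    simp
  · intro h
    rw [← top_le_iff, ← ENat.forall_natCast_le_iff_le]
    intro n _
    rw [natCast_le_height]
    refine ⟨⟨(((p : ℕ) : ℚ) ^ n)⁻¹ • (v : Amb I), ?_⟩, ?_⟩
    · intro q f hf
      rw [map_smul, smul_eq_mul]
      by_cases hpq : p = q
      · subst hpq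
        rw [h f hf, mul_zero]
        exact (zloc p).zero_mem
      · exact (zloc q).mul_mem (inv_pow_mem_zloc hpq n) (v.2 q f hf)
    · apply Subtype.ext
      change (p : ℕ) ^ n • ((((p : ℕ) : ℚ) ^ n)⁻¹ • (v : Amb I)) = v
      rw [← Nat.cast_smul_eq_nsmul ℚ, smul_smul]
      have : ((((p : ℕ) ^ n : ℕ) : ℚ)) * (((p : ℕ) : ℚ) ^ n)⁻¹ = 1 := by
        push_cast
        exact mul_inv_cancel₀ (pow_ne_zero n hp0)
      rw [this, one_smul]

theorem total_apply (v : Amb I) : total v = v.1.sum (fun _ r => r) + v.2 := by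
  simp [total, Finsupp.sum]

theorem coord_apply (i : I) (v : Amb I) : coord i v = v.1 i := by
  simp [coord]

theorem last_apply (v : Amb I) : last v = v.2 := rfl

theorem total_single (i : I) (r s : ℚ) :
    total ((Finsupp.single i r, s) : Amb I) = r + s := by
  rw [total_apply]
  simp

theorem intCast_mem_zloc (p : Nat.Primes) (z : ℤ) : (z : ℚ) ∈ zloc p := intCast_mem _ z

/-- The element `x i` of the group. -/
noncomputable def xx (i : I) : grp X := ⟨(Finsupp.single i 1, 0), by
  classical
  rw [mem_grp_iff]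
  refine ⟨?_, ?_, ?_⟩
  · rw [total_single]
    simp
  · intro p _
    simp [last_apply]
  · intro p _ j _
    rw [coord_apply]
    simp only [Finsupp.single_apply]
    split_ifs
    · exact one_mem _
    · exact zero_mem _⟩

theorem xx_coe (i : I) : ((xx X i : grp X) : Amb I) = (Finsupp.single i 1, 0) := rfl

/-- The main obstruction: no countable set dominates the coset of `x j`. -/
theorem not_isSeparable (hX : ∀ i j k : I, k ≠ i → k ≠ j →
      ∃ p : Nat.Primes, p ≠ P2 ∧ p ∈ X i ∧ p ∈ X j ∧ p ∉ X k)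
    (M : AddSubgroup (grp X)) (hM : ¬ {i | xx X i ∈ M}.Countable) (j : I)
    (hj : ∀ m ∈ M, coord j (m : Amb I) = 0) : ¬ IsSeparable M := by
  classical
  intro hsep
  obtain ⟨h, hh, hdom⟩ := hsep (xx X j)
  apply hM
  have hsub : {i | xx X i ∈ M} ⊆ ⋃ n, (((h n : grp X) : Amb I).1.support : Set I) := by
    intro i hi
    have hij : i ≠ j := by
      rintro rfl
      have := hj _ hi
      rw [coord_apply, xx_coe] at this
      simp at this
    obtain ⟨n, hn⟩ := hdom (-xx X i) (M.neg_mem hi)
    refine Set.mem_iUnion.mpr ⟨n, ?_⟩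
    by_contra hi'
    have hi0 : coord i ((h n : grp X) : Amb I) = 0 := by
      rw [coord_apply]
      exact Finsupp.notMem_support_iff.mp hi'
    have hjn : coord j ((h n : grp X) : Amb I) = 0 := hj _ (hh n)
    -- the height at `2`
    have h2 : height P2 (xx X j + -xx X i) = ⊤ := by
      rw [height_eq_top_iff]
      rintro f (⟨_, rfl⟩ | ⟨hp, _⟩)
      · change total (((xx X j : grp X) : Amb I) + -((xx X i : grp X) : Amb I)) = 0
        rw [map_add, map_neg, xx_coe, xx_coe, total_single, total_single]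
        ring
      · exact absurd rfl hp
    have h2' : height P2 (xx X j + h n) = ⊤ := top_le_iff.mp (h2 ▸ hn P2)
    rw [height_eq_top_iff] at h2'
    have e1 : total ((h n : grp X) : Amb I) = -1 := by
      have := h2' total (Or.inl ⟨rfl, rfl⟩)
      change total (((xx X j : grp X) : Amb I) + ((h n : grp X) : Amb I)) = 0 at this
      rw [map_add, xx_coe, total_single] at this
      linarith
    -- the heights at primes in `X i ∩ X j`
    have hp : ∀ p : Nat.Primes, p ≠ P2 → p ∈ X i → p ∈ X j →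
        last ((h n : grp X) : Amb I) = 0 ∧
          ∀ k, p ∉ X k → coord k ((h n : grp X) : Amb I) = 0 := by
      intro p hp2 hpi hpj
      have h3 : height p (xx X j + -xx X i) = ⊤ := by
        rw [height_eq_top_iff]
        rintro f (⟨hp', _⟩ | ⟨_, rfl | ⟨k, hk, rfl⟩⟩)
        · exact absurd hp' hp2
        · change last (((xx X j : grp X) : Amb I) + -((xx X i : grp X) : Amb I)) = 0
          rw [map_add, map_neg, xx_coe, xx_coe, last_apply, last_apply]
          simp
        · have hki : i ≠ k := by rintro rfl; exact hk hpi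
          have hkj : j ≠ k := by rintro rfl; exact hk hpj
          change coord k (((xx X j : grp X) : Amb I) + -((xx X i : grp X) : Amb I)) = 0
          rw [map_add, map_neg, xx_coe, xx_coe, coord_apply, coord_apply]
          simp [hki, hkj]
      have h3' : height p (xx X j + h n) = ⊤ := top_le_iff.mp (h3 ▸ hn p)
      rw [height_eq_top_iff] at h3'
      constructor
      · have := h3' last (Or.inr ⟨hp2, Or.inl rfl⟩)
        change last (((xx X j : grp X) : Amb I) + ((h n : grp X) : Amb I)) = 0 at this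
        rw [map_add, xx_coe, last_apply] at this
        simpa using this
      · intro k hk
        have hkj : j ≠ k := by rintro rfl; exact hk hpj
        have := h3' (coord k) (Or.inr ⟨hp2, Or.inr ⟨k, hk, rfl⟩⟩)
        change coord k (((xx X j : grp X) : Amb I) + ((h n : grp X) : Amb I)) = 0 at this
        rw [map_add, xx_coe, coord_apply] at this
        simpa [Finsupp.single_apply, hkj] using this
    -- all coordinates vanish
    have hall : ∀ k, coord k ((h n : grp X) : Amb I) = 0 := by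
      intro k
      by_cases hki : k = i
      · rw [hki]; exact hi0
      by_cases hkj : k = j
      · rw [hkj]; exact hjn
      obtain ⟨p, hp2, hpi, hpj, hpk⟩ := hX i j k hki hkj
      exact (hp p hp2 hpi hpj).2 k hpk
    obtain ⟨k, hki, hkj⟩ : ∃ k : I, k ≠ i ∧ k ≠ j := by
      by_contra hc
      push Not at hc
      apply hM
      refine ((Set.countable_singleton i).union (Set.countable_singleton j)).mono ?_
      intro k _
      by_cases hk : k = i
      · exact Or.inl hk
      · exact Or.inr (hc k hk)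
    obtain ⟨p, hp2, hpi, hpj, _⟩ := hX i j k hki hkj
    have hlast := (hp p hp2 hpi hpj).1
    have hzero : ((h n : grp X) : Amb I).1 = 0 := by
      ext k
      have := hall k
      rw [coord_apply] at this
      simpa using this
    rw [total_apply, hzero] at e1
    rw [last_apply] at hlast
    rw [hlast] at e1
    simp at e1
  exact (Set.countable_iUnion fun n => Finset.countable_toSet _).mono hsub

/-- The group does not satisfy Axiom 3 when `I` has at least `ℵ₂` elements. -/
theorem not_satisfiesAxiom3 (hX : ∀ i j k : I, k ≠ i → k ≠ j →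
      ∃ p : Nat.Primes, p ≠ P2 ∧ p ∈ X i ∧ p ∈ X j ∧ p ∉ X k)
    (hI : ℵ_ 2 ≤ #I) : ¬ SatisfiesAxiom3 (grp X) := by
  classical
  rintro ⟨𝒞, hsep, _, hsum, hcount⟩
  have h12 : (ℵ_ 1 : Cardinal.{u}) < ℵ_ 2 := aleph_lt_aleph.mpr (by norm_num)
  obtain ⟨J₀, hJ₀⟩ := le_mk_iff_exists_set.mp (h12.le.trans hI)
  have hchoose : ∀ i : I, ∃ H ∈ 𝒞, xx X i ∈ H ∧ (H : Set (grp X)).Countable := by
    intro i
    obtain ⟨H, hH, hle, hc⟩ := hcount (AddSubgroup.closure {xx X i})
      (countable_closure (Set.countable_singleton _))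
    exact ⟨H, hH, hle (AddSubgroup.subset_closure rfl), hc⟩
  choose H hH hxH hHc using hchoose
  set M : AddSubgroup (grp X) := sSup (H '' J₀) with hMdef
  have hM𝒞 : M ∈ 𝒞 := hsum _ (by rintro _ ⟨i, _, rfl⟩; exact hH i)
  have hxM : ∀ i ∈ J₀, xx X i ∈ M := fun i hi =>
    (le_sSup (Set.mem_image_of_mem H hi)) (hxH i)
  -- the set of indices occurring in `M`
  set S : Set I := ⋃ i ∈ J₀, ⋃ m ∈ (H i : Set (grp X)), ((m : Amb I).1.support : Set I) with hS
  have hSM : ∀ m ∈ M, ∀ j, j ∉ S → coord j (m : Amb I) = 0 := by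
    intro m hm j hj
    let Z : AddSubgroup (grp X) :=
      { carrier := {m | coord j (m : Amb I) = 0}
        zero_mem' := by
          change coord j ((0 : grp X) : Amb I) = 0
          simp
        add_mem' := by
          intro a b (ha : coord j (a : Amb I) = 0) (hb : coord j (b : Amb I) = 0)
          change coord j ((a : Amb I) + (b : Amb I)) = 0
          rw [map_add, ha, hb, add_zero]
        neg_mem' := by
          intro a (ha : coord j (a : Amb I) = 0)
          change coord j (-(a : Amb I)) = 0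
          rw [map_neg, ha, neg_zero] }
    have hle : M ≤ Z := by
      refine sSup_le ?_
      rintro _ ⟨i, hi, rfl⟩ a ha
      change coord j (a : Amb I) = 0
      rw [coord_apply]
      by_contra hne
      exact hj (Set.mem_biUnion hi (Set.mem_biUnion (show a ∈ (H i : Set (grp X)) from ha)
        (Finsupp.mem_support_iff.mpr hne)))
    exact hle hm
  have hScard : #S ≤ ℵ_ 1 := by
    refine (mk_biUnion_le _ _).trans ?_
    rw [hJ₀]
    have h1 : ∀ i : J₀, #(⋃ m ∈ (H i : Set (grp X)), ((m : Amb I).1.support : Set I) : Set I)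
        ≤ ℵ₀ := by
      intro i
      rw [le_aleph0_iff_set_countable]
      exact (hHc i).biUnion fun m _ => Finset.countable_toSet _
    have h2 : (⨆ i : J₀, #(⋃ m ∈ (H i : Set (grp X)), ((m : Amb I).1.support : Set I) : Set I))
        ≤ ℵ₀ := by
      rcases isEmpty_or_nonempty J₀ with hE | hE
      · rw [ciSup_of_empty]
        exact bot_le
      · exact ciSup_le h1
    calc ℵ_ 1 * _ ≤ ℵ_ 1 * ℵ₀ := mul_le_mul_right h2 _
      _ = ℵ_ 1 := mul_aleph0_eq (aleph0_le_aleph 1)
  obtain ⟨j, hj⟩ : ∃ j : I, j ∉ S := by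
    by_contra hc
    push Not at hc
    have : S = Set.univ := Set.eq_univ_of_forall hc
    rw [this, mk_univ] at hScard
    exact absurd (hI.trans hScard) (not_le_of_gt h12)
  refine not_isSeparable X hX M ?_ j (fun m hm => hSM m hm j hj) (hsep M hM𝒞)
  intro hc
  have h1 : J₀.Countable := hc.mono fun i hi => hxM i hi
  rw [← le_aleph0_iff_set_countable, hJ₀] at h1
  exact absurd h1 (not_le_of_gt aleph0_lt_aleph_one)

/-! ### The group is a Butler group of type 2 -/

theorem ext_amb {v w : Amb I} (h1 : ∀ i, coord i v = coord i w) (h2 : last v = last w) :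
    v = w := by
  refine Prod.ext ?_ h2
  ext i
  have := h1 i
  rwa [coord_apply, coord_apply] at this

theorem grp_torsionFree (n : ℕ) (x : grp X) (hn : n ≠ 0) (h : n • x = 0) : x = 0 := by
  apply Subtype.ext
  have h1 : n • (x : Amb I) = 0 := congrArg Subtype.val h
  rw [← Nat.cast_smul_eq_nsmul ℚ] at h1
  rcases smul_eq_zero.mp h1 with h2 | h2
  · exact absurd (by exact_mod_cast h2) hn
  · exact h2

/-- Partial fractions at the prime `2`. -/
theorem exists_two_part (q : ℚ) : ∃ a : ℚ, q + a ∈ zloc P2 ∧ ∀ p, p ≠ P2 → a ∈ zloc p := by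
  set k := q.den.factorization 2 with hk
  set m := ordCompl[2] q.den with hm
  have h1 : 2 ^ k * m = q.den := Nat.ordProj_mul_ordCompl_eq_self q.den 2
  have hm0 : 0 < m := Nat.ordCompl_pos 2 q.den_nz
  have hm2 : ¬ 2 ∣ m := Nat.not_dvd_ordCompl Nat.prime_two q.den_nz
  have hcop : IsCoprime ((2 : ℤ) ^ k) (m : ℤ) := by
    have : Nat.Coprime (2 ^ k) m :=
      Nat.Coprime.pow_left k ((Nat.Prime.coprime_iff_not_dvd Nat.prime_two).mpr hm2)
    have h2 := Nat.isCoprime_iff_coprime.mpr this
    push_cast at h2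
    exact h2
  obtain ⟨s, t, hst⟩ := hcop
  have h2k : (2 : ℚ) ^ k ≠ 0 := by positivity
  have hmq : (m : ℚ) ≠ 0 := by exact_mod_cast hm0.ne'
  obtain ⟨N, hq⟩ : ∃ N : ℤ, q * ((2 : ℚ) ^ k * m) = N := by
    refine ⟨q.num, ?_⟩
    have : (q.den : ℚ) = (2 : ℚ) ^ k * m := by
      rw [← h1]
      push_cast
      ring
    rw [← this]
    exact Rat.mul_den_eq_num q
  refine ⟨-(N * t : ℤ) * ((2 : ℚ) ^ k)⁻¹, ?_, ?_⟩
  · have h3 : q + -(N * t : ℤ) * ((2 : ℚ) ^ k)⁻¹ = ((N * s : ℤ) : ℚ) * ((m : ℚ))⁻¹ := by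
      have h4 : (s : ℚ) * 2 ^ k + t * m = 1 := by exact_mod_cast hst
      push_cast
      field_simp
      linear_combination hq - (N : ℚ) * h4
    rw [h3]
    exact (zloc P2).mul_mem (intCast_mem_zloc _ _) (inv_mem_zloc hm0 hm2)
  · intro p hp
    have h6 := inv_pow_mem_zloc (p := P2) (q := p) (Ne.symm hp) k
    have h7 : (((P2 : ℕ) : ℚ) ^ k)⁻¹ = ((2 : ℚ) ^ k)⁻¹ := by
      simp [P2]
    rw [h7] at h6
    exact (zloc p).mul_mem ((zloc p).neg_mem (intCast_mem_zloc _ _)) h6

/-- The pure subgroup generated by `h` and `x i`. -/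
noncomputable def blk (i : I) : AddSubgroup (grp X) where
  carrier := {v | ∀ k, k ≠ i → coord k (v : Amb I) = 0}
  zero_mem' := by
    intro k _
    change coord k ((0 : grp X) : Amb I) = 0
    simp
  add_mem' := by
    intro a b ha hb k hk
    change coord k ((a : Amb I) + (b : Amb I)) = 0
    rw [map_add, ha k hk, hb k hk, add_zero]
  neg_mem' := by
    intro a ha k hk
    change coord k (-(a : Amb I)) = 0
    rw [map_neg, ha k hk, neg_zero]

theorem isFiniteRankButler_blk (i : I) : IsFiniteRankButler (blk X i) := by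
  refine ⟨3, ![⨅ p : {p : Nat.Primes // p ≠ P2}, (zloc p).toAddSubgroup,
      ⨅ p : {p : Nat.Primes // p ≠ P2 ∧ p ∉ X i}, (zloc p).toAddSubgroup,
      (zloc P2).toAddSubgroup],
    { toFun := fun v => ![last ((v : grp X) : Amb I), coord i ((v : grp X) : Amb I),
        total ((v : grp X) : Amb I)]
      map_zero' := by
        ext j
        fin_cases j <;> simp
      map_add' := fun u v => by
        ext j
        fin_cases j <;> simp }, ?_, ?_, ?_⟩
  · rw [injective_iff_map_eq_zero]
    intro v hv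
    apply Subtype.ext
    apply Subtype.ext
    refine ext_amb (fun k => ?_) ?_
    · by_cases hk : k = i
      · rw [hk]
        have h1 := congrFun hv 1
        simpa using h1
      · rw [v.2 k hk]
        simp
    · have h1 := congrFun hv 0
      simpa using h1
  · intro v j
    have hv := (mem_grp_iff X).mp (v : grp X).2
    fin_cases j
    · change last ((v : grp X) : Amb I) ∈ ⨅ p : {p : Nat.Primes // p ≠ P2}, (zloc p).toAddSubgroup
      rw [AddSubgroup.mem_iInf]
      exact fun p => hv.2.1 p p.2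
    · change coord i ((v : grp X) : Amb I) ∈
        ⨅ p : {p : Nat.Primes // p ≠ P2 ∧ p ∉ X i}, (zloc p).toAddSubgroup
      rw [AddSubgroup.mem_iInf]
      exact fun p => hv.2.2 p p.2.1 i p.2.2
    · exact hv.1
  · rintro k x hk hx ⟨v, hv⟩
    have hk' : (k : ℚ) ≠ 0 := by exact_mod_cast hk
    have hx0 : ∀ p, p ≠ P2 → x 0 ∈ zloc p := by
      have h0 : x 0 ∈ ⨅ p : {p : Nat.Primes // p ≠ P2}, (zloc p).toAddSubgroup := hx 0
      rw [AddSubgroup.mem_iInf] at h0
      exact fun p hp => h0 ⟨p, hp⟩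
    have hx1 : ∀ p, p ≠ P2 → p ∉ X i → x 1 ∈ zloc p := by
      have h0 : x 1 ∈ ⨅ p : {p : Nat.Primes // p ≠ P2 ∧ p ∉ X i}, (zloc p).toAddSubgroup := hx 1
      rw [AddSubgroup.mem_iInf] at h0
      exact fun p hp hp' => h0 ⟨p, hp, hp'⟩
    have hx2 : x 2 ∈ zloc P2 := hx 2
    have e0 : last ((v : grp X) : Amb I) = k * x 0 := by
      have h1 := congrFun hv 0
      simpa using h1
    have e1 : coord i ((v : grp X) : Amb I) = k * x 1 := by
      have h1 := congrFun hv 1
      simpa using h1
    have e2 : total ((v : grp X) : Amb I) = k * x 2 := by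
      have h1 := congrFun hv 2
      simpa using h1
    have f0 : last ((k : ℚ)⁻¹ • ((v : grp X) : Amb I)) = x 0 := by
      rw [map_smul, e0, smul_eq_mul, ← mul_assoc, inv_mul_cancel₀ hk', one_mul]
    have f1 : coord i ((k : ℚ)⁻¹ • ((v : grp X) : Amb I)) = x 1 := by
      rw [map_smul, e1, smul_eq_mul, ← mul_assoc, inv_mul_cancel₀ hk', one_mul]
    have f2 : total ((k : ℚ)⁻¹ • ((v : grp X) : Amb I)) = x 2 := by
      rw [map_smul, e2, smul_eq_mul, ← mul_assoc, inv_mul_cancel₀ hk', one_mul]
    have f3 : ∀ j, j ≠ i → coord j ((k : ℚ)⁻¹ • ((v : grp X) : Amb I)) = 0 := by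
      intro j hj
      rw [map_smul, v.2 j hj, smul_zero]
    have hmem : (k : ℚ)⁻¹ • ((v : grp X) : Amb I) ∈ grp X := by
      rw [mem_grp_iff]
      refine ⟨by rw [f2]; exact hx2, fun p hp => by rw [f0]; exact hx0 p hp, ?_⟩
      intro p hp j hj
      by_cases hji : j = i
      · subst hji
        rw [f1]
        exact hx1 p hp hj
      · rw [f3 j hji]
        exact (zloc p).zero_mem
    refine ⟨⟨⟨_, hmem⟩, f3⟩, ?_⟩
    ext j
    fin_cases j
    · exact f0
    · exact f1
    · exact f2

/-- The members of the chain. -/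
noncomputable def chain (ρ : I → Ordinal.{u}) (α : Ordinal.{u}) : AddSubgroup (grp X) where
  carrier := {v | (∀ i, ¬ ρ i < α → coord i (v : Amb I) = 0) ∧ (α = 0 → last (v : Amb I) = 0)}
  zero_mem' := by
    refine ⟨fun i _ => ?_, fun _ => ?_⟩
    · change coord i ((0 : grp X) : Amb I) = 0
      simp
    · change last ((0 : grp X) : Amb I) = 0
      simp
  add_mem' := by
    rintro a b ⟨ha, ha'⟩ ⟨hb, hb'⟩
    refine ⟨fun i hi => ?_, fun h0 => ?_⟩
    · change coord i ((a : Amb I) + (b : Amb I)) = 0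
      rw [map_add, ha i hi, hb i hi, add_zero]
    · change last ((a : Amb I) + (b : Amb I)) = 0
      rw [map_add, ha' h0, hb' h0, add_zero]
  neg_mem' := by
    rintro a ⟨ha, ha'⟩
    refine ⟨fun i hi => ?_, fun h0 => ?_⟩
    · change coord i (-(a : Amb I)) = 0
      rw [map_neg, ha i hi, neg_zero]
    · change last (-(a : Amb I)) = 0
      rw [map_neg, ha' h0, neg_zero]

theorem isButlerTwo_grp [Nonempty I] : IsButlerTwo (grp X) := by
  classical
  refine ⟨grp_torsionFree X, ?_⟩
  let r : I → I → Prop := WellOrderingRel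
  let μ : Ordinal.{u} := Ordinal.type r
  let ρ : I → Ordinal.{u} := fun i => Ordinal.typein r i
  have hρ : ∀ i, ρ i < μ := fun i => Ordinal.typein_lt_type r i
  have hρinj : Function.Injective ρ := Ordinal.typein_injective r
  have hρsurj : ∀ α < μ, ∃ i, ρ i = α := fun α hα => Ordinal.typein_surj r hα
  have hμ0 : μ ≠ 0 := by
    obtain ⟨i⟩ := (inferInstance : Nonempty I)
    exact ne_of_gt (lt_of_le_of_lt zero_le (hρ i))
  have hmono : ∀ α β, α ≤ β → chain X ρ α ≤ chain X ρ β := by
    rintro α β hαβ v ⟨h1, h2⟩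
    refine ⟨fun i hi => h1 i fun h => hi (h.trans_le hαβ), fun h0 => h2 ?_⟩
    exact le_antisymm (h0 ▸ hαβ) zero_le
  refine ⟨μ, chain X ρ, ?_, ?_, fun α β h _ => hmono α β h, ?_, ?_, ?_⟩
  · rw [eq_bot_iff]
    rintro v ⟨h1, h2⟩
    rw [AddSubgroup.mem_bot]
    apply Subtype.ext
    refine ext_amb (fun k => ?_) ?_
    · rw [h1 k (not_lt_of_ge zero_le)]
      simp
    · rw [h2 rfl]
      simp
  · rw [eq_top_iff]
    rintro v _
    exact ⟨fun i hi => absurd (hρ i) hi, fun h0 => absurd h0 hμ0⟩
  · rintro α _ n x hn ⟨h1, h2⟩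
    have hn' : (n : ℚ) ≠ 0 := by exact_mod_cast hn
    refine ⟨fun i hi => ?_, fun h0 => ?_⟩
    · have h3 : coord i (n • (x : Amb I)) = 0 := h1 i hi
      rw [← Nat.cast_smul_eq_nsmul ℚ, map_smul, smul_eq_mul] at h3
      exact (mul_eq_zero.mp h3).resolve_left hn'
    · have h3 : last (n • (x : Amb I)) = 0 := h2 h0
      rw [← Nat.cast_smul_eq_nsmul ℚ, map_smul, smul_eq_mul] at h3
      exact (mul_eq_zero.mp h3).resolve_left hn'
  · intro α hα
    obtain ⟨i, hi⟩ := hρsurj α hα
    refine ⟨blk X i, isFiniteRankButler_blk X i, ?_⟩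
    apply le_antisymm
    · rintro v ⟨h1, _⟩
      by_cases hα0 : α = 0
      · refine AddSubgroup.mem_sup_right fun k hk => h1 k fun hlt => hk ?_
        rw [hα0, zero_add, Order.lt_one_iff] at hlt
        exact hρinj (hlt.trans (hα0 ▸ hi).symm)
      · obtain ⟨a, ha, ha'⟩ := exists_two_part (coord i (v : Amb I))
        have hv := (mem_grp_iff X).mp v.2
        have hb : ((Finsupp.single i (coord i (v : Amb I)), a) : Amb I) ∈ grp X := by
          rw [mem_grp_iff]
          refine ⟨by rw [total_single]; exact ha, fun p hp => ha' p hp, ?_⟩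
          intro p hp j hj
          rw [coord_apply]
          by_cases hji : j = i
          · subst hji
            simpa using hv.2.2 p hp j hj
          · simp [hji]
        have h3 : v = (v - ⟨_, hb⟩) + ⟨_, hb⟩ := by abel
        rw [h3]
        refine AddSubgroup.add_mem_sup ⟨fun k hk => ?_, fun h0 => absurd h0 hα0⟩ ?_
        · change coord k ((v : Amb I) - (Finsupp.single i (coord i (v : Amb I)), a)) = 0
          rw [map_sub]
          by_cases hki : k = i
          · subst hki
            rw [coord_apply, coord_apply]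
            simp
          · have h4 : coord k (v : Amb I) = 0 := by
              apply h1
              intro h5
              rcases lt_or_eq_of_le (Order.lt_add_one_iff.mp h5) with h6 | h6
              · exact hk h6
              · exact hki (hρinj (h6.trans hi.symm))
            rw [h4, coord_apply]
            simp [hki]
        · intro k hk
          change coord k ((Finsupp.single i (coord i (v : Amb I)), a) : Amb I) = 0
          rw [coord_apply]
          simp [hk]
    · refine sup_le (hmono _ _ (Order.le_succ α |>.trans (le_of_eq (Order.succ_eq_add_one α)))) ?_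
      intro v hv
      refine ⟨fun k hk => hv k ?_, fun h0 => ?_⟩
      · rintro rfl
        exact hk (by rw [hi]; exact Order.lt_add_one_iff.mpr le_rfl)
      · exact absurd h0 (by simp)
  · intro α _ hlim
    apply le_antisymm
    · intro v hv
      have h0α : (0 : Ordinal.{u}) < α := by
        rcases eq_or_ne α 0 with h | h
        · exact absurd (h ▸ hlim.not_isMin) (by simp)
        · exact lt_of_le_of_ne zero_le (Ne.symm h)
      have hs : ∀ s : Finset I, (∀ i ∈ s, ρ i < α) → ∃ β < α, β ≠ 0 ∧ ∀ i ∈ s, ρ i < β := by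
        intro s
        induction s using Finset.induction_on with
        | empty =>
          intro _
          exact ⟨1, by simpa using hlim.succ_lt h0α, one_ne_zero, by simp⟩
        | insert a s _ ih =>
          intro h
          obtain ⟨β, hβ, hβ0, hβs⟩ := ih fun i hi => h i (Finset.mem_insert_of_mem hi)
          have h4 := hlim.succ_lt (h a (Finset.mem_insert_self _ _))
          refine ⟨max β (Order.succ (ρ a)), max_lt hβ h4, ?_, ?_⟩
          · exact ne_of_gt (lt_of_lt_of_le (lt_of_le_of_ne zero_le (Ne.symm hβ0))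
              (le_max_left _ _))
          · intro i hi
            rcases Finset.mem_insert.mp hi with rfl | hi
            · exact lt_of_lt_of_le (Order.lt_succ _) (le_max_right _ _)
            · exact lt_of_lt_of_le (hβs i hi) (le_max_left _ _)
      obtain ⟨β, hβ, hβ0, hβs⟩ := hs ((v : Amb I).1.support) (by
        intro i hi
        by_contra hc
        have := hv.1 i hc
        rw [coord_apply] at this
        exact (Finsupp.mem_support_iff.mp hi) this)
      refine (le_iSup (fun β : Set.Iio α => chain X ρ β) ⟨β, hβ⟩) ⟨fun i hi => ?_,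
        fun h0 => absurd h0 hβ0⟩
      rw [coord_apply]
      by_contra hne
      exact hi (hβs i (Finsupp.mem_support_iff.mpr hne))
    · exact iSup_le fun β => hmono _ _ (le_of_lt β.2)

theorem mk_grp_le (hI : #I = ℵ_ 2) : #(grp X) ≤ ℵ_ 2 := by
  have hinf : Infinite I := by
    rw [infinite_iff, hI]
    exact aleph0_le_aleph 2
  have h1 : #(grp X) ≤ #(Amb I) := mk_le_of_injective Subtype.val_injective
  refine h1.trans ?_
  have h2 : #ℚ = ℵ₀ := mk_eq_aleph0 _
  have h3 : (ℵ₀ : Cardinal.{u}) ≤ ℵ_ 2 := aleph0_le_aleph 2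
  rw [mk_prod, lift_uzero, mk_finsupp_lift_of_infinite, hI, h2, lift_uzero, lift_aleph0,
    max_eq_left h3]
  exact mul_le_of_le h3 le_rfl h3

end Group

/-- If the continuum hypothesis fails, there is a Butler group of type 2 of cardinality at most
`ℵ₂` that does not satisfy Axiom 3 with respect to separable subgroups. -/
theorem exists_counterexample (hCH : (𝔠 : Cardinal.{0}) ≠ ℵ_ 1) :
    ∃ (I : Type u) (_ : Nonempty I) (X : I → Set Nat.Primes), #I = ℵ_ 2 ∧
      ¬ SatisfiesAxiom3 (grp X) := by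
  have h1 : (ℵ_ 1 : Cardinal.{0}) < 𝔠 := lt_of_le_of_ne aleph_one_le_continuum (Ne.symm hCH)
  have h2 : (ℵ_ 2 : Cardinal.{0}) ≤ 𝔠 := by
    have h21 : (ℵ_ 2 : Cardinal.{0}) = Order.succ (ℵ_ 1) := by
      rw [succ_aleph, one_add_one_eq_two]
    rw [h21]
    exact Order.succ_le_of_lt h1
  rw [← mk_set_nat] at h2
  obtain ⟨I, hI₀⟩ := le_mk_iff_exists_set.mp h2
  have hI : #(ULift.{u} I) = ℵ_ 2 := by
    rw [mk_uLift, hI₀, lift_aleph]
    simp
  have hne : Nonempty (ULift.{u} I) := by
    rw [← mk_ne_zero_iff, hI]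
    exact (aleph_pos 2).ne'
  refine ⟨ULift.{u} I, hne, fun A => primesOf A.down, hI, not_satisfiesAxiom3 _ ?_ hI.ge⟩
  intro A B C hCA hCB
  exact exists_prime_separating (fun h => hCA (ULift.ext _ _ (Subtype.ext h)))
    (fun h => hCB (ULift.ext _ _ (Subtype.ext h)))

end Pool.Agent.Helper548.Axiom3
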