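import Mathlib
import Pool.Agent.Helper548.Axiom3Defs
import Pool.Agent.Helper548.Axiom3Hill

/-!
Under the continuum hypothesis every abelian group of cardinality at most `ℵ₂` satisfies Axiom 3
with respect to separable subgroups.
-/

open Cardinal

namespace Pool.Agent.Helper548.Axiom3

section Sep
variable {G : Type} [AddCommGroup G]

theorem isSeparable_of_countable {H : AddSubgroup G} (hH : (H : Set G).Countable) :
    IsSeparable H := by
  intro g
  obtain ⟨f, hf⟩ := hH.exists_eq_range ⟨0, H.zero_mem⟩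
  refine ⟨f, fun n => ?_, fun x hx => ?_⟩
  · have : f n ∈ (H : Set G) := by rw [hf]; exact ⟨n, rfl⟩
    exact this
  · have : x ∈ (H : Set G) := hx
    rw [hf] at this
    obtain ⟨n, rfl⟩ := this
    exact ⟨n, le_rfl⟩

theorem isSeparable_sup_countable {H K : AddSubgroup G} (hH : IsSeparable H)
    (hK : (K : Set G).Countable) : IsSeparable (H ⊔ K) := by
  intro g
  obtain ⟨k, hk⟩ := hK.exists_eq_range ⟨0, K.zero_mem⟩
  have hkK : ∀ n, k n ∈ K := fun n => by
    have : k n ∈ (K : Set G) := by rw [hk]; exact ⟨n, rfl⟩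
    exact this
  choose h hh hdom using fun j => hH (g + k j)
  refine ⟨fun n => k n.unpair.1 + h n.unpair.1 n.unpair.2, fun n => ?_, fun x hx => ?_⟩
  · exact AddSubgroup.add_mem _ (AddSubgroup.mem_sup_right (hkK _))
      (AddSubgroup.mem_sup_left (hh _ _))
  · obtain ⟨a, ha, b, hb, rfl⟩ := AddSubgroup.mem_sup.mp hx
    have : b ∈ (K : Set G) := hb
    rw [hk] at this
    obtain ⟨j, rfl⟩ := this
    obtain ⟨n, hn⟩ := hdom j a ha
    refine ⟨Nat.pair j n, ?_⟩
    simp only [Nat.unpair_pair]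
    have e1 : g + (a + k j) = g + k j + a := by abel
    have e2 : g + (k j + h j n) = g + k j + h j n := by abel
    rw [e1, e2]
    exact hn

/-- Demands: countably many height sequences. -/
abbrev Dem : Type := ℕ → Nat.Primes → ℕ∞

open Classical in
/-- A witness `g` with `φ n ≤ |g + s n|` for all `n`, if there is one. -/
noncomputable def wit (s : ℕ → G) (φ : Dem) : G :=
  if h : ∃ g : G, ∀ n, φ n ≤ heightSeq (g + s n) then h.choose else 0

theorem wit_spec {s : ℕ → G} {φ : Dem} (h : ∃ g : G, ∀ n, φ n ≤ heightSeq (g + s n)) (n : ℕ) :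
    φ n ≤ heightSeq (wit s φ + s n) := by
  unfold wit
  rw [dif_pos h]
  exact h.choose_spec n

/-- `M` contains all witnesses for sequences of its elements. -/
def WClosed (M : AddSubgroup G) : Prop :=
  ∀ s : ℕ → G, (∀ n, s n ∈ M) → ∀ φ, wit s φ ∈ M

theorem WClosed.exists_max {M : AddSubgroup G} (hM : WClosed M) (g : G) :
    ∃ m ∈ M, ∀ x ∈ M, heightSeq (g + x) ≤ heightSeq (g + m) := by
  classical
  have h1 : ∀ q : Nat.Primes × ℕ, ∃ a ∈ M,
      (∃ x ∈ M, (q.2 : ℕ∞) ≤ heightSeq (g + x) q.1) → (q.2 : ℕ∞) ≤ heightSeq (g + a) q.1 := by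
    intro q
    by_cases h : ∃ x ∈ M, (q.2 : ℕ∞) ≤ heightSeq (g + x) q.1
    · obtain ⟨x, hx, hx'⟩ := h
      exact ⟨x, hx, fun _ => hx'⟩
    · exact ⟨0, M.zero_mem, fun h' => absurd h' h⟩
  choose a haM ha using h1
  have : Nonempty (Nat.Primes × ℕ) := ⟨(⟨2, Nat.prime_two⟩, 0)⟩
  obtain ⟨e, he⟩ := exists_surjective_nat (Nat.Primes × ℕ)
  set s : ℕ → G := fun k => a (e k) with hs
  set φ : Dem := fun k => heightSeq (g + s k) with hφ
  have hw : ∀ k, φ k ≤ heightSeq (wit s φ + s k) := fun k => wit_spec ⟨g, fun n => le_rfl⟩ k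
  refine ⟨-wit s φ, M.neg_mem (hM s (fun n => haM _) φ), fun x hx p => ?_⟩
  rw [← ENat.forall_natCast_le_iff_le]
  intro n hn
  obtain ⟨k, hk⟩ := he (p, n)
  have h2 : (n : ℕ∞) ≤ φ k p := by
    have := ha (p, n) ⟨x, hx, hn⟩
    rw [hφ]
    simp only [hs, hk]
    exact this
  have h3 : φ k ≤ heightSeq (g + -wit s φ) := by
    have h4 : g + -wit s φ = (g + s k) - (wit s φ + s k) := by abel
    rw [h4]
    exact le_heightSeq_sub le_rfl (hw k)
  exact h2.trans (h3 p)

/-- The smallest subgroup containing `A` and closed under witnesses. -/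
noncomputable def wHull (A : Set G) : AddSubgroup G :=
  sInf {N : AddSubgroup G | A ⊆ N ∧ WClosed N}

theorem subset_wHull (A : Set G) : A ⊆ wHull A := by
  intro x hx
  refine (AddSubgroup.mem_sInf).mpr ?_
  rintro N ⟨hN, _⟩
  exact hN hx

theorem wClosed_wHull (A : Set G) : WClosed (wHull A) := by
  intro s hs φ
  refine (AddSubgroup.mem_sInf).mpr ?_
  rintro N ⟨hN, hN'⟩
  exact hN' s (fun n => (AddSubgroup.mem_sInf).mp (hs n) N ⟨hN, hN'⟩) φ

theorem wHull_mono {A B : Set G} (h : A ⊆ B) : wHull A ≤ wHull B :=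
  sInf_le_sInf fun _ hN => ⟨h.trans hN.1, hN.2⟩

/-- Arities of the operations generating the hull. -/
def arity (A : Set G) : Option A ⊕ Option Dem → Type
  | Sum.inl _ => Empty
  | Sum.inr _ => ℕ

/-- Interpretation of the operations generating the hull. -/
noncomputable def interp (A : Set G) : (Σ a : Option A ⊕ Option Dem, arity A a → G) → G
  | ⟨Sum.inl none, _⟩ => 0
  | ⟨Sum.inl (some a), _⟩ => a
  | ⟨Sum.inr none, f⟩ => f (0 : ℕ) - f (1 : ℕ)
  | ⟨Sum.inr (some φ), f⟩ => wit f φ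

/-- The values of all terms. -/
noncomputable def termGroup (A : Set G) : AddSubgroup G :=
  AddSubgroup.ofSub (Set.range (WType.elim G (interp A)))
    ⟨0, WType.mk (Sum.inl none) (fun e => e.elim), rfl⟩ (by
      rintro _ ⟨t₁, rfl⟩ _ ⟨t₂, rfl⟩
      refine ⟨WType.mk (Sum.inr none) (fun n : ℕ => if n = 0 then t₁ else t₂), ?_⟩
      rw [← sub_eq_add_neg]
      rfl)

theorem mem_termGroup {A : Set G} {x : G} :
    x ∈ termGroup A ↔ x ∈ Set.range (WType.elim G (interp A)) := Iff.rfl

theorem wHull_le_termGroup (A : Set G) : wHull A ≤ termGroup A := by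
  refine sInf_le ⟨?_, ?_⟩
  · intro x hx
    exact ⟨WType.mk (Sum.inl (some ⟨x, hx⟩)) (fun e => e.elim), rfl⟩
  · intro s hs φ
    choose t ht using hs
    refine ⟨WType.mk (Sum.inr (some φ)) t, ?_⟩
    have : (fun n => WType.elim G (interp A) (t n)) = s := funext ht
    change wit (fun n => WType.elim G (interp A) (t n)) φ = wit s φ
    rw [this]

theorem mk_dem : #Dem = 𝔠 := by
  have h1 : #(Nat.Primes → ℕ∞) = 𝔠 := by
    rw [← power_def]
    have h2 : #ℕ∞ = ℵ₀ := mk_eq_aleph0 _
    have h3 : #Nat.Primes = ℵ₀ := mk_eq_aleph0 _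
    rw [h2, h3, aleph0_power_aleph0]
  change #(ℕ → (Nat.Primes → ℕ∞)) = 𝔠
  rw [← power_def, h1, mk_nat, continuum_power_aleph0]

theorem mk_wHull_le {A : Set G} (hA : #A ≤ 𝔠) : #(wHull A) ≤ 𝔠 := by
  have h1 : #(WType (arity A)) ≤ 𝔠 := by
    refine WType.cardinalMk_le_of_le ?_
    have h2 : ∀ a : Option A ⊕ Option Dem, (𝔠 : Cardinal.{0}) ^ #(arity A a) ≤ 𝔠 := by
      rintro (a | a)
      · have : #(arity A (Sum.inl a)) = 0 := mk_eq_zero Empty
        rw [this, power_zero]
        exact (nat_lt_continuum 1).le.trans' (by simp)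
      · have : #(arity A (Sum.inr a)) = ℵ₀ := mk_nat
        rw [this, continuum_power_aleph0]
    refine (sum_le_sum _ (fun _ => 𝔠) h2).trans ?_
    rw [sum_const']
    have h3 : #(Option A ⊕ Option Dem) ≤ 𝔠 := by
      rw [mk_sum, lift_id, lift_id, mk_option, mk_option, mk_dem]
      have h4 : #A + 1 ≤ 𝔠 :=
        add_le_of_le aleph0_le_continuum hA ((nat_lt_continuum 1).le.trans' (by simp))
      have h5 : (𝔠 : Cardinal.{0}) + 1 ≤ 𝔠 :=
        add_le_of_le aleph0_le_continuum le_rfl ((nat_lt_continuum 1).le.trans' (by simp))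
      exact add_le_of_le aleph0_le_continuum h4 h5
    calc #(Option A ⊕ Option Dem) * 𝔠 ≤ 𝔠 * 𝔠 := mul_le_mul_left h3 _
      _ = 𝔠 := continuum_mul_self
  have h2 : #(wHull A) ≤ #(termGroup A) :=
    mk_le_of_injective (AddSubgroup.inclusion_injective (wHull_le_termGroup A))
  have h3 : #(termGroup A) ≤ #(WType (arity A)) := by
    refine mk_le_of_surjective (f := fun t => ⟨WType.elim G (interp A) t, ⟨t, rfl⟩⟩) ?_
    rintro ⟨x, t, rfl⟩
    exact ⟨t, rfl⟩
  exact h2.trans (h3.trans h1)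

theorem isSeparable_iSup_of_chain {J : Type*} [LinearOrder J] (L : J → AddSubgroup G)
    (hL : Monotone L) (hw : ∀ j, WClosed (L j)) : IsSeparable (⨆ j, L j) := by
  rcases isEmpty_or_nonempty J with hJ | hJ
  · have : (⨆ j, L j) = ⊥ := by
      rw [iSup_eq_bot]
      exact fun j => hJ.elim j
    rw [this]
    exact isSeparable_of_countable (by simp)
  have hdir : Directed (· ≤ ·) L := hL.directed_le
  by_cases hcof : ∃ b : ℕ → J, ∀ j, ∃ n, j ≤ b n
  · obtain ⟨b, hb⟩ := hcof
    intro g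
    choose m hm hmax using fun n => (hw (b n)).exists_max g
    refine ⟨m, fun n => (le_iSup L (b n)) (hm n), fun x hx => ?_⟩
    obtain ⟨j, hj⟩ := (AddSubgroup.mem_iSup_of_directed hdir).mp hx
    obtain ⟨n, hn⟩ := hb j
    exact ⟨n, hmax n x (hL hn hj)⟩
  · have hW : WClosed (⨆ j, L j) := by
      intro s hs φ
      choose j hj using fun n => (AddSubgroup.mem_iSup_of_directed hdir).mp (hs n)
      push Not at hcof
      obtain ⟨j', hj'⟩ := hcof j
      exact (le_iSup L j') (hw j' s (fun n => hL (hj' n).le (hj n)) φ)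
    intro g
    obtain ⟨m, hm, hmax⟩ := hW.exists_max g
    exact ⟨fun _ => m, fun _ => hm, fun x hx => ⟨0, hmax x hx⟩⟩

end Sep

/-- Under the continuum hypothesis, all abelian groups of cardinality at most `ℵ₂` satisfy
Axiom 3 with respect to separable subgroups. -/
theorem satisfiesAxiom3_of_CH (hCH : (𝔠 : Cardinal.{0}) = ℵ_ 1) (G : Type) [AddCommGroup G]
    (hG : #G ≤ ℵ_ 2) : SatisfiesAxiom3 G := by
  classical
  let J : Type := (ℵ_ 2 : Cardinal.{0}).ord.ToType
  let K : Type := (ℵ_ 1 : Cardinal.{0}).ord.ToType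
  have hJ : #J = ℵ_ 2 := mk_ord_toType _
  have hK : #K = ℵ_ 1 := mk_ord_toType _
  have h21 : (ℵ_ 2 : Cardinal.{0}) = Order.succ (ℵ_ 1) := by
    rw [succ_aleph, one_add_one_eq_two]
  have h10 : (ℵ_ 1 : Cardinal.{0}) = Order.succ ℵ₀ := succ_aleph0.symm
  obtain ⟨e⟩ : Nonempty (G ↪ J) := by
    rw [← Cardinal.le_def, hJ]
    exact hG
  have hIio : ∀ j : J, #(Set.Iio j) ≤ 𝔠 := by
    intro j
    have h1 : #(Set.Iio j) < #J := mk_Iio_lt j (by rw [hJ]; simp [J])
    rw [hCH]
    exact Order.lt_succ_iff.mp (lt_of_lt_of_eq (lt_of_lt_of_eq h1 hJ) h21)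
  have hIioK : ∀ k : K, (Set.Iio k).Countable := by
    intro k
    have h1 : #(Set.Iio k) < #K := mk_Iio_lt k (by rw [hK]; simp [K])
    exact le_aleph0_iff_set_countable.mp
      (Order.lt_succ_iff.mp (lt_of_lt_of_eq (lt_of_lt_of_eq h1 hK) h10))
  let A : J → Set G := fun j => {x | e x ≤ j}
  have hA : ∀ j, #(A j) ≤ 𝔠 := by
    intro j
    have h1 : #(A j) ≤ #(Set.Iic j) :=
      mk_le_of_injective (f := fun x : A j => (⟨e x, x.2⟩ : Set.Iic j)) (by
        intro x y hxy
        have : e x = e y := congrArg Subtype.val hxy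
        exact Subtype.ext (e.injective this))
    have h2 : #(Set.Iic j) ≤ #(Set.Iio j) + 1 := by
      have h3 : Set.Iic j = Set.Iio j ∪ {j} := by
        ext x
        simp [le_iff_lt_or_eq]
      rw [h3]
      refine (mk_union_le _ _).trans ?_
      rw [mk_singleton]
    refine h1.trans (h2.trans ?_)
    exact add_le_of_le aleph0_le_continuum (hIio j) ((nat_lt_continuum 1).le.trans' (by simp))
  let L : J → AddSubgroup G := fun j => wHull (A j)
  have hLmono : Monotone L := by
    intro i j hij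
    exact wHull_mono fun x (hx : e x ≤ i) => (hx.trans hij : e x ≤ j)
  have hLw : ∀ j, WClosed (L j) := fun j => wClosed_wHull _
  have hLc : ∀ j, #(L j) ≤ ℵ_ 1 := fun j => by
    rw [← hCH]
    exact mk_wHull_le (hA j)
  have hf : ∀ j, Nonempty (L j ↪ K) := fun j => by
    rw [← Cardinal.le_def, hK]
    exact hLc j
  let f : ∀ j, L j ↪ K := fun j => (hf j).some
  let c : J ×ₗ K → G := fun q =>
    if h : ∃ x : L (ofLex q).1, f (ofLex q).1 x = (ofLex q).2 then (h.choose : G) else 0
  have hc_mem : ∀ q : J ×ₗ K, c q ∈ L (ofLex q).1 := by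
    intro q
    simp only [c]
    split_ifs with h
    · exact (h.choose).2
    · exact AddSubgroup.zero_mem _
  have hc_surj : ∀ (j : J) (x : L j), c (toLex (j, f j x)) = x := by
    intro j x
    have h : ∃ y : L j, f j y = f j x := ⟨x, rfl⟩
    have h2 : c (toLex (j, f j x)) = (h.choose : G) := by
      simp only [c]
      exact dif_pos h
    rw [h2]
    exact congrArg Subtype.val ((f j).injective h.choose_spec)
  refine satisfiesAxiom3_of_wellOrdered c ?_ ?_
  · rw [eq_top_iff]
    intro x _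
    have hx : x ∈ L (e x) := subset_wHull _ (le_rfl : e x ≤ e x)
    have := hc_surj (e x) ⟨x, hx⟩
    have h2 : c (toLex (e x, f (e x) ⟨x, hx⟩)) ∈ gen c Set.univ := mem_gen c (Set.mem_univ _)
    rw [this] at h2
    exact h2
  · intro q
    set j : J := (ofLex q).1 with hj
    set k : K := (ofLex q).2 with hk
    let E : Set (J ×ₗ K) := (fun k' : K => (toLex (j, k') : J ×ₗ K)) '' Set.Iio k
    have hE : E.Countable := (hIioK k).image _
    have hEq : gen c (Set.Iio q) = (⨆ i : Set.Iio j, L i) ⊔ gen c E := by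
      apply le_antisymm
      · refine (AddSubgroup.closure_le _).mpr ?_
        rintro _ ⟨r, hr, rfl⟩
        rcases Prod.Lex.lt_iff.mp (show r < q from hr) with h | ⟨h1, h2⟩
        · refine AddSubgroup.mem_sup_left ?_
          exact (le_iSup (fun i : Set.Iio j => L i) ⟨(ofLex r).1, h⟩) (hc_mem r)
        · refine AddSubgroup.mem_sup_right (mem_gen c ⟨(ofLex r).2, h2, ?_⟩)
          change toLex (j, (ofLex r).2) = r
          rw [hj, ← h1]
          rfl
      · refine sup_le (iSup_le ?_) (gen_mono c ?_)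
        · rintro ⟨i, hi⟩ x hx
          have h1 := hc_surj i ⟨x, hx⟩
          have h2 : c (toLex (i, f i ⟨x, hx⟩)) ∈ gen c (Set.Iio q) :=
            mem_gen c (Prod.Lex.lt_iff.mpr (Or.inl hi))
          rw [h1] at h2
          exact h2
        · rintro _ ⟨k', hk', rfl⟩
          exact Prod.Lex.lt_iff.mpr (Or.inr ⟨rfl, hk'⟩)
    rw [hEq]
    refine isSeparable_sup_countable ?_ (countable_gen c hE)
    exact isSeparable_iSup_of_chain (fun i : Set.Iio j => L i)
      (fun a b hab => hLmono hab) (fun i => hLw i)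

end Pool.Agent.Helper548.Axiom3
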