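import Pool.Agent.Helper548.LoopBasic

namespace LpAim

open Equiv

universe u v

/-! ### Heisenberg type groups -/

/-- carrier of the Heisenberg type group -/
structure HQ (V W : Type) where
  fst : V
  snd : W

theorem HQ.ext' {V W : Type} {a b : HQ V W} (h1 : a.fst = b.fst) (h2 : a.snd = b.snd) : a = b := by
  cases a; cases b; simp_all

/-- the Heisenberg type group of a biadditive map, as a loop -/
def HLoop {V W : Type} [AddCommGroup V] [AddCommGroup W] (β : V →+ V →+ W) : Loop (HQ V W) where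
  mul a b := ⟨a.fst + b.fst, a.snd + b.snd + β a.fst b.fst⟩
  one := ⟨0, 0⟩
  ld a b := ⟨b.fst - a.fst, b.snd - a.snd - β a.fst (b.fst - a.fst)⟩
  rd b a := ⟨b.fst - a.fst, b.snd - a.snd - β (b.fst - a.fst) a.fst⟩
  one_mul' a := HQ.ext' (zero_add a.fst) (by
    show 0 + a.snd + β 0 a.fst = a.snd
    simp)
  mul_one' a := HQ.ext' (add_zero a.fst) (by
    show a.snd + 0 + β a.fst 0 = a.snd
    simp)
  mul_ld a b := HQ.ext' (add_sub_cancel a.fst b.fst) (by
    show a.snd + (b.snd - a.snd - β a.fst (b.fst - a.fst)) + β a.fst (b.fst - a.fst) = b.snd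
    abel)
  ld_mul a b := HQ.ext' (add_sub_cancel_left a.fst b.fst) (by
    show a.snd + b.snd + β a.fst b.fst - a.snd - β a.fst (a.fst + b.fst - a.fst) = b.snd
    rw [add_sub_cancel_left]
    abel)
  rd_mul a b := HQ.ext' (sub_add_cancel b.fst a.fst) (by
    show b.snd - a.snd - β (b.fst - a.fst) a.fst + a.snd + β (b.fst - a.fst) a.fst = b.snd
    abel)
  mul_rd a b := HQ.ext' (add_sub_cancel_right b.fst a.fst) (by
    show b.snd + a.snd + β b.fst a.fst - a.snd - β (b.fst + a.fst - a.fst) a.fst = b.snd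
    rw [add_sub_cancel_right]
    abel)

section heis
variable {V W : Type} [AddCommGroup V] [AddCommGroup W] (β : V →+ V →+ W)

theorem HT_apply (x y : HQ V W) :
    letI := HLoop β
    T x y = ⟨y.fst, y.snd + (β x.fst y.fst - β y.fst x.fst)⟩ := by
  letI := HLoop β
  apply HQ.ext'
  · show x.fst + y.fst - x.fst = y.fst
    abel
  · show x.snd + y.snd + β x.fst y.fst - x.snd - β (x.fst + y.fst - x.fst) x.fst =
      y.snd + (β x.fst y.fst - β y.fst x.fst)
    rw [add_sub_cancel_left]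
    abel

theorem Hassoc (x y z : HQ V W) :
    letI := HLoop β
    (x * y) * z = x * (y * z) := by
  letI := HLoop β
  apply HQ.ext'
  · show x.fst + y.fst + z.fst = x.fst + (y.fst + z.fst)
    abel
  · show x.snd + y.snd + β x.fst y.fst + z.snd + β (x.fst + y.fst) z.fst =
      x.snd + (y.snd + z.snd + β y.fst z.fst) + β x.fst (y.fst + z.fst)
    rw [map_add, map_add, AddMonoidHom.add_apply]
    abel

theorem Hl (x y : HQ V W) :
    letI := HLoop β
    l x y = 1 := by
  letI := HLoop β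
  ext1 z
  show l x y z = z
  rw [l_apply, ← Hassoc β x y z, ld_mul]

theorem Hr (x y : HQ V W) :
    letI := HLoop β
    r x y = 1 := by
  letI := HLoop β
  ext1 z
  show r x y z = z
  rw [r_apply, Hassoc β z x y, mul_rd]

/-- the homomorphism `v ↦ T (v, 0)` -/
def Hφ : Multiplicative V →* Equiv.Perm (HQ V W) where
  toFun v := letI := HLoop β; T (⟨v.toAdd, 0⟩ : HQ V W)
  map_one' := by
    letI := HLoop β
    ext1 y
    show T (⟨0, 0⟩ : HQ V W) y = y
    rw [HT_apply β]
    apply HQ.ext'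
    · rfl
    · show y.snd + (β 0 y.fst - β y.fst 0) = y.snd
      simp
  map_mul' u v := by
    letI := HLoop β
    ext1 y
    show T (⟨u.toAdd + v.toAdd, 0⟩ : HQ V W) y =
      T (⟨u.toAdd, 0⟩ : HQ V W) (T (⟨v.toAdd, 0⟩ : HQ V W) y)
    rw [HT_apply β, HT_apply β, HT_apply β]
    apply HQ.ext'
    · rfl
    · show y.snd + (β (u.toAdd + v.toAdd) y.fst - β y.fst (u.toAdd + v.toAdd)) =
        y.snd + (β v.toAdd y.fst - β y.fst v.toAdd) + (β u.toAdd y.fst - β y.fst u.toAdd)
      rw [map_add, map_add, AddMonoidHom.add_apply]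
      abel

theorem Hφ_apply (v : Multiplicative V) (y : HQ V W) :
    Hφ β v y = ⟨y.fst, y.snd + (β v.toAdd y.fst - β y.fst v.toAdd)⟩ :=
  HT_apply β ⟨v.toAdd, 0⟩ y

theorem T_eq_Hφ (x : HQ V W) :
    letI := HLoop β
    T x = Hφ β (Multiplicative.ofAdd x.fst) := by
  letI := HLoop β
  ext1 y
  rw [Hφ_apply, HT_apply β]
  rfl

theorem Hφ_range :
    letI := HLoop β
    (Hφ β).range = St (1 : HQ V W) := by
  letI := HLoop β
  apply le_antisymm
  · rintro g ⟨v, rfl⟩
    exact T_mem _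
  · rw [St_one_eq_closure, Subgroup.closure_le]
    rintro g (⟨x, rfl⟩ | ⟨x, y, rfl⟩ | ⟨x, y, rfl⟩)
    · rw [T_eq_Hφ]
      exact ⟨_, rfl⟩
    · rw [Hl β x y]
      exact one_mem _
    · rw [Hr β x y]
      exact one_mem _

theorem Hφ_inj (hβ : ∀ v : V, (∀ v' : V, β v v' = β v' v) → v = 0) :
    Function.Injective (Hφ β) := by
  rw [injective_iff_map_eq_one]
  intro v hv
  have : v.toAdd = 0 := by
    apply hβ
    intro v'
    have h := congrArg (fun g : Equiv.Perm (HQ V W) => (g ⟨v', 0⟩).snd) hv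
    simp only [Hφ_apply, Equiv.Perm.coe_one, id_eq, zero_add] at h
    exact sub_eq_zero.1 h
  exact this

theorem exists_loop_of_bilin [Finite V] [Finite W]
    (hβ : ∀ v : V, (∀ v' : V, β v v' = β v' v) → v = 0) :
    ∃ (Q : Type) (i : Loop Q), Finite Q ∧ Nonempty (Multiplicative V ≃* (St (1 : Q))) := by
  refine ⟨HQ V W, HLoop β, ?_, ?_⟩
  · refine Finite.of_injective (fun x : HQ V W => (x.fst, x.snd)) ?_
    intro a b h
    simp only [Prod.mk.injEq] at h
    exact HQ.ext' h.1 h.2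
  · exact ⟨(MonoidHom.ofInjective (Hφ_inj β hβ)).trans (MulEquiv.subgroupCongr (Hφ_range β))⟩

end heis

section bil
variable (e : ℕ) (M : Type) [AddCommGroup M] [Module (ZMod e) M]

/-- the biadditive map -/
def bβ : (ZMod e × ZMod e × M) →+ (ZMod e × ZMod e × M) →+ (M × M × ZMod e) :=
  AddMonoidHom.mk' (fun v => AddMonoidHom.mk'
    (fun v' => (v.1 • v'.2.2, v.2.1 • v'.2.2, v.1 * v'.2.1)) (by
      intro a b
      simp only [Prod.fst_add, Prod.snd_add, smul_add, mul_add, Prod.mk_add_mk])) (by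
    intro a b
    ext1 v'
    simp only [AddMonoidHom.mk'_apply, AddMonoidHom.add_apply, Prod.fst_add, Prod.snd_add,
      add_smul, add_mul, Prod.mk_add_mk])

theorem bβ_apply (v v' : ZMod e × ZMod e × M) :
    bβ e M v v' = (v.1 • v'.2.2, v.2.1 • v'.2.2, v.1 * v'.2.1) := rfl

theorem bβ_nondeg (v : ZMod e × ZMod e × M) (h : ∀ v', bβ e M v v' = bβ e M v' v) : v = 0 := by
  obtain ⟨i, j, d⟩ := v
  have h1 := h (1, 0, 0)
  have h2 := h (0, 1, 0)
  simp only [bβ_apply, smul_zero, one_smul, zero_smul, mul_zero, one_mul, mul_one, zero_mul,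
    Prod.mk.injEq] at h1 h2
  obtain ⟨hd, -, hj⟩ := h1
  obtain ⟨-, -, hi⟩ := h2
  rw [hi, ← hj, ← hd]
  rfl

end bil

/-! ### target -/

/-- For every `e ≥ 1` and every finite abelian `D` with `d ^ e = 1` on `D`, the group
`C_e × C_e × D` is the inner mapping group of a finite loop (in fact of a group). -/
theorem exists_loop_of_decomp (e : ℕ) (he : e ≠ 0) (D : Type) [CommGroup D] [Finite D]
    (hD : ∀ d : D, d ^ e = 1) :
    ∃ (Q : Type) (i : Loop Q), Finite Q ∧
      Nonempty ((Multiplicative (ZMod e) × Multiplicative (ZMod e) × D) ≃* (St (1 : Q))) := by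
  haveI : NeZero e := ⟨he⟩
  letI : Module (ZMod e) (Additive D) := AddCommGroup.zmodModule (fun x => by
    show Additive.ofMul (x.toMul ^ e) = 0
    rw [hD]
    rfl)
  haveI : Finite (Additive D) := ‹Finite D›
  obtain ⟨Q, i, hQ, ⟨f⟩⟩ := exists_loop_of_bilin (bβ e (Additive D)) (bβ_nondeg e (Additive D))
  refine ⟨Q, i, hQ, ⟨MulEquiv.trans ?_ f⟩⟩
  exact
    { toFun := fun x => Multiplicative.ofAdd (x.1.toAdd, x.2.1.toAdd, Additive.ofMul x.2.2)
      invFun := fun x => (Multiplicative.ofAdd x.toAdd.1, Multiplicative.ofAdd x.toAdd.2.1,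
        x.toAdd.2.2.toMul)
      left_inv := fun x => rfl
      right_inv := fun x => rfl
      map_mul' := fun x y => rfl }

end LpAim
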