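import Mathlib

/-!
# Loops, their multiplication groups and inner mapping groups

Basic facts.  `St x` is the stabilizer of `x` in the multiplication group.
-/

namespace LpAim

open Equiv

universe u v

/-- A loop: a multiplication with a two-sided identity and with unique left and right
division. -/
class Loop (Q : Type u) extends Mul Q, One Q where
  /-- left division `a \ b` -/
  ld : Q → Q → Q
  /-- right division `b / a` -/
  rd : Q → Q → Q
  one_mul' : ∀ a : Q, 1 * a = a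
  mul_one' : ∀ a : Q, a * 1 = a
  mul_ld : ∀ a b : Q, a * ld a b = b
  ld_mul : ∀ a b : Q, ld a (a * b) = b
  rd_mul : ∀ a b : Q, rd b a * a = b
  mul_rd : ∀ a b : Q, rd (b * a) a = b

export Loop (ld rd mul_ld ld_mul rd_mul mul_rd)

theorem pai {X : Type u} (g : Perm X) (x : X) : g (g⁻¹ x) = x := Equiv.apply_symm_apply g x
theorem pia {X : Type u} (g : Perm X) (x : X) : g⁻¹ (g x) = x := Equiv.symm_apply_apply g x

section
variable {Q : Type u} [Loop Q]

theorem lone_mul (a : Q) : 1 * a = a := Loop.one_mul' a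
theorem lmul_one (a : Q) : a * 1 = a := Loop.mul_one' a

/-- left translation -/
def L (a : Q) : Perm Q where
  toFun x := a * x
  invFun x := ld a x
  left_inv x := ld_mul a x
  right_inv x := mul_ld a x

/-- right translation -/
def R (a : Q) : Perm Q where
  toFun x := x * a
  invFun x := rd x a
  left_inv x := mul_rd a x
  right_inv x := rd_mul a x

@[simp] theorem L_apply (a x : Q) : L a x = a * x := rfl
@[simp] theorem R_apply (a x : Q) : R a x = x * a := rfl
@[simp] theorem L_inv_apply (a x : Q) : (L a)⁻¹ x = ld a x := rfl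
@[simp] theorem R_inv_apply (a x : Q) : (R a)⁻¹ x = rd x a := rfl

theorem mul_left_cancel_iff' (a x y : Q) : a * x = a * y ↔ x = y := (L a).injective.eq_iff
theorem mul_right_cancel_iff' (a x y : Q) : x * a = y * a ↔ x = y := (R a).injective.eq_iff

theorem eq_ld_iff (a b c : Q) : c = ld a b ↔ a * c = b := by
  constructor
  · rintro rfl; exact mul_ld a b
  · intro h; rw [← h, ld_mul]

theorem eq_rd_iff (a b c : Q) : c = rd b a ↔ c * a = b := by
  constructor
  · rintro rfl; exact rd_mul a b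
  · intro h; rw [← h, mul_rd]

theorem ld_self (a : Q) : ld a a = 1 := ((eq_ld_iff a a 1).2 (lmul_one a)).symm
theorem rd_self (a : Q) : rd a a = 1 := ((eq_rd_iff a a 1).2 (lone_mul a)).symm
theorem ld_one_left (a : Q) : ld 1 a = a := ((eq_ld_iff 1 a a).2 (lone_mul a)).symm
theorem rd_one_right (a : Q) : rd a 1 = a := ((eq_rd_iff 1 a a).2 (lmul_one a)).symm

variable (Q) in
/-- The multiplication group. -/
def Mlt : Subgroup (Perm Q) :=
  Subgroup.closure (Set.range (L : Q → Perm Q) ∪ Set.range (R : Q → Perm Q))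

theorem L_mem (a : Q) : L a ∈ Mlt Q := Subgroup.subset_closure (Or.inl ⟨a, rfl⟩)
theorem R_mem (a : Q) : R a ∈ Mlt Q := Subgroup.subset_closure (Or.inr ⟨a, rfl⟩)

/-- The stabilizer of `x` in the multiplication group; `St 1` is the inner mapping group. -/
def St (x : Q) : Subgroup (Perm Q) := Mlt Q ⊓ MulAction.stabilizer (Perm Q) x

theorem mem_St {x : Q} {g : Perm Q} : g ∈ St x ↔ g ∈ Mlt Q ∧ g x = x := Iff.rfl

/-- The middle inner mapping. -/
def T (x : Q) : Perm Q := (R x)⁻¹ * L x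
/-- The left inner mapping. -/
def l (x y : Q) : Perm Q := (L (x * y))⁻¹ * L x * L y
/-- The right inner mapping. -/
def r (x y : Q) : Perm Q := (R (x * y))⁻¹ * R y * R x
/-- The commutator of a left and a right translation. -/
def A (x y : Q) : Perm Q := (L x)⁻¹ * (R y)⁻¹ * L x * R y

theorem T_apply (x y : Q) : T x y = rd (x * y) x := rfl
theorem l_apply (x y z : Q) : l x y z = ld (x * y) (x * (y * z)) := rfl
theorem r_apply (x y z : Q) : r x y z = rd ((z * x) * y) (x * y) := rfl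
theorem A_apply (x y z : Q) : A x y z = ld x (rd (x * (z * y)) y) := rfl

theorem T_mem_Mlt (x : Q) : T x ∈ Mlt Q := mul_mem (inv_mem (R_mem x)) (L_mem x)
theorem l_mem_Mlt (x y : Q) : l x y ∈ Mlt Q :=
  mul_mem (mul_mem (inv_mem (L_mem _)) (L_mem x)) (L_mem y)
theorem r_mem_Mlt (x y : Q) : r x y ∈ Mlt Q :=
  mul_mem (mul_mem (inv_mem (R_mem _)) (R_mem y)) (R_mem x)
theorem A_mem_Mlt (x y : Q) : A x y ∈ Mlt Q :=
  mul_mem (mul_mem (mul_mem (inv_mem (L_mem _)) (inv_mem (R_mem y))) (L_mem x)) (R_mem y)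

theorem T_mem (x : Q) : T x ∈ St (1 : Q) :=
  ⟨T_mem_Mlt x, by
    show T x 1 = 1
    rw [T_apply, lmul_one, rd_self]⟩
theorem l_mem (x y : Q) : l x y ∈ St (1 : Q) :=
  ⟨l_mem_Mlt x y, by
    show l x y 1 = 1
    rw [l_apply, lmul_one, ld_self]⟩
theorem r_mem (x y : Q) : r x y ∈ St (1 : Q) :=
  ⟨r_mem_Mlt x y, by
    show r x y 1 = 1
    rw [r_apply, lone_mul, rd_self]⟩
theorem A_mem (x y : Q) : A x y ∈ St (1 : Q) :=
  ⟨A_mem_Mlt x y, by
    show A x y 1 = 1
    rw [A_apply, lone_mul, mul_rd, ld_self]⟩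

theorem T_self (x : Q) : T x x = x := by rw [T_apply, mul_rd]

variable (Q) in
/-- The standard generators of the inner mapping group. -/
def gens : Set (Perm Q) :=
  {g | (∃ x, g = T x) ∨ (∃ x y, g = l x y) ∨ (∃ x y, g = r x y)}

theorem gens_sub : gens Q ⊆ St (1 : Q) := by
  rintro g (⟨x, rfl⟩ | ⟨x, y, rfl⟩ | ⟨x, y, rfl⟩)
  · exact T_mem x
  · exact l_mem x y
  · exact r_mem x y

/-- `[L_x, R_y]` in terms of the standard generators (no commutativity used). -/
theorem A_eq (x y : Q) : A x y = (T x)⁻¹ * (r x y)⁻¹ * T (x * y) * l x y * (T y)⁻¹ := by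
  simp only [A, T, r, l]; group

theorem St_one_eq_closure : St (1 : Q) = Subgroup.closure (gens Q) := by
  apply le_antisymm _ ((Subgroup.closure_le _).2 gens_sub)
  set K : Subgroup (Perm Q) := Subgroup.closure (gens Q) with hK
  have hT : ∀ x, T x ∈ K := fun x => Subgroup.subset_closure (Or.inl ⟨x, rfl⟩)
  have hl : ∀ x y, l x y ∈ K := fun x y => Subgroup.subset_closure (Or.inr (Or.inl ⟨x, y, rfl⟩))
  have hr : ∀ x y, r x y ∈ K := fun x y => Subgroup.subset_closure (Or.inr (Or.inr ⟨x, y, rfl⟩))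
  have hRL : ∀ a x : Q, ∃ k ∈ K, R a * L x = L (x * a) * k := by
    intro a x
    refine ⟨(T (x * a))⁻¹ * r x a * T x, mul_mem (mul_mem (inv_mem (hT _)) (hr _ _)) (hT _), ?_⟩
    simp only [T, r]; group
  have hLL : ∀ a x : Q, ∃ k ∈ K, L a * L x = L (a * x) * k := by
    intro a x
    refine ⟨l a x, hl _ _, ?_⟩
    simp only [l]; group
  have key : ∀ g ∈ Mlt Q, ∀ x : Q, ∃ k ∈ K, g * L x = L (g x) * k := by
    intro g hg
    refine Subgroup.closure_induction (p := fun g _ => ∀ x : Q, ∃ k ∈ K, g * L x = L (g x) * k)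
      ?_ ?_ ?_ ?_ hg
    · rintro g (⟨a, rfl⟩ | ⟨a, rfl⟩) x
      · exact hLL a x
      · exact hRL a x
    · intro x; exact ⟨1, one_mem _, by simp⟩
    · intro g h _ _ ihg ihh x
      obtain ⟨k, hk, e⟩ := ihh x
      obtain ⟨k', hk', e'⟩ := ihg (h x)
      refine ⟨k' * k, mul_mem hk' hk, ?_⟩
      rw [mul_assoc, e, ← mul_assoc, e', mul_assoc]; rfl
    · intro g _ ih x
      obtain ⟨k, hk, e⟩ := ih (g⁻¹ x)
      refine ⟨k⁻¹, inv_mem hk, ?_⟩
      rw [pai] at e
      have : L x = g * L (g⁻¹ x) * k⁻¹ := by rw [e]; group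
      rw [this]; group
  rintro g ⟨hg, h1⟩
  obtain ⟨k, hk, e⟩ := key g hg 1
  have h1' : g 1 = 1 := h1
  have hL1 : (L (1 : Q)) = 1 := by ext x; exact lone_mul x
  rw [h1', hL1, mul_one, one_mul] at e
  rw [e]; exact hk

/-- Every element of the multiplication group is a left translation times an inner mapping. -/
theorem conj_St {g : Perm Q} (hg : g ∈ Mlt Q) {x : Q} {h : Perm Q} (hh : h ∈ St x) :
    g * h * g⁻¹ ∈ St (g x) := by
  refine ⟨(Mlt Q).mul_mem ((Mlt Q).mul_mem hg hh.1) ((Mlt Q).inv_mem hg), ?_⟩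
  show (g * h * g⁻¹) (g x) = g x
  have h2 : h x = x := hh.2
  simp only [Perm.mul_apply, pia, h2]

variable (Q) in
/-- The inner mapping group is abelian. -/
def AIM : Prop := ∀ g ∈ St (1 : Q), ∀ h ∈ St (1 : Q), g * h = h * g

theorem AIM.comm_at (hQ : AIM Q) {x : Q} {g h : Perm Q} (hg : g ∈ St x) (hh : h ∈ St x) :
    g * h = h * g := by
  have e : (L x)⁻¹ x = 1 := ld_self x
  have h1 := conj_St (inv_mem (L_mem x)) hg
  have h2 := conj_St (inv_mem (L_mem x)) hh
  rw [e] at h1 h2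
  have := hQ _ h1 _ h2
  have h3 : (L x)⁻¹ * (g * h) * (L x) = (L x)⁻¹ * (h * g) * (L x) := by
    calc (L x)⁻¹ * (g * h) * (L x) = ((L x)⁻¹ * g * (L x)⁻¹⁻¹) * ((L x)⁻¹ * h * (L x)⁻¹⁻¹) := by group
      _ = _ := by rw [this]; group
  exact mul_left_cancel (mul_right_cancel h3)

theorem AIM_of_gens (h : ∀ g ∈ gens Q, ∀ h ∈ gens Q, g * h = h * g) : AIM Q := by
  intro g hg k hk
  rw [St_one_eq_closure] at hg hk
  have hc : ∀ x ∈ Subgroup.closure (gens Q), ∀ y ∈ gens Q, x * y = y * x := by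
    intro x hx y hy
    refine Subgroup.closure_induction (p := fun x _ => x * y = y * x) ?_ ?_ ?_ ?_ hx
    · intro x hx; exact h x hx y hy
    · simp
    · intro a b _ _ ha hb; rw [mul_assoc, hb, ← mul_assoc, ha, mul_assoc]
    · intro a _ ha
      have : (Commute a y) := ha
      exact this.inv_left
  refine Subgroup.closure_induction (p := fun y _ => g * y = y * g) ?_ ?_ ?_ ?_ hk
  · intro y hy; exact hc g hg y hy
  · simp
  · intro a b _ _ ha hb; rw [← mul_assoc, ha, mul_assoc, hb, mul_assoc]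
  · intro a _ ha
    have : (Commute g a) := ha
    exact this.inv_right

theorem Mlt_trans (x y : Q) : ∃ g ∈ Mlt Q, g x = y :=
  ⟨L y * (L x)⁻¹, mul_mem (L_mem y) (inv_mem (L_mem x)), by
    show y * ld x x = y
    rw [ld_self, lmul_one]⟩

end

section hom
variable {Q : Type u} {P : Type v} [Loop Q] [Loop P]

/-- Surjective multiplicative maps induce maps on multiplication groups. -/
theorem exists_induced {f : Q → P} (hf : ∀ x y, f (x * y) = f x * f y)
    {g : Perm Q} (hg : g ∈ Mlt Q) : ∃ g' ∈ Mlt P, ∀ x, f (g x) = g' (f x) := by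
  refine Subgroup.closure_induction (p := fun g _ => ∃ g' ∈ Mlt P, ∀ x, f (g x) = g' (f x))
      ?_ ?_ ?_ ?_ hg
  · rintro g (⟨a, rfl⟩ | ⟨a, rfl⟩)
    · exact ⟨L (f a), L_mem _, fun x => hf a x⟩
    · exact ⟨R (f a), R_mem _, fun x => hf x a⟩
  · exact ⟨1, one_mem _, fun x => rfl⟩
  · rintro g h _ _ ⟨g', hg', eg⟩ ⟨h', hh', eh⟩
    exact ⟨g' * h', mul_mem hg' hh', fun x => by rw [Perm.mul_apply, eg, eh]; rfl⟩
  · rintro g _ ⟨g', hg', eg⟩
    refine ⟨g'⁻¹, inv_mem hg', fun x => ?_⟩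
    rw [Perm.eq_inv_iff_eq, ← eg, pai]

theorem map_one' {f : Q → P} (hf : ∀ x y, f (x * y) = f x * f y) : f 1 = 1 := by
  have h := hf 1 1
  rw [lmul_one] at h
  have h2 : f 1 * f 1 = f 1 * 1 := by rw [← h, lmul_one]
  exact (mul_left_cancel_iff' _ _ _).1 h2

theorem map_ld {f : Q → P} (hf : ∀ x y, f (x * y) = f x * f y) (a b : Q) :
    f (ld a b) = ld (f a) (f b) := by
  rw [eq_ld_iff, ← hf, mul_ld]

theorem map_rd {f : Q → P} (hf : ∀ x y, f (x * y) = f x * f y) (a b : Q) :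
    f (rd a b) = rd (f a) (f b) := by
  rw [eq_rd_iff, ← hf, rd_mul]

theorem map_T {f : Q → P} (hf : ∀ x y, f (x * y) = f x * f y) (x y : Q) :
    f (T x y) = T (f x) (f y) := by
  rw [T_apply, T_apply, map_rd hf, hf]

theorem map_l {f : Q → P} (hf : ∀ x y, f (x * y) = f x * f y) (x y z : Q) :
    f (l x y z) = l (f x) (f y) (f z) := by
  rw [l_apply, l_apply, map_ld hf, hf, hf, hf]

theorem map_r {f : Q → P} (hf : ∀ x y, f (x * y) = f x * f y) (x y z : Q) :
    f (r x y z) = r (f x) (f y) (f z) := by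
  rw [r_apply, r_apply, map_rd hf, hf, hf, hf]

theorem map_A {f : Q → P} (hf : ∀ x y, f (x * y) = f x * f y) (x y z : Q) :
    f (A x y z) = A (f x) (f y) (f z) := by
  rw [A_apply, A_apply, map_ld hf, map_rd hf, hf, hf]

/-- each generator of the image loop is induced by a generator -/
theorem gens_lift {f : Q → P} (hf : ∀ x y, f (x * y) = f x * f y) (hs : Function.Surjective f)
    {g' : Perm P} (hg : g' ∈ gens P) : ∃ g ∈ gens Q, ∀ x, f (g x) = g' (f x) := by
  rcases hg with (⟨x, rfl⟩ | ⟨x, y, rfl⟩ | ⟨x, y, rfl⟩)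
  · obtain ⟨x, rfl⟩ := hs x
    exact ⟨T x, Or.inl ⟨x, rfl⟩, fun z => map_T hf x z⟩
  · obtain ⟨x, rfl⟩ := hs x
    obtain ⟨y, rfl⟩ := hs y
    exact ⟨l x y, Or.inr (Or.inl ⟨x, y, rfl⟩), fun z => map_l hf x y z⟩
  · obtain ⟨x, rfl⟩ := hs x
    obtain ⟨y, rfl⟩ := hs y
    exact ⟨r x y, Or.inr (Or.inr ⟨x, y, rfl⟩), fun z => map_r hf x y z⟩

/-- every inner mapping of the image loop is induced by an inner mapping -/
theorem inner_lift {f : Q → P} (hf : ∀ x y, f (x * y) = f x * f y) (hs : Function.Surjective f)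
    {g' : Perm P} (hg : g' ∈ St (1 : P)) : ∃ g ∈ St (1 : Q), ∀ x, f (g x) = g' (f x) := by
  rw [St_one_eq_closure] at hg
  refine Subgroup.closure_induction (p := fun g' _ => ∃ g ∈ St (1 : Q), ∀ x, f (g x) = g' (f x))
      ?_ ?_ ?_ ?_ hg
  · intro g' h
    obtain ⟨g, hg, e⟩ := gens_lift hf hs h
    exact ⟨g, gens_sub hg, e⟩
  · exact ⟨1, one_mem _, fun x => rfl⟩
  · rintro g' h' _ _ ⟨g, hg, eg⟩ ⟨h, hh, eh⟩
    exact ⟨g * h, mul_mem hg hh, fun x => by rw [Perm.mul_apply, eg, eh]; rfl⟩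
  · rintro g' _ ⟨g, hg, eg⟩
    refine ⟨g⁻¹, inv_mem hg, fun x => ?_⟩
    rw [Perm.eq_inv_iff_eq, ← eg, pai]

/-- an inner mapping induces an inner mapping -/
theorem inner_induced {f : Q → P} (hf : ∀ x y, f (x * y) = f x * f y)
    {g : Perm Q} (hg : g ∈ St (1 : Q)) : ∃ g' ∈ St (1 : P), ∀ x, f (g x) = g' (f x) := by
  obtain ⟨g', hg', e⟩ := exists_induced hf hg.1
  refine ⟨g', ⟨hg', ?_⟩, e⟩
  show g' 1 = 1
  have h1 : g 1 = 1 := hg.2
  rw [← map_one' hf, ← e, h1]

theorem AIM.image {f : Q → P} (hf : ∀ x y, f (x * y) = f x * f y) (hs : Function.Surjective f)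
    (hQ : AIM Q) : AIM P := by
  intro g' hg' h' hh'
  obtain ⟨g, hg, eg⟩ := inner_lift hf hs hg'
  obtain ⟨h, hh, eh⟩ := inner_lift hf hs hh'
  ext x
  obtain ⟨x, rfl⟩ := hs x
  rw [Perm.mul_apply, Perm.mul_apply, ← eh, ← eg, ← eg, ← eh]
  have := hQ g hg h hh
  rw [← Perm.mul_apply, ← Perm.mul_apply, this]

end hom

section quot
variable {Q : Type u} [Loop Q]

/-- invariance of an equivalence relation under the multiplication group -/
def Inv (s : Setoid Q) : Prop := ∀ g ∈ Mlt Q, ∀ x y, s x y → s (g x) (g y)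

theorem Inv.mul {s : Setoid Q} (hs : Inv s) {a b c d : Q} (h1 : s a b) (h2 : s c d) :
    s (a * c) (b * d) :=
  s.trans (hs (R c) (R_mem c) a b h1) (hs (L b) (L_mem b) c d h2)

theorem Inv.ld {s : Setoid Q} (hs : Inv s) {a b c d : Q} (h1 : s a b) (h2 : s c d) :
    s (ld a c) (ld b d) := by
  have h3 : s (LpAim.ld a c) (LpAim.ld a d) := hs (L a)⁻¹ (inv_mem (L_mem a)) c d h2
  refine s.trans h3 ?_
  -- a * (a \ d) = d = b * (b \ d)
  have h4 : s (b * (LpAim.ld a d)) d := by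
    have : s (a * LpAim.ld a d) (b * LpAim.ld a d) := hs (R _) (R_mem _) a b h1
    rw [mul_ld] at this
    exact s.symm this
  have h5 := hs (L b)⁻¹ (inv_mem (L_mem b)) _ _ h4
  simpa [ld_mul] using h5

theorem Inv.rd {s : Setoid Q} (hs : Inv s) {a b c d : Q} (h1 : s a b) (h2 : s c d) :
    s (rd a c) (rd b d) := by
  have h3 : s (LpAim.rd a c) (LpAim.rd b c) := hs (R c)⁻¹ (inv_mem (R_mem c)) a b h1
  refine s.trans h3 ?_
  have h4 : s (LpAim.rd b c * d) b := by
    have : s (LpAim.rd b c * c) (LpAim.rd b c * d) := hs (L _) (L_mem _) c d h2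
    rw [rd_mul] at this
    exact s.symm this
  have h5 := hs (R d)⁻¹ (inv_mem (R_mem d)) _ _ h4
  simpa [mul_rd] using h5

/-- The quotient loop. -/
def LQ (s : Setoid Q) (_ : Inv s) : Type u := Quotient s

/-- The projection. -/
def pr (s : Setoid Q) (hs : Inv s) : Q → LQ s hs := fun x => Quotient.mk s x

theorem pr_surj (s : Setoid Q) (hs : Inv s) : Function.Surjective (pr s hs) :=
  fun x => Quotient.exists_rep x

theorem pr_eq (s : Setoid Q) (hs : Inv s) (x y : Q) : pr s hs x = pr s hs y ↔ s x y :=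
  Quotient.eq

instance (s : Setoid Q) (hs : Inv s) : Loop (LQ s hs) where
  mul := Quotient.map₂ (· * ·) (fun _ _ h1 _ _ h2 => hs.mul h1 h2)
  one := Quotient.mk s 1
  ld := Quotient.map₂ LpAim.ld (fun _ _ h1 _ _ h2 => hs.ld h1 h2)
  rd := Quotient.map₂ LpAim.rd (fun _ _ h1 _ _ h2 => hs.rd h1 h2)
  one_mul' := by rintro ⟨a⟩; exact congrArg (Quotient.mk s) (lone_mul a)
  mul_one' := by rintro ⟨a⟩; exact congrArg (Quotient.mk s) (lmul_one a)
  mul_ld := by rintro ⟨a⟩ ⟨b⟩; exact congrArg (Quotient.mk s) (mul_ld a b)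
  ld_mul := by rintro ⟨a⟩ ⟨b⟩; exact congrArg (Quotient.mk s) (ld_mul a b)
  rd_mul := by rintro ⟨a⟩ ⟨b⟩; exact congrArg (Quotient.mk s) (rd_mul a b)
  mul_rd := by rintro ⟨a⟩ ⟨b⟩; exact congrArg (Quotient.mk s) (mul_rd a b)

theorem pr_mul (s : Setoid Q) (hs : Inv s) (x y : Q) : pr s hs (x * y) = pr s hs x * pr s hs y :=
  rfl

theorem AIM.quot (hQ : AIM Q) (s : Setoid Q) (hs : Inv s) : AIM (LQ s hs) :=
  hQ.image (pr_mul s hs) (pr_surj s hs)

variable (Q) in
/-- The center congruence: equality of stabilizers. -/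
def cen : Setoid Q where
  r x y := St x = St y
  iseqv := ⟨fun _ => rfl, fun h => h.symm, fun h1 h2 => h1.trans h2⟩

theorem cen_iff (x y : Q) : (cen Q) x y ↔ St x = St y := Iff.rfl

theorem St_apply {g : Perm Q} (hg : g ∈ Mlt Q) (x : Q) (h : Perm Q) :
    h ∈ St (g x) ↔ g⁻¹ * h * g ∈ St x := by
  constructor
  · intro hh
    have := conj_St (inv_mem hg) hh
    simpa using this
  · intro hh
    have := conj_St hg hh
    have e : g * (g⁻¹ * h * g) * g⁻¹ = h := by group
    rwa [e] at this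

theorem cen_inv : Inv (cen Q) := by
  intro g hg x y hxy
  rw [cen_iff] at hxy ⊢
  ext h
  rw [St_apply hg, St_apply hg, hxy]

/-- Nilpotent loops. -/
inductive Nilp : (Q : Type u) → Loop Q → Prop
  | triv (Q : Type u) (i : Loop Q) (h : Subsingleton Q) : Nilp Q i
  | step (Q : Type u) (i : Loop Q) (h : Nilp (@LQ Q i (@cen Q i) (@cen_inv Q i)) inferInstance) :
      Nilp Q i

end quot

end LpAim
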