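import Pool.Agent.Helper548.LoopBasic

/-!
# The center, the second center and the pairings on a loop with abelian inner mapping group
-/

namespace LpAim

open Equiv

universe u v

section center
variable {Q : Type u} [Loop Q]

variable (Q) in
/-- The center: the elements fixed by all inner mappings. -/
def Zn : Type u := {z : Q // ∀ g ∈ St (1 : Q), g z = z}

/-- the element of the loop -/
def Zn.val (z : Zn Q) : Q := z.1

theorem Zn.ext {z w : Zn Q} (h : z.val = w.val) : z = w := Subtype.ext h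

theorem Zn.fix (z : Zn Q) {g : Perm Q} (hg : g ∈ St (1 : Q)) : g z.val = z.val := z.2 g hg

theorem Zn.comm (z : Zn Q) (x : Q) : z.val * x = x * z.val := by
  have h := z.fix (T_mem x)
  rw [T_apply] at h
  have h2 := (eq_rd_iff x (x * z.val) z.val).1 h.symm
  exact h2

theorem Zn.Lz (z : Zn Q) (a x : Q) : a * (x * z.val) = (a * x) * z.val := by
  have h := z.fix (l_mem a x)
  rw [l_apply] at h
  exact ((eq_ld_iff _ _ _).1 h.symm).symm

theorem Zn.Rz (z : Zn Q) (a x : Q) : (x * z.val) * a = (x * a) * z.val := by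
  have h := z.fix (A_mem x a)
  rw [A_apply] at h
  have h2 := (eq_ld_iff _ _ _).1 h.symm
  have h3 := (eq_rd_iff _ _ _).1 h2
  rw [h3, z.comm, z.Lz]

/-- central translations commute with the multiplication group -/
theorem Zn.act (z : Zn Q) {g : Perm Q} (hg : g ∈ Mlt Q) (x : Q) : g (x * z.val) = g x * z.val := by
  refine Subgroup.closure_induction (p := fun g _ => ∀ x, g (x * z.val) = g x * z.val)
      ?_ ?_ ?_ ?_ hg x
  · rintro g (⟨a, rfl⟩ | ⟨a, rfl⟩) x
    · exact z.Lz a x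
    · exact z.Rz a x
  · intro x; rfl
  · intro g h _ _ ihg ihh x
    rw [Perm.mul_apply, ihh, ihg]; rfl
  · intro g _ ih x
    rw [Perm.inv_eq_iff_eq, ih, pai]

theorem Zn.mul_fix (z w : Zn Q) : ∀ g ∈ St (1 : Q), g (z.val * w.val) = z.val * w.val := by
  intro g hg
  rw [w.act hg.1, z.fix hg]

theorem Zn.ld_one_mul (z : Zn Q) : ld z.val 1 * z.val = 1 := by
  rw [← z.comm, mul_ld]

theorem Zn.inv_fix (z : Zn Q) : ∀ g ∈ St (1 : Q), g (ld z.val 1) = ld z.val 1 := by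
  intro g hg
  have h1 : g (ld z.val 1 * z.val) = g (ld z.val 1) * z.val := z.act hg.1 _
  rw [z.ld_one_mul] at h1
  have h2 : g 1 = 1 := hg.2
  rw [h2] at h1
  rw [← mul_right_cancel_iff' z.val, ← h1, z.ld_one_mul]

theorem one_fix : ∀ g ∈ St (1 : Q), g (1 : Q) = 1 := fun _ hg => hg.2

instance : Add (Zn Q) := ⟨fun z w => ⟨z.val * w.val, z.mul_fix w⟩⟩
instance : Zero (Zn Q) := ⟨⟨1, one_fix⟩⟩
instance : Neg (Zn Q) := ⟨fun z => ⟨ld z.val 1, z.inv_fix⟩⟩

instance : AddCommGroup (Zn Q) where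
  add_assoc a b c := Zn.ext (c.Lz a.val b.val).symm
  zero_add a := Zn.ext (lone_mul _)
  add_zero a := Zn.ext (lmul_one _)
  neg_add_cancel a := Zn.ext a.ld_one_mul
  add_comm a b := Zn.ext (a.comm b.val)
  nsmul := nsmulRec
  zsmul := zsmulRec

theorem Zn.val_add (z w : Zn Q) : (z + w).val = z.val * w.val := rfl
theorem Zn.val_zero : (0 : Zn Q).val = 1 := rfl

theorem mul_add_z (x : Q) (z w : Zn Q) : x * (z + w).val = (x * z.val) * w.val := by
  rw [Zn.val_add, w.Lz]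

theorem mul_zero_z (x : Q) : x * (0 : Zn Q).val = x := by rw [Zn.val_zero, lmul_one]

theorem mul_neg_z (x : Q) (z : Zn Q) : (x * z.val) * (-z).val = x := by
  rw [← mul_add_z, add_neg_cancel, mul_zero_z]

theorem mul_z_inj {x : Q} {z w : Zn Q} (h : x * z.val = x * w.val) : z = w :=
  Zn.ext ((mul_left_cancel_iff' _ _ _).1 h)

theorem cen_iff' (x y : Q) : (cen Q) x y ↔ ∃ z : Zn Q, y = x * z.val := by
  constructor
  · intro h
    rw [cen_iff] at h
    refine ⟨⟨ld x y, ?_⟩, (mul_ld x y).symm⟩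
    intro g hg
    have h1 : L x * g * (L x)⁻¹ ∈ St (L x 1) := conj_St (L_mem x) hg
    rw [L_apply, lmul_one, h] at h1
    have h2 : (L x * g * (L x)⁻¹) y = y := h1.2
    simp only [Perm.mul_apply, L_inv_apply] at h2
    rw [eq_ld_iff]
    exact h2
  · rintro ⟨z, rfl⟩
    rw [cen_iff]
    ext g
    constructor
    · rintro ⟨hg, hx⟩
      have hx' : g x = x := hx
      exact ⟨hg, by show g (x * z.val) = x * z.val; rw [z.act hg, hx']⟩
    · rintro ⟨hg, hx⟩
      refine ⟨hg, ?_⟩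
      have hx' : g (x * z.val) = x * z.val := hx
      rw [z.act hg] at hx'
      exact (mul_right_cancel_iff' _ _ _).1 hx'

theorem cen_mul (x : Q) (z : Zn Q) : (cen Q) x (x * z.val) := (cen_iff' _ _).2 ⟨z, rfl⟩

open Classical in
/-- The central difference `x \ y` of two elements congruent modulo the center. -/
noncomputable def dz (x y : Q) : Zn Q :=
  if h : ∃ z : Zn Q, y = x * z.val then h.choose else 0

theorem dz_spec {x y : Q} (h : (cen Q) x y) : y = x * (dz x y).val := by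
  have h' := (cen_iff' _ _).1 h
  have e : dz x y = h'.choose := dif_pos h'
  rw [e]
  exact h'.choose_spec

theorem dz_eq {x y : Q} {z : Zn Q} (h : y = x * z.val) : dz x y = z := by
  have h2 := dz_spec ((cen_iff' x y).2 ⟨z, h⟩)
  exact mul_z_inj (h2.symm.trans h)

theorem dz_self (x : Q) : dz x x = 0 := dz_eq (mul_zero_z x).symm

/-- central relation in terms of the quotient -/
theorem pr_cen (x y : Q) : pr (cen Q) cen_inv x = pr (cen Q) cen_inv y ↔ (cen Q) x y :=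
  pr_eq _ _ _ _

/-! ### consequences of centrality of an associator or commutator -/

theorem assoc_A {x y z : Q} {a : Zn Q} (h : l x y z = z * a.val) : A x z y = y * a.val := by
  rw [l_apply] at h
  have h1 := ((eq_ld_iff _ _ _).1 h.symm)
  rw [a.Lz] at h1
  rw [A_apply, ← h1]
  have h2 : rd (((x * y) * z) * a.val) z = (x * y) * a.val := by
    symm; rw [eq_rd_iff, a.Rz]
  rw [h2]
  symm; rw [eq_ld_iff, a.Lz]

theorem assoc_r {x y z : Q} {a : Zn Q} (h : l x y z = z * a.val) : r y z x = x * (-a).val := by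
  rw [l_apply] at h
  have h1 := ((eq_ld_iff _ _ _).1 h.symm)
  rw [a.Lz] at h1
  rw [r_apply]
  symm
  rw [eq_rd_iff, (-a).Rz, ← h1, mul_neg_z]

theorem comm_T {x y : Q} {a : Zn Q} (h : T x y = y * a.val) : T y x = x * (-a).val := by
  rw [T_apply] at h
  have h1 := ((eq_rd_iff _ _ _).1 h.symm)
  rw [a.Rz] at h1
  rw [T_apply]
  symm
  rw [eq_rd_iff, (-a).Rz, ← h1, mul_neg_z]

end center

section second
variable {Q : Type u} [Loop Q]

/-- elements of the second center -/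
def IsZ2 (c : Q) : Prop := ∀ h ∈ St (1 : Q), (cen Q) c (h c)

/-- The quotient by the center. -/
abbrev QZ (Q : Type u) [Loop Q] : Type u := LQ (cen Q) cen_inv

/-- projection to the quotient by the center -/
abbrev pz (x : Q) : QZ Q := pr (cen Q) cen_inv x

theorem pz_mul (x y : Q) : pz (x * y) = pz x * pz y := rfl
theorem pz_surj : Function.Surjective (pz : Q → QZ Q) := pr_surj _ _
theorem pz_eq (x y : Q) : pz x = pz y ↔ (cen Q) x y := pr_eq _ _ _ _
theorem pz_one : pz (1 : Q) = 1 := rfl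
theorem pz_ld (x y : Q) : pz (ld x y) = ld (pz x) (pz y) := rfl
theorem pz_rd (x y : Q) : pz (rd x y) = rd (pz x) (pz y) := rfl

theorem isZ2_iff (c : Q) : IsZ2 c ↔ ∀ g ∈ St (1 : QZ Q), g (pz c) = pz c := by
  constructor
  · intro h g hg
    obtain ⟨g', hg', e⟩ := inner_lift (f := pz) pz_mul pz_surj hg
    rw [← e, eq_comm, pz_eq]
    exact h g' hg'
  · intro h g hg
    obtain ⟨g', hg', e⟩ := inner_induced (f := pz) pz_mul hg
    rw [← pz_eq, e]
    exact (h g' hg').symm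

/-- the image in the center of the quotient -/
def IsZ2.toZ {c : Q} (h : IsZ2 c) : Zn (QZ Q) := ⟨pz c, (isZ2_iff c).1 h⟩

theorem IsZ2.toZ_val {c : Q} (h : IsZ2 c) : h.toZ.val = pz c := rfl

theorem isZ2_of_z {c : Q} (z : Zn (QZ Q)) (h : pz c = z.val) : IsZ2 c := by
  rw [isZ2_iff, h]
  intro g hg
  exact z.fix hg

/-- derived elements -/
def NN (Q : Type u) [Loop Q] : Subgroup (Perm Q) := Subgroup.closure {g | ∃ x : Q, g ∈ St x}

theorem NN_le : NN Q ≤ Mlt Q := by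
  refine (Subgroup.closure_le _).2 ?_
  rintro g ⟨x, hx⟩
  exact hx.1

theorem St_le_NN (x : Q) : St x ≤ NN Q := fun _ hg => Subgroup.subset_closure ⟨x, hg⟩

/-- `c` is in the orbit of `1` under the normal closure of the inner mapping group. -/
def Der (c : Q) : Prop := ∃ g ∈ NN Q, g 1 = c

theorem der_one : Der (1 : Q) := ⟨1, one_mem _, rfl⟩

theorem Der.apply {c : Q} (hc : Der c) {g : Perm Q} (hg : g ∈ NN Q) : Der (g c) := by
  obtain ⟨k, hk, rfl⟩ := hc
  exact ⟨g * k, mul_mem hg hk, rfl⟩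

theorem NN_conj {g h : Perm Q} (hg : g ∈ Mlt Q) (hh : h ∈ NN Q) : g * h * g⁻¹ ∈ NN Q := by
  refine Subgroup.closure_induction (p := fun h _ => g * h * g⁻¹ ∈ NN Q) ?_ ?_ ?_ ?_ hh
  · rintro h ⟨x, hx⟩
    exact St_le_NN _ (conj_St hg hx)
  · simp [one_mem]
  · intro a b _ _ ha hb
    have : g * (a * b) * g⁻¹ = (g * a * g⁻¹) * (g * b * g⁻¹) := by group
    rw [this]; exact mul_mem ha hb
  · intro a _ ha
    have : g * a⁻¹ * g⁻¹ = (g * a * g⁻¹)⁻¹ := by group
    rw [this]; exact inv_mem ha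

/-- if `h` lies in the normal closure then `x \ h x` is derived -/
theorem der_ld {h : Perm Q} (hh : h ∈ NN Q) (x : Q) : Der (ld x (h x)) := by
  refine ⟨(L x)⁻¹ * h * L x, ?_, ?_⟩
  · have := NN_conj ((Mlt Q).inv_mem (L_mem x)) hh
    simpa using this
  · simp only [Perm.mul_apply, L_apply, lmul_one, L_inv_apply]

theorem der_ldS {h : Perm Q} (hh : h ∈ St (1 : Q)) (x : Q) : Der (ld x (h x)) :=
  der_ld (St_le_NN _ hh) x

/-- if `c` is derived then the translations by `c` are in the normal closure -/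
theorem Der.R_mem {c : Q} (hc : Der c) : R c ∈ NN Q := by
  obtain ⟨k, hk, e⟩ := hc
  have h1 : k⁻¹ * R c ∈ St (1 : Q) := by
    refine ⟨(Mlt Q).mul_mem ((Mlt Q).inv_mem (NN_le hk)) (LpAim.R_mem c), ?_⟩
    show (k⁻¹ * R c) 1 = 1
    rw [Perm.mul_apply, R_apply, lone_mul, ← e, pia]
  have h2 : R c = k * (k⁻¹ * R c) := by group
  rw [h2]
  exact mul_mem hk (St_le_NN _ h1)

theorem Der.mul {c d : Q} (hc : Der c) (hd : Der d) : Der (c * d) := hc.apply hd.R_mem

/-- permutations acting by central elements -/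
def K1 (φ : Perm Q) : Prop := φ ∈ Mlt Q ∧ ∀ x, (cen Q) x (φ x)

theorem K1.comm (hQ : AIM Q) {φ : Perm Q} (hφ : K1 φ) {x : Q} {g : Perm Q} (hg : g ∈ St x) :
    φ * g = g * φ := by
  set z := dz x (φ x) with hz
  have hx : φ x = x * z.val := dz_spec (hφ.2 x)
  have hk : (R z.val)⁻¹ * φ ∈ St x := by
    refine ⟨(Mlt Q).mul_mem ((Mlt Q).inv_mem (R_mem _)) hφ.1, ?_⟩
    show ((R z.val)⁻¹ * φ) x = x
    rw [Perm.mul_apply, hx, R_inv_apply, mul_rd]
  have h1 := hQ.comm_at hk hg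
  have h2 : R z.val * g = g * R z.val := by
    ext w
    simp only [Perm.mul_apply, R_apply]
    rw [z.act hg.1]
  calc φ * g = R z.val * (((R z.val)⁻¹ * φ) * g) := by group
    _ = (R z.val * g) * ((R z.val)⁻¹ * φ) := by rw [h1]; group
    _ = g * φ := by rw [h2]; group

theorem K1.commN (hQ : AIM Q) {φ : Perm Q} (hφ : K1 φ) {g : Perm Q} (hg : g ∈ NN Q) :
    φ * g = g * φ := by
  refine Subgroup.closure_induction (p := fun g _ => φ * g = g * φ) ?_ ?_ ?_ ?_ hg
  · rintro g ⟨x, hx⟩; exact hφ.comm hQ hx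
  · simp
  · intro a b _ _ ha hb; rw [← mul_assoc, ha, mul_assoc, hb, mul_assoc]
  · intro a _ ha
    have : (Commute φ a) := ha
    exact this.inv_right

theorem K1.apply_der (hQ : AIM Q) {φ : Perm Q} (hφ : K1 φ) {c : Q} (hc : Der c) :
    φ c = c * (dz 1 (φ 1)).val := by
  obtain ⟨g, hg, rfl⟩ := hc
  have h1 := hφ.commN hQ hg
  have h2 : φ (g 1) = g (φ 1) := by
    rw [← Perm.mul_apply, h1]; rfl
  rw [h2]
  have h3 := dz_spec (hφ.2 1)
  conv_lhs => rw [h3]
  rw [(dz 1 (φ 1)).act (NN_le hg)]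

theorem K1.fix_der (hQ : AIM Q) {φ : Perm Q} (hφ : K1 φ) (h1 : φ 1 = 1) {c : Q} (hc : Der c) :
    φ c = c := by
  rw [hφ.apply_der hQ hc, h1, dz_self, mul_zero_z]

/-- translations by elements of the second center commute modulo the center -/
theorem cen_mulZ2 {c : Q} (hc : IsZ2 c) {g : Perm Q} (hg : g ∈ Mlt Q) (w : Q) :
    (cen Q) (g w * c) (g (w * c)) := by
  obtain ⟨g', hg', e⟩ := exists_induced (f := (pz : Q → QZ Q)) pz_mul hg
  rw [← pz_eq, pz_mul, e, e, pz_mul, ← hc.toZ_val, hc.toZ.act hg']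

theorem K1_commR {c : Q} (hc : IsZ2 c) {g : Perm Q} (hg : g ∈ Mlt Q) :
    K1 (g⁻¹ * (R c)⁻¹ * g * R c) := by
  refine ⟨(Mlt Q).mul_mem ((Mlt Q).mul_mem ((Mlt Q).mul_mem ((Mlt Q).inv_mem hg)
    ((Mlt Q).inv_mem (R_mem c))) hg) (R_mem c), fun x => ?_⟩
  obtain ⟨z, hz⟩ := (cen_iff' _ _).1 (cen_mulZ2 hc hg x)
  simp only [Perm.mul_apply, R_apply]
  rw [hz, R_inv_apply]
  have : rd (g x * c * z.val) c = g x * z.val := by
    symm; rw [eq_rd_iff, z.Rz]
  rw [this, z.act ((Mlt Q).inv_mem hg), pia]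
  exact cen_mul x z

/-- the pairing of the inner mapping group with the second center -/
noncomputable def zt (h : Perm Q) (c : Q) : Zn Q := dz c (h c)

theorem zt_spec {h : Perm Q} (hh : h ∈ St (1 : Q)) {c : Q} (hc : IsZ2 c) :
    h c = c * (zt h c).val := dz_spec (hc h hh)

theorem zt_of_eq {h : Perm Q} {c : Q} {z : Zn Q} (e : h c = c * z.val) : zt h c = z := dz_eq e

theorem zt_mul_left {g h : Perm Q} (hg : g ∈ St (1 : Q)) (hh : h ∈ St (1 : Q)) {c : Q}
    (hc : IsZ2 c) : zt (g * h) c = zt g c + zt h c := by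
  apply zt_of_eq
  rw [Perm.mul_apply, zt_spec hh hc, (zt h c).act hg.1, zt_spec hg hc, ← mul_add_z]

theorem zt_inv_left {g : Perm Q} (hg : g ∈ St (1 : Q)) {c : Q} (hc : IsZ2 c) :
    zt g⁻¹ c = - zt g c := by
  have h1 := zt_mul_left (inv_mem hg) hg hc
  have h2 : zt (g⁻¹ * g) c = 0 := by
    apply zt_of_eq; rw [inv_mul_cancel, mul_zero_z]; rfl
  rw [h2] at h1
  exact eq_neg_of_add_eq_zero_left h1.symm

/-- The basic product rule. -/
theorem mulZ2 (hQ : AIM Q) {h : Perm Q} (hh : h ∈ St (1 : Q)) {c : Q} (hc : IsZ2 c) {w : Q}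
    (hw : Der w) : h (w * c) = (h w * c) * (zt h c).val := by
  have hK := K1_commR hc hh.1
  have h1 : h 1 = 1 := hh.2
  have e1 : (h⁻¹ * (R c)⁻¹ * h * R c) 1 = 1 * (zt h c).val := by
    simp only [Perm.mul_apply, R_apply, lone_mul]
    rw [zt_spec hh hc]
    have : (R c)⁻¹ (c * (zt h c).val) = (zt h c).val := by
      rw [R_inv_apply]; symm; rw [eq_rd_iff, (zt h c).comm]
    rw [this]
    exact (zt h c).fix (inv_mem hh)
  have e2 := hK.apply_der hQ hw
  rw [dz_eq e1] at e2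
  have e3 : h * R c = R c * h * (h⁻¹ * (R c)⁻¹ * h * R c) := by group
  have e4 : h (w * c) = (h * R c) w := rfl
  rw [e4, e3, Perm.mul_apply, e2]
  simp only [Perm.mul_apply, R_apply]
  rw [(zt h c).act hh.1, (zt h c).Rz]

theorem zt_mul_right (hQ : AIM Q) {h : Perm Q} (hh : h ∈ St (1 : Q)) {c d : Q} (hc : IsZ2 c)
    (hd : IsZ2 d) (hw : Der c) : zt h (c * d) = zt h c + zt h d := by
  apply zt_of_eq
  rw [mulZ2 hQ hh hd hw, zt_spec hh hc, (zt h c).Rz, mul_add_z]

theorem zt_congr {h : Perm Q} (hh : h ∈ St (1 : Q)) {c d : Q} (hc : IsZ2 c)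
    (hcd : (cen Q) c d) : zt h d = zt h c := by
  obtain ⟨z, rfl⟩ := (cen_iff' _ _).1 hcd
  apply zt_of_eq
  rw [z.act hh.1, zt_spec hh hc, ← mul_add_z, ← mul_add_z, add_comm]

theorem IsZ2.congr {c d : Q} (hc : IsZ2 c) (hcd : (cen Q) c d) : IsZ2 d := by
  rw [isZ2_iff] at hc ⊢
  rw [← (pz_eq c d).2 hcd]; exact hc

theorem IsZ2.mul {c d : Q} (hc : IsZ2 c) (hd : IsZ2 d) : IsZ2 (c * d) :=
  isZ2_of_z (hc.toZ + hd.toZ) rfl

theorem isZ2_one : IsZ2 (1 : Q) := isZ2_of_z 0 rfl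

theorem zt_central {h : Perm Q} (hh : h ∈ St (1 : Q)) {c : Q} (hc : (cen Q) 1 c) :
    zt h c = 0 := by
  rw [zt_congr hh isZ2_one hc]
  apply zt_of_eq
  rw [mul_zero_z]; exact hh.2

theorem IsZ2.comm_der (hQ : AIM Q) {c d : Q} (hc : IsZ2 c) (hd : Der d) : c * d = d * c := by
  have hK : K1 (T c) := by
    refine ⟨T_mem_Mlt c, fun x => ?_⟩
    rw [← pz_eq, T_apply, pz_rd, pz_mul, ← hc.toZ_val, hc.toZ.comm, mul_rd]
  have h1 : T c 1 = 1 := (T_mem c).2
  have h2 := hK.fix_der hQ h1 hd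
  rw [T_apply] at h2
  exact ((eq_rd_iff _ _ _).1 h2.symm).symm

/-- The fundamental symmetry. -/
theorem zt_symm (hQ : AIM Q) {h g : Perm Q} (hh : h ∈ St (1 : Q)) (hg : g ∈ St (1 : Q)) (x : Q)
    (he : IsZ2 (ld x (h x))) (hc : IsZ2 (ld x (g x))) :
    zt h (ld x (g x)) = zt g (ld x (h x)) := by
  set c := ld x (g x) with hcdef
  set e := ld x (h x) with hedef
  have hxc : x * c = g x := mul_ld x _
  have hxe : x * e = h x := mul_ld x _
  have dc : Der c := der_ldS hg x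
  have de : Der e := der_ldS hh x
  -- elements fixing x
  have u1 : (R e)⁻¹ * h ∈ St x := by
    refine ⟨(Mlt Q).mul_mem ((Mlt Q).inv_mem (R_mem _)) hh.1, ?_⟩
    show ((R e)⁻¹ * h) x = x
    rw [Perm.mul_apply, ← hxe, R_inv_apply, mul_rd]
  have u2 : (R c)⁻¹ * g ∈ St x := by
    refine ⟨(Mlt Q).mul_mem ((Mlt Q).inv_mem (R_mem _)) hg.1, ?_⟩
    show ((R c)⁻¹ * g) x = x
    rw [Perm.mul_apply, ← hxc, R_inv_apply, mul_rd]
  have hcomm := hQ.comm_at u1 u2
  have hgh := hQ g hg h hh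
  set φ := h⁻¹ * (R c)⁻¹ * h * R c with hφ
  set χ := g⁻¹ * (R e)⁻¹ * g * R e with hχ
  set θ := (R c)⁻¹ * (R e)⁻¹ * R c * R e with hθ
  have kφ : K1 φ := K1_commR hc hh.1
  have kχ : K1 χ := K1_commR he hg.1
  have kθ : K1 θ := K1_commR he (R_mem c)
  have nR := dc.R_mem
  have nRe := de.R_mem
  have ng := St_le_NN _ hg
  have nh := St_le_NN _ hh
  -- values at 1
  have vφ : φ 1 = (zt h c).val := by
    simp only [hφ, Perm.mul_apply, R_apply, lone_mul]
    rw [zt_spec hh hc]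
    have : (R c)⁻¹ (c * (zt h c).val) = (zt h c).val := by
      rw [R_inv_apply]; symm; rw [eq_rd_iff, (zt h c).comm]
    rw [this]
    exact (zt h c).fix (inv_mem hh)
  have vχ : χ 1 = (zt g e).val := by
    simp only [hχ, Perm.mul_apply, R_apply, lone_mul]
    rw [zt_spec hg he]
    have : (R e)⁻¹ (e * (zt g e).val) = (zt g e).val := by
      rw [R_inv_apply]; symm; rw [eq_rd_iff, (zt g e).comm]
    rw [this]
    exact (zt g e).fix (inv_mem hg)
  have vθ : θ 1 = 1 := by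
    simp only [hθ, Perm.mul_apply, R_apply, lone_mul]
    rw [← hc.comm_der hQ de]
    simp only [R_inv_apply, mul_rd, rd_self]
  -- commutation of phi, chi, theta with everything
  have c1 := kφ.commN hQ nR
  have c2 := kφ.commN hQ nRe
  have c3 := kφ.commN hQ ng
  have c4 := kφ.commN hQ nh
  have d1 := kχ.commN hQ nR
  have d2 := kχ.commN hQ nRe
  have d3 := kχ.commN hQ ng
  have d4 := kχ.commN hQ nh
  have t1 := kθ.commN hQ nR
  have t2 := kθ.commN hQ nRe
  have t3 := kθ.commN hQ ng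
  have t4 := kθ.commN hQ nh
  have key : θ * φ = χ := by
    -- h a = a h φ, g b = b g χ, a b = b a θ
    have e1 : h * R c = R c * h * φ := by rw [hφ]; group
    have e2 : g * R e = R e * g * χ := by rw [hχ]; group
    have e3 : R c * R e = R e * R c * θ := by rw [hθ]; group
    have f1 : h * (R c)⁻¹ = (R c)⁻¹ * h * φ⁻¹ := by
      have : h = R c * h * φ * (R c)⁻¹ := by rw [← e1]; group
      have h2 : φ * (R c)⁻¹ = (R c)⁻¹ * φ := (show Commute φ (R c) from c1).inv_right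
      rw [mul_assoc _ φ, h2] at this
      calc h * (R c)⁻¹ = (R c)⁻¹ * (R c * h * ((R c)⁻¹ * φ)) * φ⁻¹ := by group
        _ = _ := by rw [← this]
    have f2 : g * (R e)⁻¹ = (R e)⁻¹ * g * χ⁻¹ := by
      have : g = R e * g * χ * (R e)⁻¹ := by rw [← e2]; group
      have h2 : χ * (R e)⁻¹ = (R e)⁻¹ * χ := (show Commute χ (R e) from d2).inv_right
      rw [mul_assoc _ χ, h2] at this
      calc g * (R e)⁻¹ = (R e)⁻¹ * (R e * g * ((R e)⁻¹ * χ)) * χ⁻¹ := by group
        _ = _ := by rw [← this]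
    have f3 : (R e)⁻¹ * (R c)⁻¹ = θ⁻¹ * ((R c)⁻¹ * (R e)⁻¹) := by
      have : (R c * R e)⁻¹ = (R e * R c * θ)⁻¹ := by rw [e3]
      simpa [mul_inv_rev, mul_assoc] using this
    -- (b⁻¹ h)(a⁻¹ g) = (a⁻¹ g)(b⁻¹ h)
    have g1 : (R e)⁻¹ * h * ((R c)⁻¹ * g) = θ⁻¹ * φ⁻¹ * ((R c)⁻¹ * (R e)⁻¹ * (g * h)) := by
      calc (R e)⁻¹ * h * ((R c)⁻¹ * g) = (R e)⁻¹ * (h * (R c)⁻¹) * g := by group
        _ = ((R e)⁻¹ * (R c)⁻¹) * (h * φ⁻¹ * g) := by rw [f1]; group
        _ = θ⁻¹ * ((R c)⁻¹ * (R e)⁻¹) * (φ⁻¹ * (h * g)) := by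
            have : h * φ⁻¹ = φ⁻¹ * h := ((show Commute φ h from c4).inv_left).symm
            rw [f3, this]; group
        _ = θ⁻¹ * φ⁻¹ * ((R c)⁻¹ * (R e)⁻¹ * (g * h)) := by
            have h1 : (R c)⁻¹ * (R e)⁻¹ * φ⁻¹ = φ⁻¹ * ((R c)⁻¹ * (R e)⁻¹) := by
              have i1 : Commute φ⁻¹ (R c)⁻¹ := ((show Commute φ (R c) from c1).inv_left).inv_right
              have i2 : Commute φ⁻¹ (R e)⁻¹ := ((show Commute φ (R e) from c2).inv_left).inv_right
              exact (i1.mul_right i2).symm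
            rw [hgh]
            calc θ⁻¹ * ((R c)⁻¹ * (R e)⁻¹) * (φ⁻¹ * (h * g))
                = θ⁻¹ * ((R c)⁻¹ * (R e)⁻¹ * φ⁻¹) * (h * g) := by group
              _ = _ := by rw [h1]; group
    have g2 : (R c)⁻¹ * g * ((R e)⁻¹ * h) = χ⁻¹ * ((R c)⁻¹ * (R e)⁻¹ * (g * h)) := by
      calc (R c)⁻¹ * g * ((R e)⁻¹ * h) = (R c)⁻¹ * (g * (R e)⁻¹) * h := by group
        _ = ((R c)⁻¹ * (R e)⁻¹ * g) * χ⁻¹ * h := by rw [f2]; group
        _ = χ⁻¹ * ((R c)⁻¹ * (R e)⁻¹ * (g * h)) := by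
            have i1 : Commute χ⁻¹ (R c)⁻¹ := ((show Commute χ (R c) from d1).inv_left).inv_right
            have i2 : Commute χ⁻¹ (R e)⁻¹ := ((show Commute χ (R e) from d2).inv_left).inv_right
            have i3 : Commute χ⁻¹ g := (show Commute χ g from d3).inv_left
            have i := ((i1.mul_right i2).mul_right i3).symm
            rw [show (R c)⁻¹ * (R e)⁻¹ * g * χ⁻¹ = χ⁻¹ * ((R c)⁻¹ * (R e)⁻¹ * g) from i]
            group
    rw [g1, g2] at hcomm
    have h5 : θ⁻¹ * φ⁻¹ = χ⁻¹ := mul_right_cancel hcomm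
    have h6 : φ * θ = χ := by
      have := congrArg (·⁻¹) h5
      simpa [mul_inv_rev] using this
    have h7 : φ * θ = θ * φ := by
      -- theta is in NN
      have nθ : θ ∈ NN Q := by
        rw [hθ]
        exact mul_mem (mul_mem (mul_mem (inv_mem nR) (inv_mem nRe)) nR) nRe
      exact kφ.commN hQ nθ
    rw [← h7]; exact h6
  have v := congrArg (fun p : Perm Q => p 1) key
  simp only [Perm.mul_apply] at v
  rw [vφ, vχ] at v
  have hz : θ (zt h c).val = (zt h c).val := by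
    have h1 : (1 : Q) * (zt h c).val = (zt h c).val := lone_mul _
    rw [← h1, (zt h c).act kθ.1, vθ]
  rw [hz] at v
  exact Zn.ext v

end second

end LpAim
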