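import Pool.Agent.Helper548.LoopCenter

/-!
# Loops of class at most three with abelian inner mapping group
-/

namespace LpAim

open Equiv

universe u v

section gen
variable {Q : Type u} [Loop Q]

/-- `Q` is generated by `p, q, r`. -/
def Gen3 (p q r : Q) : Prop := ∀ P : Q → Prop, P p → P q → P r → P 1 →
  (∀ x y, P x → P y → P (x * y)) → (∀ x y, P x → P y → P (ld x y)) →
  (∀ x y, P x → P y → P (rd x y)) → ∀ x, P x

theorem add_zero_of_gen {Z : Type v} [AddCommGroup Z] {p q r : Q} (hg : Gen3 p q r) (f : Q → Z)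
    (hadd : ∀ x y, f (x * y) = f x + f y) (hp : f p = 0) (hq : f q = 0) (hr : f r = 0) :
    ∀ x, f x = 0 := by
  refine hg (fun x => f x = 0) hp hq hr ?_ ?_ ?_ ?_
  · have := hadd 1 1
    rw [lmul_one] at this
    exact (left_eq_add.1 this)
  · intro x y hx hy
    simp only [hadd, hx, hy, add_zero]
  · intro x y hx hy
    have := hadd x (ld x y)
    rw [mul_ld, hx, hy, zero_add] at this
    exact this.symm
  · intro x y hx hy
    have := hadd (rd x y) y
    rw [rd_mul, hx, hy, add_zero] at this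
    exact this.symm

theorem alt4_zero {Z : Type v} [AddCommGroup Z] {p q r : Q} (hg : Gen3 p q r)
    (f : Q → Q → Q → Q → Z)
    (a1 : ∀ x y b c d, f (x * y) b c d = f x b c d + f y b c d)
    (a2 : ∀ x y a c d, f a (x * y) c d = f a x c d + f a y c d)
    (a3 : ∀ x y a b d, f a b (x * y) d = f a b x d + f a b y d)
    (a4 : ∀ x y a b c, f a b c (x * y) = f a b c x + f a b c y)
    (e12 : ∀ x c d, f x x c d = 0) (e13 : ∀ x b d, f x b x d = 0) (e14 : ∀ x b c, f x b c x = 0)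
    (e23 : ∀ x a d, f a x x d = 0) (e24 : ∀ x a c, f a x c x = 0) (e34 : ∀ x a b, f a b x x = 0) :
    ∀ a b c d, f a b c d = 0 := by
  set G : Q → Prop := fun x => x = p ∨ x = q ∨ x = r with hG
  have h0 : ∀ a b c d, G a → G b → G c → G d → f a b c d = 0 := by
    rintro a b c d (rfl | rfl | rfl) (rfl | rfl | rfl) (rfl | rfl | rfl) (rfl | rfl | rfl) <;>
      first
        | exact e12 _ _ _
        | exact e13 _ _ _
        | exact e14 _ _ _
        | exact e23 _ _ _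
        | exact e24 _ _ _
        | exact e34 _ _ _
  have h1 : ∀ a b c, G a → G b → G c → ∀ d, f a b c d = 0 := fun a b c ha hb hc =>
    add_zero_of_gen hg (f a b c) (fun x y => a4 x y a b c) (h0 a b c p ha hb hc (Or.inl rfl))
      (h0 a b c q ha hb hc (Or.inr (Or.inl rfl))) (h0 a b c r ha hb hc (Or.inr (Or.inr rfl)))
  have h2 : ∀ a b, G a → G b → ∀ c d, f a b c d = 0 := fun a b ha hb c d =>
    add_zero_of_gen hg (fun c => f a b c d) (fun x y => a3 x y a b d)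
      (h1 a b p ha hb (Or.inl rfl) d)
      (h1 a b q ha hb (Or.inr (Or.inl rfl)) d) (h1 a b r ha hb (Or.inr (Or.inr rfl)) d) c
  have h3 : ∀ a, G a → ∀ b c d, f a b c d = 0 := fun a ha b c d =>
    add_zero_of_gen hg (fun b => f a b c d) (fun x y => a2 x y a c d)
      (h2 a p ha (Or.inl rfl) c d)
      (h2 a q ha (Or.inr (Or.inl rfl)) c d) (h2 a r ha (Or.inr (Or.inr rfl)) c d) b
  intro a b c d
  exact add_zero_of_gen hg (fun a => f a b c d) (fun x y => a1 x y b c d)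
      (h3 p (Or.inl rfl) b c d)
      (h3 q (Or.inr (Or.inl rfl)) b c d) (h3 r (Or.inr (Or.inr rfl)) b c d) a

theorem alt3_zero {Z : Type v} [AddCommGroup Z] {p q : Q} (hg : Gen3 p q q)
    (f : Q → Q → Q → Z)
    (a1 : ∀ x y b c, f (x * y) b c = f x b c + f y b c)
    (a2 : ∀ x y a c, f a (x * y) c = f a x c + f a y c)
    (a3 : ∀ x y a b, f a b (x * y) = f a b x + f a b y)
    (e12 : ∀ x c, f x x c = 0) (e13 : ∀ x b, f x b x = 0)
    (e23 : ∀ x a, f a x x = 0) :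
    ∀ a b c, f a b c = 0 := by
  set G : Q → Prop := fun x => x = p ∨ x = q with hG
  have h0 : ∀ a b c, G a → G b → G c → f a b c = 0 := by
    rintro a b c (rfl | rfl) (rfl | rfl) (rfl | rfl) <;>
      first
        | exact e12 _ _
        | exact e13 _ _
        | exact e23 _ _
  have h2 : ∀ a b, G a → G b → ∀ c, f a b c = 0 := fun a b ha hb =>
    add_zero_of_gen hg (fun c => f a b c) (fun x y => a3 x y a b)
      (h0 a b p ha hb (Or.inl rfl))
      (h0 a b q ha hb (Or.inr rfl)) (h0 a b q ha hb (Or.inr rfl))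
  have h3 : ∀ a, G a → ∀ b c, f a b c = 0 := fun a ha b c =>
    add_zero_of_gen hg (fun b => f a b c) (fun x y => a2 x y a c)
      (h2 a p ha (Or.inl rfl) c)
      (h2 a q ha (Or.inr rfl) c) (h2 a q ha (Or.inr rfl) c) b
  intro a b c
  exact add_zero_of_gen hg (fun a => f a b c) (fun x y => a1 x y b c)
      (h3 p (Or.inl rfl) b c)
      (h3 q (Or.inr rfl) b c) (h3 q (Or.inr rfl) b c) a

end gen

section pairing
variable {Q : Type u} [Loop Q]

/-- The basic pairing. -/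
noncomputable def Ph (h g : Perm Q) (w : Q) : Zn Q := zt h (ld w (g w))

variable (Q) in
/-- class at most three -/
def Al : Prop := ∀ g ∈ St (1 : Q), ∀ w, IsZ2 (ld w (g w))

variable (Q) in
/-- associators are central -/
def Be : Prop := ∀ x y z : Q, ∃ a : Zn Q, l x y z = z * a.val

theorem pz_of_Al {g : Perm Q} {w : Q} (h : IsZ2 (ld w (g w))) : pz (g w) = pz w * h.toZ.val := by
  rw [h.toZ_val, ← pz_mul, mul_ld]

/-- if `pz (g w) = pz w * a` then `zt h (ld w (g w))` only depends on `a` -/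
theorem pz_ld_eq {g : Perm Q} {w : Q} {a : Zn (QZ Q)} (h : pz (g w) = pz w * a.val) :
    pz (ld w (g w)) = a.val := by
  rw [pz_ld, h, ld_mul]

theorem isZ2_of_pz {g : Perm Q} {w : Q} {a : Zn (QZ Q)} (h : pz (g w) = pz w * a.val) :
    IsZ2 (ld w (g w)) := isZ2_of_z a (pz_ld_eq h)

theorem Ph_eq_of_pz {h : Perm Q} (hh : h ∈ St (1 : Q)) {g g' : Perm Q} {w w' : Q}
    {a : Zn (QZ Q)} (e : pz (g w) = pz w * a.val) (e' : pz (g' w') = pz w' * a.val) :
    Ph h g w = Ph h g' w' := by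
  have h1 := pz_ld_eq e
  have h2 := pz_ld_eq e'
  exact zt_congr hh (isZ2_of_pz e') ((pz_eq _ _).1 (h2.trans h1.symm))

theorem Ph_neg_of_pz (hQ : AIM Q) {h : Perm Q} (hh : h ∈ St (1 : Q)) {g g' : Perm Q} {w w' : Q}
    (hg : g ∈ St (1 : Q))
    {a : Zn (QZ Q)} (e : pz (g w) = pz w * a.val) (e' : pz (g' w') = pz w' * (-a).val) :
    Ph h g' w' = - Ph h g w := by
  have h1 := pz_ld_eq e
  have h2 := pz_ld_eq e'
  have h3 := zt_mul_right hQ hh (isZ2_of_pz e) (isZ2_of_pz e') (der_ldS hg w)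
  have h4 : zt h (ld w (g w) * ld w' (g' w')) = 0 := by
    apply zt_central hh
    rw [← pz_eq, pz_mul, h1, h2, pz_one, ← Zn.val_add, add_neg_cancel]
    rfl
  rw [h4] at h3
  exact eq_neg_of_add_eq_zero_right h3.symm

variable (hQ : AIM Q)

theorem Ph_mul_left {h h' g : Perm Q} (hh : h ∈ St (1 : Q)) (hh' : h' ∈ St (1 : Q)) {w : Q}
    (hz : IsZ2 (ld w (g w))) : Ph (h * h') g w = Ph h g w + Ph h' g w :=
  zt_mul_left hh hh' hz

theorem Ph_inv_left {h g : Perm Q} (hh : h ∈ St (1 : Q)) {w : Q}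
    (hz : IsZ2 (ld w (g w))) : Ph h⁻¹ g w = - Ph h g w :=
  zt_inv_left hh hz

include hQ in
theorem Ph_symm' {h g : Perm Q} (hh : h ∈ St (1 : Q)) (hg : g ∈ St (1 : Q)) {w : Q}
    (h1 : IsZ2 (ld w (h w))) (h2 : IsZ2 (ld w (g w))) : Ph h g w = Ph g h w :=
  zt_symm hQ hh hg w h1 h2

variable (hA : Al Q)

include hQ hA in
theorem Ph_symm {h g : Perm Q} (hh : h ∈ St (1 : Q)) (hg : g ∈ St (1 : Q)) (w : Q) :
    Ph h g w = Ph g h w := Ph_symm' hQ hh hg (hA h hh w) (hA g hg w)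

include hQ hA in
theorem Ph_mul_right {h g g' : Perm Q} (hh : h ∈ St (1 : Q)) (hg : g ∈ St (1 : Q))
    (hg' : g' ∈ St (1 : Q)) (w : Q) : Ph h (g * g') w = Ph h g w + Ph h g' w := by
  rw [Ph_symm hQ hA hh (mul_mem hg hg'), Ph_mul_left hg hg' (hA h hh w),
    Ph_symm hQ hA hg hh, Ph_symm hQ hA hg' hh]

include hQ hA in
theorem Ph_inv_right {h g : Perm Q} (hh : h ∈ St (1 : Q)) (hg : g ∈ St (1 : Q))
    (w : Q) : Ph h g⁻¹ w = - Ph h g w := by
  rw [Ph_symm hQ hA hh (inv_mem hg), Ph_inv_left hg (hA h hh w), Ph_symm hQ hA hg hh]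

include hA in
theorem Ph_A {h : Perm Q} (hh : h ∈ St (1 : Q)) (x y z : Q) :
    Ph h (A x z) y = Ph h (l x y) z := by
  have e := pz_of_Al (hA _ (l_mem x y) z)
  have e2 : pz (A x z y) = pz y * (hA _ (l_mem x y) z).toZ.val := by
    rw [map_A (f := (pz : Q → QZ Q)) pz_mul]
    apply assoc_A
    rw [← map_l (f := (pz : Q → QZ Q)) pz_mul]
    exact e
  exact Ph_eq_of_pz hh e2 e

include hQ hA in
theorem Ph_r {h : Perm Q} (hh : h ∈ St (1 : Q)) (x y z : Q) :
    Ph h (r y z) x = - Ph h (l x y) z := by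
  have e := pz_of_Al (hA _ (l_mem x y) z)
  have e2 : pz (r y z x) = pz x * (-(hA _ (l_mem x y) z).toZ).val := by
    rw [map_r (f := (pz : Q → QZ Q)) pz_mul]
    apply assoc_r
    rw [← map_l (f := (pz : Q → QZ Q)) pz_mul]
    exact e
  exact Ph_neg_of_pz hQ hh (l_mem x y) e e2

include hQ hA in
theorem Ph_T {h : Perm Q} (hh : h ∈ St (1 : Q)) (x y : Q) :
    Ph h (T y) x = - Ph h (T x) y := by
  have e := pz_of_Al (hA _ (T_mem x) y)
  have e2 : pz (T y x) = pz x * (-(hA _ (T_mem x) y).toZ).val := by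
    rw [map_T (f := (pz : Q → QZ Q)) pz_mul]
    apply comm_T
    rw [← map_T (f := (pz : Q → QZ Q)) pz_mul]
    exact e
  exact Ph_neg_of_pz hQ hh (T_mem x) e e2

theorem Ph_T_self {h : Perm Q} (hh : h ∈ St (1 : Q)) (x : Q) : Ph h (T x) x = 0 := by
  unfold Ph
  rw [T_self, ld_self]
  exact zt_central hh ((cen Q).refl 1)

/-- the correction term -/
def mm (g : Perm Q) (w : Q) : Perm Q := (L (g w))⁻¹ * g * L w

theorem mm_mem {g : Perm Q} (hg : g ∈ Mlt Q) (w : Q) : mm g w ∈ St (1 : Q) := by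
  refine ⟨(Mlt Q).mul_mem ((Mlt Q).mul_mem ((Mlt Q).inv_mem (L_mem _)) hg) (L_mem w), ?_⟩
  show mm g w 1 = 1
  simp only [mm, Perm.mul_apply, L_apply, lmul_one, L_inv_apply, ld_self]

include hQ hA in
theorem Ph_mul_arg {h g : Perm Q} (hh : h ∈ St (1 : Q)) (hg : g ∈ St (1 : Q)) (w w' : Q) :
    Ph h g (w * w') = Ph h g w + Ph h (mm g w) w' := by
  have hm := mm_mem hg.1 w
  have z1 := hA g hg w
  have z2 := hA _ hm w'
  have e1 := pz_of_Al z1
  have e2 := pz_of_Al z2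
  have e3 : g (w * w') = g w * mm g w w' := by
    simp only [mm, Perm.mul_apply, L_apply, L_inv_apply, mul_ld]
  have e4 : pz (g (w * w')) = pz (w * w') * (z1.toZ + z2.toZ).val := by
    rw [e3, pz_mul, e1, e2, pz_mul, mul_add_z, z2.toZ.Lz, z1.toZ.Rz]
  have e5 := pz_ld_eq e4
  have h3 := zt_mul_right hQ hh z1 z2 (der_ldS hg w)
  unfold Ph
  rw [← h3]
  refine zt_congr hh (z1.mul z2) ?_
  rw [← pz_eq, e5, pz_mul, Zn.val_add, z1.toZ_val, z2.toZ_val]

include hA in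
theorem Ph_arg_Z2 {h g : Perm Q} (hh : h ∈ St (1 : Q)) (hg : g ∈ St (1 : Q)) (w : Q) {c : Q}
    (hc : IsZ2 c) : Ph h g (w * c) = Ph h g w := by
  have z1 := hA g hg w
  have e1 := pz_of_Al z1
  refine Ph_eq_of_pz hh (a := z1.toZ) ?_ e1
  have h2 := (pz_eq _ _).2 (cen_mulZ2 hc hg.1 w)
  rw [← h2, pz_mul, e1, pz_mul, ← hc.toZ_val, z1.toZ.Rz]

include hA in
theorem Ph_arg_cen {h g : Perm Q} (hh : h ∈ St (1 : Q)) (hg : g ∈ St (1 : Q)) (w : Q)
    (z : Zn Q) : Ph h g (w * z.val) = Ph h g w :=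
  Ph_arg_Z2 hA hh hg w (isZ2_of_z 0 (by
    rw [Zn.val_zero, ← pz_one, eq_comm, pz_eq]
    have := cen_mul (1 : Q) z
    rwa [lone_mul] at this))

include hA in
theorem Ph_arg_comm {h g : Perm Q} (hh : h ∈ St (1 : Q)) (hg : g ∈ St (1 : Q)) (x y : Q) :
    Ph h g (x * y) = Ph h g (y * x) := by
  have z1 := hA _ (T_mem x) y
  have h1 : x * y = (y * ld y (T x y)) * x := by
    rw [mul_ld, T_apply, rd_mul]
  have h2 : pz (x * y) = pz (y * x) * z1.toZ.val := by
    rw [h1, pz_mul, pz_mul, ← z1.toZ_val, z1.toZ.Rz, pz_mul]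
  have h3 : (cen Q) ((y * x) * ld y (T x y)) (x * y) := by
    rw [← pz_eq, h2, pz_mul, z1.toZ_val]
  obtain ⟨z, hz⟩ := (cen_iff' _ _).1 h3
  rw [hz, Ph_arg_cen hA hh hg, Ph_arg_Z2 hA hh hg _ z1]

theorem mm_l (x y z : Q) : mm (l x y) z = (l (x * y) (l x y z))⁻¹ * l x (y * z) * l y z := by
  have h : (x * y) * (l x y z) = x * (y * z) := by rw [l_apply, mul_ld]
  unfold mm
  have : l (x * y) (l x y z) = (L (x * (y * z)))⁻¹ * L (x * y) * L (l x y z) := by
    conv_lhs => unfold l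
    rw [show L ((x * y) * ((L (x * y))⁻¹ * L x * L y) z) = L (x * (y * z)) from by
      rw [← h]; rfl]
    rfl
  rw [this]
  have e2 : l x y = (L (x * y))⁻¹ * L x * L y := rfl
  have e3 : l x (y * z) = (L (x * (y * z)))⁻¹ * L x * L (y * z) := rfl
  have e4 : l y z = (L (y * z))⁻¹ * L y * L z := rfl
  rw [e3, e4]
  generalize hc : l x y z = c
  rw [e2]
  group

include hQ hA in
/-- the 3-cocycle identity -/
theorem Ph_cocycle {h : Perm Q} (hh : h ∈ St (1 : Q)) (x y z w : Q) :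
    Ph h (l x y) (z * w) = Ph h (l x y) z - Ph h (l (x * y) z) w + Ph h (l x (y * z)) w
      + Ph h (l y z) w := by
  have m1 := l_mem (x * y) (l x y z)
  have m2 := l_mem x (y * z)
  have m3 := l_mem y z
  rw [Ph_mul_arg hQ hA hh (l_mem x y), mm_l, Ph_mul_right hQ hA hh (mul_mem (inv_mem m1) m2) m3,
    Ph_mul_right hQ hA hh (inv_mem m1) m2, Ph_inv_right hQ hA hh m1]
  have e : Ph h (l (x * y) (l x y z)) w = Ph h (l (x * y) z) w := by
    rw [← Ph_A hA hh, ← Ph_A hA hh]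
    have : l x y z = z * ld z (l x y z) := (mul_ld _ _).symm
    rw [this, Ph_arg_Z2 hA hh (A_mem _ _) z (hA _ (l_mem x y) z)]
  rw [e]
  abel

include hQ hA in
/-- the relation coming from `A_eq` -/
theorem Ph_rel {h : Perm Q} (hh : h ∈ St (1 : Q)) (x y w : Q) :
    Ph h (l x w) y = Ph h (l x y) w + Ph h (l w x) y + Ph h (T (x * y)) w
      - Ph h (T x) w - Ph h (T y) w := by
  have h1 := Ph_A hA hh x w y
  rw [← h1, A_eq]
  have mT := T_mem x
  have mr := r_mem x y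
  have mTT := T_mem (x * y)
  have ml := l_mem x y
  have mTy := T_mem y
  rw [Ph_mul_right hQ hA hh (mul_mem (mul_mem (mul_mem (inv_mem mT) (inv_mem mr)) mTT) ml)
      (inv_mem mTy),
    Ph_mul_right hQ hA hh (mul_mem (mul_mem (inv_mem mT) (inv_mem mr)) mTT) ml,
    Ph_mul_right hQ hA hh (mul_mem (inv_mem mT) (inv_mem mr)) mTT,
    Ph_mul_right hQ hA hh (inv_mem mT) (inv_mem mr),
    Ph_inv_right hQ hA hh mT, Ph_inv_right hQ hA hh mr, Ph_inv_right hQ hA hh mTy,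
    Ph_r hQ hA hh w x y]
  abel

end pairing

end LpAim
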