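import Mathlib

namespace LpAim

universe u

theorem dn_key {ι : Type} [Fintype ι] (p e : ι → ℕ) (hp : ∀ i, (p i).Prime)
    {G : Type u} [CommGroup G] [Finite G] (ψ : Additive G ≃+ (∀ i, ZMod (p i ^ e i)))
    (q n : ℕ) (i₀ : ι) (hq : q.Prime) (h1 : ∀ i, i ≠ i₀ → p i ^ e i ∣ n)
    (h2 : ¬ p i₀ ^ e i₀ ∣ n) (h3 : p i₀ ^ e i₀ ∣ q * n) :
    (Nat.card (powMonoidHom n : G →* G).range).Prime := by
  classical
  haveI : ∀ i, NeZero (p i ^ e i) := fun i => ⟨pow_ne_zero _ (hp i).ne_zero⟩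
  haveI : Fact q.Prime := ⟨hq⟩
  set s : ∀ i, ZMod (p i ^ e i) := Pi.single i₀ 1 with hs
  set g0 : G := (ψ.symm s).toMul with hg0
  have hg0' : Additive.ofMul g0 = ψ.symm s := rfl
  have hrange : (powMonoidHom n : G →* G).range = Subgroup.zpowers (g0 ^ n) := by
    apply le_antisymm
    · rintro _ ⟨a, rfl⟩
      rw [powMonoidHom_apply]
      have key : n • ψ (Additive.ofMul a) = ((ψ (Additive.ofMul a)) i₀).val • (n • s) := by
        funext i
        by_cases hi : i = i₀
        · subst hi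
          rw [Pi.smul_apply, Pi.smul_apply, Pi.smul_apply, hs, Pi.single_eq_same]
          simp only [nsmul_eq_mul, mul_one]
          rw [ZMod.natCast_zmod_val, mul_comm]
        · rw [Pi.smul_apply, Pi.smul_apply, Pi.smul_apply, hs, Pi.single_eq_of_ne hi, nsmul_eq_mul,
            (ZMod.natCast_eq_zero_iff _ _).2 (h1 i hi), zero_mul, smul_zero, smul_zero]
      have h4 : Additive.ofMul (a ^ n) = ((ψ (Additive.ofMul a)) i₀).val • (n • ψ.symm s) := by
        apply ψ.injective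
        rw [ofMul_pow, map_nsmul, key, map_nsmul, map_nsmul, AddEquiv.apply_symm_apply]
      rw [← hg0', ← ofMul_pow, ← ofMul_pow] at h4
      have h5 : a ^ n = (g0 ^ n) ^ ((ψ (Additive.ofMul a)) i₀).val := Additive.ofMul.injective h4
      rw [h5]
      exact Subgroup.pow_mem _ (Subgroup.mem_zpowers _) _
    · rw [Subgroup.zpowers_le]
      exact ⟨g0, rfl⟩
  rw [hrange, Nat.card_zpowers]
  have hord : orderOf (g0 ^ n) = q := by
    apply orderOf_eq_prime
    · apply Additive.ofMul.injective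
      rw [ofMul_pow, ofMul_pow, hg0', ofMul_one, ← map_nsmul, ← map_nsmul]
      have : q • n • s = 0 := by
        rw [smul_smul]
        funext i
        by_cases hi : i = i₀
        · subst hi
          rw [Pi.smul_apply, hs, Pi.single_eq_same, nsmul_eq_mul, mul_one, Pi.zero_apply]
          exact (ZMod.natCast_eq_zero_iff _ _).2 h3
        · rw [Pi.smul_apply, hs, Pi.single_eq_of_ne hi, smul_zero, Pi.zero_apply]
      rw [this, map_zero]
    · intro h
      have h4 := congrArg Additive.ofMul h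
      rw [ofMul_pow, hg0', ofMul_one, ← map_nsmul] at h4
      have h5 : n • s = 0 := by
        have := congrArg ψ h4
        rwa [AddEquiv.apply_symm_apply, map_zero] at this
      have h6 := congrFun h5 i₀
      rw [Pi.smul_apply, hs, Pi.single_eq_same, nsmul_eq_mul, mul_one, Pi.zero_apply] at h6
      exact h2 ((ZMod.natCast_eq_zero_iff _ _).1 h6)
  rw [hord]
  exact hq

/-- If no power subgroup of a finite abelian group has prime order then the group is
`C_e × C_e × D` with `D` of exponent dividing `e`. -/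
theorem decomp_of_no_prime (G : Type u) [CommGroup G] [Finite G]
    (h : ∀ n : ℕ, ¬ (Nat.card (powMonoidHom n : G →* G).range).Prime) :
    ∃ (e : ℕ) (D : Type) (_ : CommGroup D), e ≠ 0 ∧ Finite D ∧ (∀ d : D, d ^ e = 1) ∧
      Nonempty (G ≃* (Multiplicative (ZMod e) × Multiplicative (ZMod e) × D)) := by
  classical
  obtain ⟨ι, _, p, hp, e, ⟨φ⟩⟩ := AddCommGroup.equiv_directSum_zmod_of_finite (Additive G)
  haveI : ∀ i, NeZero (p i ^ e i) := fun i => ⟨pow_ne_zero _ (hp i).ne_zero⟩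
  let ψ : Additive G ≃+ (∀ i, ZMod (p i ^ e i)) := φ.trans (DirectSum.addEquivProd _)
  set Q : Finset ℕ := (Finset.univ.filter (fun i => e i ≠ 0)).image p with hQ
  set k : ℕ → ℕ := fun q => (Finset.univ.filter (fun i => p i = q)).sup e with hk
  have hQp : ∀ q ∈ Q, q.Prime := by
    intro q hq
    obtain ⟨i, _, rfl⟩ := Finset.mem_image.1 hq
    exact hp i
  have hQmem : ∀ i, e i ≠ 0 → p i ∈ Q := fun i hi =>
    Finset.mem_image.2 ⟨i, Finset.mem_filter.2 ⟨Finset.mem_univ _, hi⟩, rfl⟩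
  have hle : ∀ i, e i ≤ k (p i) := fun i =>
    Finset.le_sup (f := e) (Finset.mem_filter.2 ⟨Finset.mem_univ i, rfl⟩)
  have hk0 : ∀ q ∈ Q, k q ≠ 0 := by
    intro q hq
    obtain ⟨i, hi, rfl⟩ := Finset.mem_image.1 hq
    have h1 := (Finset.mem_filter.1 hi).2
    have h2 := hle i
    omega
  have hex : ∀ q ∈ Q, ∃ i, p i = q ∧ e i = k q := by
    intro q hq
    obtain ⟨i, hi, rfl⟩ := Finset.mem_image.1 hq
    obtain ⟨j, hj, hj2⟩ := Finset.exists_mem_eq_sup (Finset.univ.filter (fun x => p x = p i))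
      ⟨i, Finset.mem_filter.2 ⟨Finset.mem_univ i, rfl⟩⟩ e
    exact ⟨j, (Finset.mem_filter.1 hj).2, hj2.symm⟩
  set E : ℕ := ∏ q ∈ Q, q ^ k q with hE
  have hE0 : E ≠ 0 := Finset.prod_ne_zero_iff.2 fun q hq => pow_ne_zero _ (hQp q hq).ne_zero
  have hdivE : ∀ i, p i ^ e i ∣ E := by
    intro i
    by_cases hi : e i = 0
    · rw [hi, pow_zero]
      exact one_dvd _
    · exact (pow_dvd_pow _ (hle i)).trans (Finset.dvd_prod_of_mem (fun q => q ^ k q) (hQmem i hi))
  have hex2 : ∀ q ∈ Q, ∀ i, p i = q → e i = k q → ∃ j, j ≠ i ∧ p j = q ∧ e j = k q := by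
    intro q hq i hi1 hi2
    by_contra hcon
    push Not at hcon
    have hqp := hQp q hq
    obtain ⟨k', hk'⟩ := Nat.exists_eq_succ_of_ne_zero (hk0 q hq)
    refine h (q ^ k' * ∏ q' ∈ Q.erase q, q' ^ k q') (dn_key p e hp ψ q _ i hqp ?_ ?_ ?_)
    · intro j hj
      by_cases hjq : p j = q
      · have h1 := hcon j hj hjq
        have h2 := hle j
        rw [hjq] at h2
        rw [hjq]
        exact (pow_dvd_pow q (by omega : e j ≤ k')).trans (dvd_mul_right _ _)
      · by_cases hj0 : e j = 0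
        · rw [hj0, pow_zero]
          exact one_dvd _
        · refine ((pow_dvd_pow _ (hle j)).trans (Finset.dvd_prod_of_mem (fun q => q ^ k q) ?_)).trans
            (dvd_mul_left _ _)
          exact Finset.mem_erase.2 ⟨hjq, hQmem j hj0⟩
    · rw [hi1, hi2, hk', Nat.succ_eq_add_one, pow_succ]
      intro hd
      have h1 : q ∣ ∏ q' ∈ Q.erase q, q' ^ k q' :=
        Nat.dvd_of_mul_dvd_mul_left (pow_pos hqp.pos _) hd
      obtain ⟨q', hq', h2⟩ := (Prime.dvd_finset_prod_iff hqp.prime _).1 h1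
      have h3 := hqp.dvd_of_dvd_pow h2
      have h4 := (Nat.prime_dvd_prime_iff_eq hqp (hQp q' (Finset.mem_of_mem_erase hq'))).1 h3
      exact (Finset.ne_of_mem_erase hq') h4.symm
    · rw [hi1, hi2, hk', Nat.succ_eq_add_one, pow_succ, ← mul_assoc, mul_comm q]
      exact dvd_mul_right _ _
  choose i hi1 hi2 using fun q : Q => hex q.1 q.2
  choose j hj0 hj1 hj2 using fun q : Q => hex2 q.1 q.2 (i q) (hi1 q) (hi2 q)
  let R : Type := {x : ι // (∀ q, i q ≠ x) ∧ ∀ q, j q ≠ x}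
  let f : (Q ⊕ Q) ⊕ R → ι := Sum.elim (Sum.elim i j) (fun x => x.1)
  have hf : Function.Bijective f := by
    constructor
    · rintro ((a | a) | a) ((b | b) | b) hab
      · have h1 : i a = i b := hab
        have : a = b := Subtype.ext (by rw [← hi1 a, ← hi1 b, h1])
        rw [this]
      · have h1 : i a = j b := hab
        have h2 : a = b := Subtype.ext (by rw [← hi1 a, ← hj1 b, h1])
        subst h2
        exact absurd h1.symm (hj0 a)
      · exact absurd hab (b.2.1 a)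
      · have h1 : j a = i b := hab
        have h2 : a = b := Subtype.ext (by rw [← hj1 a, ← hi1 b, h1])
        subst h2
        exact absurd h1 (hj0 a)
      · have h1 : j a = j b := hab
        have : a = b := Subtype.ext (by rw [← hj1 a, ← hj1 b, h1])
        rw [this]
      · exact absurd hab (b.2.2 a)
      · exact absurd hab.symm (a.2.1 b)
      · exact absurd hab.symm (a.2.2 b)
      · have : a = b := Subtype.ext hab
        rw [this]
    · intro x
      by_cases h1 : ∃ q, i q = x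
      · obtain ⟨q, hq⟩ := h1
        exact ⟨Sum.inl (Sum.inl q), hq⟩
      · by_cases h2 : ∃ q, j q = x
        · obtain ⟨q, hq⟩ := h2
          exact ⟨Sum.inl (Sum.inr q), hq⟩
        · push Not at h1 h2
          exact ⟨Sum.inr ⟨x, h1, h2⟩, rfl⟩
  let σ : ((Q ⊕ Q) ⊕ R) ≃ ι := Equiv.ofBijective f hf
  have hcop : ∀ l : Q → ι, (∀ q, p (l q) = q.1) →
      Pairwise (Function.onFun Nat.Coprime fun q : Q => p (l q) ^ e (l q)) := by
    intro l hl a b hab
    show Nat.Coprime (p (l a) ^ e (l a)) (p (l b) ^ e (l b))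
    apply Nat.Coprime.pow
    rw [Nat.coprime_primes (hp _) (hp _), hl, hl]
    exact fun h => hab (Subtype.ext h)
  have hprod : ∀ l : Q → ι, (∀ q, p (l q) = q.1) → (∀ q, e (l q) = k q.1) →
      ∏ q : Q, p (l q) ^ e (l q) = E := by
    intro l hl1 hl2
    rw [hE, ← Finset.prod_coe_sort Q (fun q => q ^ k q)]
    refine Finset.prod_congr rfl fun q _ => ?_
    rw [hl1, hl2]
  let C1 : (∀ q : Q, ZMod (p (i q) ^ e (i q))) ≃+ ZMod E :=
    ((ZMod.prodEquivPi _ (hcop i hi1)).symm.trans (ZMod.ringEquivCongr (hprod i hi1 hi2))).toAddEquiv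
  let C2 : (∀ q : Q, ZMod (p (j q) ^ e (j q))) ≃+ ZMod E :=
    ((ZMod.prodEquivPi _ (hcop j hj1)).symm.trans (ZMod.ringEquivCongr (hprod j hj1 hj2))).toAddEquiv
  let A1 : (∀ x, ZMod (p x ^ e x)) ≃+ (∀ s, ZMod (p (σ s) ^ e (σ s))) :=
    (RingEquiv.piCongrLeft (fun x => ZMod (p x ^ e x)) σ).symm.toAddEquiv
  let A2 : (∀ s, ZMod (p (σ s) ^ e (σ s))) ≃+
      ((∀ s : Q ⊕ Q, ZMod (p (σ (Sum.inl s)) ^ e (σ (Sum.inl s)))) ×
        (∀ r : R, ZMod (p r.1 ^ e r.1))) :=
    (LinearEquiv.sumPiEquivProdPi ℤ (Q ⊕ Q) R (fun s => ZMod (p (σ s) ^ e (σ s)))).toAddEquiv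
  let A3 : (∀ s : Q ⊕ Q, ZMod (p (σ (Sum.inl s)) ^ e (σ (Sum.inl s)))) ≃+
      ((∀ q : Q, ZMod (p (i q) ^ e (i q))) × (∀ q : Q, ZMod (p (j q) ^ e (j q)))) :=
    (LinearEquiv.sumPiEquivProdPi ℤ Q Q
      (fun s => ZMod (p (σ (Sum.inl s)) ^ e (σ (Sum.inl s))))).toAddEquiv
  let T : Additive G ≃+ (ZMod E × (ZMod E × (∀ r : R, ZMod (p r.1 ^ e r.1)))) :=
    (((ψ.trans A1).trans A2).trans
      (AddEquiv.prodCongr (A3.trans (AddEquiv.prodCongr C1 C2)) (AddEquiv.refl _))).trans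
      AddEquiv.prodAssoc
  refine ⟨E, Multiplicative (∀ r : R, ZMod (p r.1 ^ e r.1)), inferInstance, hE0, ?_, ?_,
    ⟨(AddEquiv.toMultiplicativeRight T).trans (MulEquiv.trans (MulEquiv.prodMultiplicative _ _)
      (MulEquiv.prodCongr (MulEquiv.refl _) (MulEquiv.prodMultiplicative _ _)))⟩⟩
  · haveI : Finite (∀ r : R, ZMod (p r.1 ^ e r.1)) := inferInstance
    exact this
  · intro d
    apply Multiplicative.toAdd.injective
    rw [toAdd_pow, toAdd_one]
    funext r
    rw [Pi.smul_apply, nsmul_eq_mul, (ZMod.natCast_eq_zero_iff _ _).2 (hdivE r.1), zero_mul]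
    rfl

end LpAim
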