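import Pool.Agent.Helper548.LoopBasic

namespace LpAim

open Equiv

universe u v

/-! ### target -/

/-- If the inner mapping group is finite then there are finitely many point stabilizers. -/
theorem finite_quot_cen (Q : Type u) [Loop Q] [Finite (St (1 : Q))] :
    Finite (LQ (cen Q) cen_inv) := by
  classical
  have hH : ((St (1 : Q) : Subgroup (Perm Q)) : Set (Perm Q)).Finite := Set.toFinite _
  have key : ∀ m ∈ Mlt Q,
      ((fun g : Perm Q => g * m * g⁻¹) '' (Mlt Q : Set (Perm Q))).Finite := by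
    intro m hm
    refine Subgroup.closure_induction
      (p := fun m _ => ((fun g : Perm Q => g * m * g⁻¹) '' (Mlt Q : Set (Perm Q))).Finite)
      ?_ ?_ ?_ ?_ hm
    · rintro m (⟨a, rfl⟩ | ⟨a, rfl⟩)
      · refine ((hH.prod hH).image
          (fun p : Perm Q × Perm Q => p.1 * (L a * p.2) * p.1⁻¹)).subset ?_
        rintro _ ⟨g, hg, rfl⟩
        refine ⟨(g * R (g⁻¹ 1), A a (g⁻¹ 1)), ⟨⟨mul_mem hg (R_mem _), ?_⟩, A_mem _ _⟩, ?_⟩
        · show (g * R (g⁻¹ 1)) 1 = 1
          rw [Perm.mul_apply, R_apply, lone_mul, pai]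
        · simp only [A]
          group
      · refine ((hH.prod hH).image
          (fun p : Perm Q × Perm Q => p.1 * (R a * p.2) * p.1⁻¹)).subset ?_
        rintro _ ⟨g, hg, rfl⟩
        refine ⟨(g * L (g⁻¹ 1), (R a)⁻¹ * (L (g⁻¹ 1))⁻¹ * R a * L (g⁻¹ 1)),
          ⟨⟨mul_mem hg (L_mem _), ?_⟩, ⟨(Mlt Q).mul_mem ((Mlt Q).mul_mem ((Mlt Q).mul_mem
            ((Mlt Q).inv_mem (R_mem _)) ((Mlt Q).inv_mem (L_mem _))) (R_mem _)) (L_mem _), ?_⟩⟩, ?_⟩
        · show (g * L (g⁻¹ 1)) 1 = 1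
          rw [Perm.mul_apply, L_apply, lmul_one, pai]
        · show ((R a)⁻¹ * (L (g⁻¹ 1))⁻¹ * R a * L (g⁻¹ 1)) 1 = 1
          simp only [Perm.mul_apply, L_apply, R_apply, L_inv_apply, R_inv_apply, lmul_one, ld_mul,
            rd_self]
        · group
    · refine (Set.finite_singleton (1 : Perm Q)).subset ?_
      rintro _ ⟨g, hg, rfl⟩
      simp
    · intro x y _ _ hx hy
      refine (hx.image2 (fun p q => p * q) hy).subset ?_
      rintro _ ⟨g, hg, rfl⟩
      refine ⟨g * x * g⁻¹, ⟨g, hg, rfl⟩, g * y * g⁻¹, ⟨g, hg, rfl⟩, ?_⟩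
      simp only
      group
    · intro x _ hx
      refine (hx.image (fun p => p⁻¹)).subset ?_
      rintro _ ⟨g, hg, rfl⟩
      refine ⟨g * x * g⁻¹, ⟨g, hg, rfl⟩, ?_⟩
      simp only
      group
  -- the orbit map
  let c : Q → (St (1 : Q)) → Perm Q := fun x h => L x * h.1 * (L x)⁻¹
  have hfin : (Set.pi Set.univ (fun h : St (1 : Q) =>
      (fun g : Perm Q => g * h.1 * g⁻¹) '' (Mlt Q : Set (Perm Q)))).Finite :=
    Set.Finite.pi fun h => key h.1 h.2.1
  have hc : ∀ x y, c x = c y → St x = St y := by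
    have h1 : ∀ x y, c x = c y → St x ≤ St y := by
      intro x y hxy g hg
      have hx : (L x) (1 : Q) = x := lmul_one x
      have hy : (L y) (1 : Q) = y := lmul_one y
      rw [← hx, St_apply (L_mem x)] at hg
      have e := congrFun hxy ⟨_, hg⟩
      simp only [c] at e
      have e2 : g = L y * ((L x)⁻¹ * g * L x) * (L y)⁻¹ := by
        rw [← e]
        group
      rw [e2]
      have := conj_St (L_mem y) hg
      rwa [hy] at this
    intro x y hxy
    exact le_antisymm (h1 x y hxy) (h1 y x hxy.symm)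
  have : Finite (Set.pi Set.univ (fun h : St (1 : Q) =>
      (fun g : Perm Q => g * h.1 * g⁻¹) '' (Mlt Q : Set (Perm Q)))) := hfin.to_subtype
  choose f hf using pr_surj (cen Q) (cen_inv (Q := Q))
  refine Finite.of_injective (fun q : LQ (cen Q) cen_inv =>
    (⟨c (f q), fun h _ => ⟨L (f q), L_mem _, rfl⟩⟩ : (Set.pi Set.univ (fun h : St (1 : Q) =>
      (fun g : Perm Q => g * h.1 * g⁻¹) '' (Mlt Q : Set (Perm Q)))))) ?_
  intro q q' hqq
  have h2 := hc _ _ (congrArg Subtype.val hqq)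
  rw [← hf q, ← hf q', pr_eq, cen_iff]
  exact h2

end LpAim

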