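import Pool.Agent.Helper548.LoopSub
import Pool.Agent.Helper548.LoopBaer
import Pool.Agent.Helper548.LoopDecomp

/-!
# Final assembly
-/

namespace LpAim

open Equiv

universe u v

/-- Isomorphic loops have isomorphic inner mapping groups. -/
theorem inner_equiv {Q : Type u} {P : Type v} [Loop Q] [Loop P] (f : Q ≃ P)
    (hf : ∀ x y, f (x * y) = f x * f y) : Nonempty (St (1 : Q) ≃* St (1 : P)) := by
  have h : (St (1 : Q)).map (f.permCongrHom : Perm Q ≃* Perm P).toMonoidHom = St (1 : P) := by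
    apply le_antisymm
    · rintro _ ⟨g, hg, rfl⟩
      obtain ⟨g', hg', e⟩ := inner_induced (f := f) hf hg
      have : (f.permCongrHom : Perm Q ≃* Perm P).toMonoidHom g = g' := by
        ext x
        have h1 : g' (f (f.symm x)) = f (g (f.symm x)) := (e _).symm
        rw [Equiv.apply_symm_apply] at h1
        rw [h1]; rfl
      rw [this]; exact hg'
    · intro g' hg'
      obtain ⟨g, hg, e⟩ := inner_lift (f := f) hf f.surjective hg'
      refine ⟨g, hg, ?_⟩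
      ext x
      have h1 : g' (f (f.symm x)) = f (g (f.symm x)) := (e _).symm
      rw [Equiv.apply_symm_apply] at h1
      rw [h1]; rfl
  exact ⟨((f.permCongrHom : Perm Q ≃* Perm P).subgroupMap (St (1 : Q))).trans
    (MulEquiv.subgroupCongr h)⟩

instance uliftLoop (Q : Type v) [Loop Q] : Loop (ULift.{u} Q) where
  mul x y := ⟨x.down * y.down⟩
  one := ⟨1⟩
  ld x y := ⟨ld x.down y.down⟩
  rd x y := ⟨rd x.down y.down⟩
  one_mul' _ := ULift.ext _ _ (lone_mul _)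
  mul_one' _ := ULift.ext _ _ (lmul_one _)
  mul_ld _ _ := ULift.ext _ _ (mul_ld _ _)
  ld_mul _ _ := ULift.ext _ _ (ld_mul _ _)
  rd_mul _ _ := ULift.ext _ _ (rd_mul _ _)
  mul_rd _ _ := ULift.ext _ _ (mul_rd _ _)

/-- necessity -/
theorem necessity {Q : Type u} [Loop Q] {G : Type v} [CommGroup G] [Finite G]
    (φ : G ≃* St (1 : Q)) :
    ∃ (e : ℕ) (D : Type) (_ : CommGroup D), e ≠ 0 ∧ Finite D ∧ (∀ d : D, d ^ e = 1) ∧
      Nonempty (G ≃* (Multiplicative (ZMod e) × Multiplicative (ZMod e) × D)) := by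
  have hfin : Finite (St (1 : Q)) := Finite.of_equiv G φ.toEquiv
  have hQ : AIM Q := by
    intro g hg h hh
    have h1 : (⟨g, hg⟩ : St (1 : Q)) * ⟨h, hh⟩ = ⟨h, hh⟩ * ⟨g, hg⟩ := by
      obtain ⟨a, ha⟩ := φ.surjective ⟨g, hg⟩
      obtain ⟨b, hb⟩ := φ.surjective ⟨h, hh⟩
      rw [← ha, ← hb, ← map_mul, mul_comm, map_mul]
    exact congrArg Subtype.val h1
  apply decomp_of_no_prime
  intro n hn
  let ψ : G →* Perm Q := (St (1 : Q)).subtype.comp φ.toMonoidHom
  have hψ : Function.Injective ψ := (St (1 : Q)).subtype_injective.comp φ.injective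
  have hcard : Nat.card ((powMonoidHom n : G →* G).range.map ψ) =
      Nat.card (powMonoidHom n : G →* G).range :=
    Nat.card_congr ((powMonoidHom n : G →* G).range.equivMapOfInjective ψ hψ).toEquiv.symm
  refine no_prime hQ n ((powMonoidHom n : G →* G).range.map ψ) (by rw [hcard]; exact hn) ?_ ?_
  · intro g hg
    obtain ⟨a, ha⟩ := φ.surjective ⟨g, hg⟩
    refine ⟨a ^ n, ⟨a, rfl⟩, ?_⟩
    show ((φ (a ^ n) : St (1 : Q)) : Perm Q) = g ^ n
    rw [map_pow, ha]; rfl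
  · rintro _ ⟨_, ⟨a, rfl⟩, rfl⟩
    refine ⟨φ a, (φ a).2, ?_⟩
    show ((φ a : St (1 : Q)) : Perm Q) ^ n = ((φ (a ^ n) : St (1 : Q)) : Perm Q)
    rw [map_pow]; rfl

/-- sufficiency, in any universe -/
theorem sufficiency {G : Type v} [CommGroup G]
    (h : ∃ (e : ℕ) (D : Type) (_ : CommGroup D), e ≠ 0 ∧ Finite D ∧ (∀ d : D, d ^ e = 1) ∧
      Nonempty (G ≃* (Multiplicative (ZMod e) × Multiplicative (ZMod e) × D))) :
    ∃ (Q : Type u) (_ : Loop Q), Finite Q ∧ Nonempty (G ≃* St (1 : Q)) := by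
  obtain ⟨e, D, _, he, _, hD, ⟨φ⟩⟩ := h
  obtain ⟨Q, i, hfin, ⟨ψ⟩⟩ := exists_loop_of_decomp e he D hD
  obtain ⟨χ⟩ := inner_equiv (Q := Q) (P := ULift.{u} Q) Equiv.ulift.symm (fun _ _ => rfl)
  exact ⟨ULift.{u} Q, inferInstance, inferInstance, ⟨(φ.trans ψ).trans χ⟩⟩

end LpAim
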