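import Pool.Agent.Helper548.LoopPsi

/-!
# Nilpotent three-generated loops with abelian inner mapping group have central associators
-/

namespace LpAim

open Equiv

universe u v

section
variable {Q : Type u} [Loop Q]

theorem gens_induction {P : Perm Q → Prop} (hT : ∀ x, P (T x)) (hl : ∀ x y, P (l x y))
    (hr : ∀ x y, P (r x y)) (h1 : P 1)
    (hm : ∀ g h, g ∈ St (1 : Q) → h ∈ St (1 : Q) → P g → P h → P (g * h))
    (hi : ∀ g, g ∈ St (1 : Q) → P g → P g⁻¹) : ∀ g ∈ St (1 : Q), P g := by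
  intro g hg
  have hg' := hg
  rw [St_one_eq_closure] at hg'
  have : g ∈ St (1 : Q) ∧ P g := by
    refine Subgroup.closure_induction (p := fun g _ => g ∈ St (1 : Q) ∧ P g) ?_ ?_ ?_ ?_ hg'
    · rintro g (⟨x, rfl⟩ | ⟨x, y, rfl⟩ | ⟨x, y, rfl⟩)
      · exact ⟨T_mem x, hT x⟩
      · exact ⟨l_mem x y, hl x y⟩
      · exact ⟨r_mem x y, hr x y⟩
    · exact ⟨one_mem _, h1⟩
    · intro a b _ _ ha hb
      exact ⟨mul_mem ha.1 hb.1, hm a b ha.1 hb.1 ha.2 hb.2⟩
    · intro a _ ha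
      exact ⟨inv_mem ha.1, hi a ha.1 ha.2⟩
  exact this.2

theorem Ph_one_left {g : Perm Q} {w : Q} : Ph 1 g w = 0 := by
  unfold Ph
  exact zt_of_eq (mul_zero_z _).symm

/-- centrality from the vanishing of the pairing -/
theorem central_of_Ph {g : Perm Q} {w : Q} (hz : IsZ2 (ld w (g w)))
    (h0 : ∀ h ∈ St (1 : Q), Ph h g w = 0) : ∃ a : Zn Q, g w = w * a.val := by
  refine ⟨⟨ld w (g w), ?_⟩, (mul_ld _ _).symm⟩
  intro h hh
  have h1 := zt_spec hh hz
  have h2 : zt h (ld w (g w)) = 0 := h0 h hh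
  rw [h1, h2, mul_zero_z]

theorem central_of_Ph_gens {g : Perm Q} {w : Q} (hz : IsZ2 (ld w (g w)))
    (hT : ∀ x, Ph (T x) g w = 0) (hl : ∀ x y, Ph (l x y) g w = 0)
    (hr : ∀ x y, Ph (r x y) g w = 0) : ∃ a : Zn Q, g w = w * a.val := by
  refine central_of_Ph hz (gens_induction hT hl hr Ph_one_left ?_ ?_)
  · intro a b ha hb h1 h2
    rw [Ph_mul_left ha hb hz, h1, h2, add_zero]
  · intro a ha h1
    rw [Ph_inv_left ha hz, h1, neg_zero]

theorem Be_of_Al (hQ : AIM Q) (hA : Al Q) {p q r' : Q} (hg : Gen3 p q r') : Be Q := by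
  intro x y z
  refine central_of_Ph_gens (hA _ (l_mem x y) z) ?_ ?_ ?_
  · intro a; exact th_zero hQ hA hg a x y z
  · intro a b; exact ps_zero hQ hA hg a b x y z
  · intro a b
    rw [Ph_symm hQ hA (r_mem a b) (l_mem x y), Ph_r hQ hA (l_mem x y) z a b]
    have := ps_zero hQ hA hg x y z a b
    unfold ps at this
    rw [this, neg_zero]

theorem comm_central (hQ : AIM Q) (hA : Al Q) {p q : Q} (hg : Gen3 p q q) (x y : Q) :
    ∃ a : Zn Q, T x y = y * a.val := by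
  refine central_of_Ph_gens (hA _ (T_mem x) y) ?_ ?_ ?_
  · intro a; exact ta_zero hQ hA hg a x y
  · intro a b
    rw [Ph_symm hQ hA (l_mem a b) (T_mem x)]
    exact th_zero hQ hA hg x a b y
  · intro a b
    rw [Ph_symm hQ hA (r_mem a b) (T_mem x), Ph_r hQ hA (T_mem x) y a b]
    have := th_zero hQ hA hg x y a b
    unfold th at this
    rw [this, neg_zero]

end

/-! ### the step from class four to class three -/

section four
variable {Q : Type u} [Loop Q]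

/-- the four-fold form -/
noncomputable def P4 (h g t : Perm Q) (u : Q) : Zn Q := Ph h g (ld u (t u))

variable (hQ : AIM Q) (hA : Al (QZ Q)) (hB : Be (QZ Q))

include hA in
theorem lev {g g' : Perm Q} {G : Perm (QZ Q)} {t : Perm Q} {S : Perm (QZ Q)}
    (hG : G ∈ St (1 : QZ Q)) (hS : S ∈ St (1 : QZ Q)) (eg : ∀ x, pz (g x) = G (pz x))
    (et : ∀ x, pz (t x) = S (pz x)) (u : Q) :
    pz (g (ld u (t u))) = pz (ld u (t u)) * (Ph G S (pz u)).val := by
  have h1 : pz (ld u (t u)) = ld (pz u) (S (pz u)) := by rw [pz_ld, et]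
  rw [eg, h1]
  exact zt_spec hG (hA S hS (pz u))

include hA in
theorem lev_Z2 {g t : Perm Q} (hg : g ∈ St (1 : Q)) (ht : t ∈ St (1 : Q)) (u : Q) :
    IsZ2 (ld (ld u (t u)) (g (ld u (t u)))) := by
  obtain ⟨G, hG, eg⟩ := inner_induced (f := (pz : Q → QZ Q)) pz_mul hg
  obtain ⟨S, hS, et⟩ := inner_induced (f := (pz : Q → QZ Q)) pz_mul ht
  exact isZ2_of_pz (lev (g' := g) hA hG hS eg et u)

include hQ hA in
theorem P4_12 {h g t : Perm Q} (hh : h ∈ St (1 : Q)) (hg : g ∈ St (1 : Q)) (ht : t ∈ St (1 : Q))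
    (u : Q) : P4 h g t u = P4 g h t u :=
  Ph_symm' hQ hh hg (lev_Z2 hA hh ht u) (lev_Z2 hA hg ht u)

include hQ hA in
theorem P4_23 {h g t : Perm Q} (hh : h ∈ St (1 : Q)) (hg : g ∈ St (1 : Q)) (ht : t ∈ St (1 : Q))
    (u : Q) : P4 h g t u = P4 h t g u := by
  obtain ⟨G, hG, eg⟩ := inner_induced (f := (pz : Q → QZ Q)) pz_mul hg
  obtain ⟨S, hS, et⟩ := inner_induced (f := (pz : Q → QZ Q)) pz_mul ht
  have e1 := lev (g' := g) hA hG hS eg et u
  have e2 := lev (g' := g) hA hS hG et eg u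
  have e3 : Ph G S (pz u) = Ph S G (pz u) := Ph_symm (hQ.quot _ _) hA hG hS (pz u)
  rw [e3] at e1
  exact Ph_eq_of_pz hh e1 e2

include hQ hA in
theorem P4_13 {h g t : Perm Q} (hh : h ∈ St (1 : Q)) (hg : g ∈ St (1 : Q)) (ht : t ∈ St (1 : Q))
    (u : Q) : P4 h g t u = P4 t g h u := by
  rw [P4_12 hQ hA hh hg ht, P4_23 hQ hA hg hh ht, P4_12 hQ hA hg ht hh]

include hA in
theorem P4_mul1 {h h' g t : Perm Q} (hh : h ∈ St (1 : Q)) (hh' : h' ∈ St (1 : Q))
    (hg : g ∈ St (1 : Q)) (ht : t ∈ St (1 : Q)) (u : Q) :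
    P4 (h * h') g t u = P4 h g t u + P4 h' g t u :=
  Ph_mul_left hh hh' (lev_Z2 hA hg ht u)

include hA in
theorem P4_inv1 {h g t : Perm Q} (hh : h ∈ St (1 : Q))
    (hg : g ∈ St (1 : Q)) (ht : t ∈ St (1 : Q)) (u : Q) :
    P4 h⁻¹ g t u = - P4 h g t u :=
  Ph_inv_left hh (lev_Z2 hA hg ht u)

include hA in
/-- vanishing when the third entry is of associator type -/
theorem P4_van3 {h g t : Perm Q} (hh : h ∈ St (1 : Q)) (hg : g ∈ St (1 : Q)) (u : Q)
    (a : Zn (QZ Q)) (e : pz (t u) = pz u * a.val) : P4 h g t u = 0 := by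
  obtain ⟨G, hG, eg⟩ := inner_induced (f := (pz : Q → QZ Q)) pz_mul hg
  unfold P4 Ph
  apply zt_central hh
  rw [← pz_eq, pz_ld, eg, pz_ld_eq e, a.fix hG, ld_self, pz_one]

include hA hB in
theorem P4_l3 {h g : Perm Q} (hh : h ∈ St (1 : Q)) (hg : g ∈ St (1 : Q)) (x y u : Q) :
    P4 h g (l x y) u = 0 := by
  obtain ⟨a, ha⟩ := hB (pz x) (pz y) (pz u)
  refine P4_van3 hA hh hg u a ?_
  rw [map_l (f := (pz : Q → QZ Q)) pz_mul, ha]

include hA hB in
theorem P4_A3 {h g : Perm Q} (hh : h ∈ St (1 : Q)) (hg : g ∈ St (1 : Q)) (x y u : Q) :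
    P4 h g (A x y) u = 0 := by
  obtain ⟨a, ha⟩ := hB (pz x) (pz u) (pz y)
  refine P4_van3 hA hh hg u a ?_
  rw [map_A (f := (pz : Q → QZ Q)) pz_mul, assoc_A ha]

include hA hB in
theorem P4_r3 {h g : Perm Q} (hh : h ∈ St (1 : Q)) (hg : g ∈ St (1 : Q)) (x y u : Q) :
    P4 h g (r x y) u = 0 := by
  obtain ⟨a, ha⟩ := hB (pz u) (pz x) (pz y)
  refine P4_van3 hA hh hg u (-a) ?_
  rw [map_r (f := (pz : Q → QZ Q)) pz_mul, assoc_r ha]

include hQ hA hB in
theorem P4_l1 {g t : Perm Q} (hg : g ∈ St (1 : Q)) (ht : t ∈ St (1 : Q)) (x y u : Q) :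
    P4 (l x y) g t u = 0 := by
  rw [P4_13 hQ hA (l_mem x y) hg ht, P4_l3 hA hB ht hg]

include hQ hA hB in
theorem P4_A1 {g t : Perm Q} (hg : g ∈ St (1 : Q)) (ht : t ∈ St (1 : Q)) (x y u : Q) :
    P4 (A x y) g t u = 0 := by
  rw [P4_13 hQ hA (A_mem x y) hg ht, P4_A3 hA hB ht hg]

include hQ hA hB in
theorem P4_r1 {g t : Perm Q} (hg : g ∈ St (1 : Q)) (ht : t ∈ St (1 : Q)) (x y u : Q) :
    P4 (r x y) g t u = 0 := by
  rw [P4_13 hQ hA (r_mem x y) hg ht, P4_r3 hA hB ht hg]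

theorem T_mul_eq (x y : Q) : T (x * y) = r x y * T x * A x y * T y * (l x y)⁻¹ := by
  rw [A_eq]; group

include hQ hA hB in
theorem P4_T1 {g t : Perm Q} (hg : g ∈ St (1 : Q)) (ht : t ∈ St (1 : Q)) (x y u : Q) :
    P4 (T (x * y)) g t u = P4 (T x) g t u + P4 (T y) g t u := by
  have mT := T_mem x
  have mr := r_mem x y
  have mA := A_mem x y
  have ml := l_mem x y
  have mTy := T_mem y
  rw [T_mul_eq, P4_mul1 hA (mul_mem (mul_mem (mul_mem mr mT) mA) mTy) (inv_mem ml) hg ht,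
    P4_mul1 hA (mul_mem (mul_mem mr mT) mA) mTy hg ht,
    P4_mul1 hA (mul_mem mr mT) mA hg ht, P4_mul1 hA mr mT hg ht, P4_inv1 hA ml hg ht,
    P4_r1 hQ hA hB hg ht, P4_A1 hQ hA hB hg ht, P4_l1 hQ hA hB hg ht]
  abel

/-- the form on four elements -/
noncomputable def FF (x y w z : Q) : Zn Q := P4 (T x) (T y) (T w) z

include hQ hA in
theorem FF_12 (x y w z : Q) : FF x y w z = FF y x w z :=
  P4_12 hQ hA (T_mem x) (T_mem y) (T_mem w) z

include hQ hA in
theorem FF_23 (x y w z : Q) : FF x y w z = FF x w y z :=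
  P4_23 hQ hA (T_mem x) (T_mem y) (T_mem w) z

include hQ hA in
theorem FF_34 (x y w z : Q) : FF x y z w = - FF x y w z := by
  have hS := T_mem (pz w)
  have hS' := T_mem (pz z)
  have hG := T_mem (pz y)
  have e1 := lev (g' := T y) (g := T y) (t := T w) hA hG hS
    (fun v => map_T (f := (pz : Q → QZ Q)) pz_mul y v)
    (fun v => map_T (f := (pz : Q → QZ Q)) pz_mul w v) z
  have e2 := lev (g' := T y) (g := T y) (t := T z) hA hG hS'
    (fun v => map_T (f := (pz : Q → QZ Q)) pz_mul y v)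
    (fun v => map_T (f := (pz : Q → QZ Q)) pz_mul z v) w
  have e3 := Ph_T (hQ.quot _ _) hA hG (pz w) (pz z)
  rw [e3] at e2
  exact Ph_neg_of_pz hQ (T_mem x) (T_mem y) e1 e2

theorem FF_34_self (x y w : Q) : FF x y w w = 0 := by
  unfold FF P4 Ph
  rw [T_self, ld_self]
  have h1 : T y (1 : Q) = 1 := (T_mem y).2
  rw [h1, ld_self]
  exact zt_central (T_mem x) ((cen Q).refl 1)

include hQ hA hB in
theorem FF_zero {p q r' : Q} (hg : Gen3 p q r') (a b c d : Q) : FF a b c d = 0 := by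
  have a1 : ∀ x y b c d : Q, FF (x * y) b c d = FF x b c d + FF y b c d := fun x y b c d =>
    P4_T1 hQ hA hB (T_mem b) (T_mem c) x y d
  have a2 : ∀ x y a c d : Q, FF a (x * y) c d = FF a x c d + FF a y c d := fun x y a c d => by
    rw [FF_12 hQ hA, a1, FF_12 hQ hA x, FF_12 hQ hA y]
  have a3 : ∀ x y a b d : Q, FF a b (x * y) d = FF a b x d + FF a b y d := fun x y a b d => by
    rw [FF_23 hQ hA, a2, FF_23 hQ hA a x, FF_23 hQ hA a y]
  have a4 : ∀ x y a b c : Q, FF a b c (x * y) = FF a b c x + FF a b c y := fun x y a b c => by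
    rw [FF_34 hQ hA, a3, FF_34 hQ hA a b x, FF_34 hQ hA a b y]; abel
  have e34 : ∀ x a b : Q, FF a b x x = 0 := fun x a b => FF_34_self a b x
  have e24 : ∀ x a c : Q, FF a x c x = 0 := fun x a c => by
    rw [FF_23 hQ hA, e34]
  have e14 : ∀ x b c : Q, FF x b c x = 0 := fun x b c => by
    rw [FF_12 hQ hA, e24]
  have e23 : ∀ x a d : Q, FF a x x d = 0 := fun x a d => by
    rw [FF_34 hQ hA, e24, neg_zero]
  have e13 : ∀ x b d : Q, FF x b x d = 0 := fun x b d => by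
    rw [FF_34 hQ hA, e14, neg_zero]
  have e12 : ∀ x c d : Q, FF x x c d = 0 := fun x c d => by
    rw [FF_23 hQ hA, e13]
  exact alt4_zero hg FF a1 a2 a3 a4 e12 e13 e14 e23 e24 e34 a b c d

theorem P4_one {g t : Perm Q} {u : Q} : P4 1 g t u = 0 := Ph_one_left

include hQ hA hB in
theorem P4_zero {p q r' : Q} (hgen : Gen3 p q r') {h g t : Perm Q} (hh : h ∈ St (1 : Q))
    (hg : g ∈ St (1 : Q)) (ht : t ∈ St (1 : Q)) (u : Q) : P4 h g t u = 0 := by
  -- first entry: arbitrary, others T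
  have s1 : ∀ y w : Q, ∀ h ∈ St (1 : Q), P4 h (T y) (T w) u = 0 := by
    intro y w
    refine gens_induction ?_ ?_ ?_ P4_one ?_ ?_
    · intro x; exact FF_zero hQ hA hB hgen x y w u
    · intro a b; exact P4_l1 hQ hA hB (T_mem y) (T_mem w) a b u
    · intro a b; exact P4_r1 hQ hA hB (T_mem y) (T_mem w) a b u
    · intro a b ha hb h1 h2
      rw [P4_mul1 hA ha hb (T_mem y) (T_mem w), h1, h2, add_zero]
    · intro a ha h1
      rw [P4_inv1 hA ha (T_mem y) (T_mem w), h1, neg_zero]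
  have s2 : ∀ g ∈ St (1 : Q), ∀ w : Q, ∀ h ∈ St (1 : Q), P4 h g (T w) u = 0 := by
    intro g hg w h hh
    revert g
    have : ∀ g ∈ St (1 : Q), P4 g h (T w) u = 0 := by
      refine gens_induction ?_ ?_ ?_ P4_one ?_ ?_
      · intro x
        rw [P4_12 hQ hA (T_mem x) hh (T_mem w)]
        exact s1 x w h hh
      · intro a b; exact P4_l1 hQ hA hB hh (T_mem w) a b u
      · intro a b; exact P4_r1 hQ hA hB hh (T_mem w) a b u
      · intro a b ha hb h1 h2
        rw [P4_mul1 hA ha hb hh (T_mem w), h1, h2, add_zero]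
      · intro a ha h1
        rw [P4_inv1 hA ha hh (T_mem w), h1, neg_zero]
    intro g hg
    rw [P4_12 hQ hA hh hg (T_mem w)]
    exact this g hg
  have s3 : ∀ t ∈ St (1 : Q), P4 t g h u = 0 := by
    refine gens_induction ?_ ?_ ?_ P4_one ?_ ?_
    · intro x
      rw [P4_13 hQ hA (T_mem x) hg hh]
      exact s2 g hg x h hh
    · intro a b; exact P4_l1 hQ hA hB hg hh a b u
    · intro a b; exact P4_r1 hQ hA hB hg hh a b u
    · intro a b ha hb h1 h2
      rw [P4_mul1 hA ha hb hg hh, h1, h2, add_zero]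
    · intro a ha h1
      rw [P4_inv1 hA ha hg hh, h1, neg_zero]
  rw [P4_13 hQ hA hh hg ht]
  exact s3 t ht

include hQ hA hB in
theorem Al_step {p q r' : Q} (hgen : Gen3 p q r') : Al Q := by
  intro t ht u g hg
  obtain ⟨a, ha⟩ := central_of_Ph (g := g) (w := ld u (t u)) (lev_Z2 hA hg ht u)
    (fun h hh => P4_zero hQ hA hB hgen hh hg ht u)
  rw [ha]
  exact cen_mul _ a

theorem Gen3.quot {p q r' : Q} (hgen : Gen3 p q r') : Gen3 (pz p) (pz q) (pz r') := by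
  intro P hp hq hr h1 hm hl hr' x
  obtain ⟨x, rfl⟩ := pz_surj x
  refine hgen (fun x => P (pz x)) hp hq hr h1 ?_ ?_ ?_ x
  · intro x y hx hy; exact hm _ _ hx hy
  · intro x y hx hy; exact hl _ _ hx hy
  · intro x y hx hy; exact hr' _ _ hx hy

end four

theorem nilp_class {Q : Type u} {i : Loop Q} (hN : Nilp Q i) :
    AIM Q → ∀ p q r' : Q, Gen3 p q r' → Al Q ∧ Be Q := by
  induction hN with
  | triv Q i h =>
    intro _ p q r' _
    refine ⟨?_, ?_⟩
    · intro g _ w h' _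
      rw [Subsingleton.elim (h' (ld w (g w))) (ld w (g w))]
    · intro x y z
      exact ⟨0, Subsingleton.elim _ _⟩
  | step Q i h ih =>
    intro hQ p q r' hgen
    obtain ⟨hA, hB⟩ := ih (hQ.quot _ _) _ _ _ hgen.quot
    have hA' := Al_step hQ hA hB hgen
    exact ⟨hA', Be_of_Al hQ hA' hgen⟩

end LpAim
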