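import Pool.Agent.Helper548.LoopSimple

namespace LpAim

open Equiv

universe u v

/-! ### target -/



section job2951

open Function

instance jb_fin {Q : Type u} [Loop Q] [Finite Q] (s : Setoid Q) (hs : Inv s) : Finite (LQ s hs) :=
  inferInstanceAs (Finite (Quotient s))

instance jb_fin_setoid {Q : Type u} [Finite Q] : Finite (Setoid Q) := by
  classical
  refine Finite.of_injective (fun s : Setoid Q => (fun x y => s x y : Q → Q → Prop)) ?_
  intro s t h
  ext x y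
  exact iff_of_eq (congrFun (congrFun h x) y)

/-- class sizes are all equal -/
theorem jb_class_card {Q : Type u} [Loop Q] {s : Setoid Q} (hs : Inv s) (x y : Q) :
    Nat.card {z // s x z} = Nat.card {z // s y z} := by
  obtain ⟨g, hg, e⟩ := Mlt_trans x y
  refine Nat.card_congr ⟨fun z => ⟨g z.1, by have := hs g hg _ _ z.2; rwa [e] at this⟩,
    fun z => ⟨g⁻¹ z.1, by
      have := hs g⁻¹ (inv_mem hg) _ _ z.2
      have e' : g⁻¹ y = x := by rw [← e, pia]
      rwa [e'] at this⟩, fun z => ?_, fun z => ?_⟩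
  · ext; exact pia g z.1
  · ext; exact pai g z.1

theorem jb_card_eq {Q : Type u} [Loop Q] [Finite Q] {s : Setoid Q} (hs : Inv s) :
    Nat.card Q = Nat.card (LQ s hs) * Nat.card {z // s (1 : Q) z} := by
  classical
  have := Fintype.ofFinite (LQ s hs)
  rw [← Nat.card_congr (Equiv.sigmaFiberEquiv (pr s hs)), Nat.card_sigma]
  have : ∀ a : LQ s hs, Nat.card {x // pr s hs x = a} = Nat.card {z // s (1 : Q) z} := by
    intro a
    obtain ⟨x, rfl⟩ := pr_surj s hs a
    rw [← jb_class_card hs x 1]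
    refine Nat.card_congr (Equiv.subtypeEquivRight fun z => ?_)
    rw [pr_eq]
    exact ⟨fun h => s.symm h, fun h => s.symm h⟩
  rw [Finset.sum_congr rfl (fun a _ => this a)]
  simp [Nat.card_eq_fintype_card]

theorem jb_card_lt {Q : Type u} [Loop Q] [Finite Q] {s : Setoid Q} (hs : Inv s) (hne : s ≠ ⊥) :
    Nat.card (LQ s hs) < Nat.card Q := by
  have h : ∃ x y, s x y ∧ x ≠ y := by
    by_contra hcon
    push Not at hcon
    apply hne
    ext x y
    exact ⟨fun h => hcon x y h, fun h => by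
      have h' : x = y := h
      subst h'; exact s.refl x⟩
  obtain ⟨x, y, hxy, hn⟩ := h
  have h2 : 1 < Nat.card {z // s (1 : Q) z} := by
    rw [← jb_class_card hs x 1]
    have : Nontrivial {z // s x z} := ⟨⟨x, s.refl x⟩, ⟨y, hxy⟩, fun e => hn (congrArg Subtype.val e)⟩
    exact Finite.one_lt_card
  have h3 : 0 < Nat.card (LQ s hs) := by
    have : Nonempty (LQ s hs) := ⟨1⟩
    exact Nat.card_pos
  rw [jb_card_eq hs]
  nlinarith

theorem jb_card_dvd {Q : Type u} [Loop Q] [Finite Q] {s : Setoid Q} (hs : Inv s) :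
    Nat.card (LQ s hs) ∣ Nat.card Q := ⟨_, jb_card_eq hs⟩

theorem jb_class_dvd {Q : Type u} [Loop Q] [Finite Q] {s : Setoid Q} (hs : Inv s) (x : Q) :
    Nat.card {z // s x z} ∣ Nat.card Q := by
  rw [jb_class_card hs x 1]; exact Dvd.intro_left _ (jb_card_eq hs).symm

/-- fixed points of a `p`-group of permutations on a class -/
theorem jb_fixed {Q : Type u} [Finite Q] (p : ℕ) [Fact p.Prime] (P : Subgroup (Perm Q))
    (hP : IsPGroup p P) (C : Set Q) (hC : ∀ g ∈ P, ∀ x ∈ C, g x ∈ C)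
    (hcard : ¬ p ∣ Nat.card C) : ∃ y ∈ C, ∀ g ∈ P, g y = y := by
  let S : SubMulAction P Q :=
    { carrier := C
      smul_mem' := fun g x hx => hC g.1 g.2 x hx }
  have h := hP.nonempty_fixed_point_of_prime_not_dvd_card S hcard
  obtain ⟨⟨y, hy⟩, hfix⟩ := h
  refine ⟨y, hy, fun g hg => ?_⟩
  have h2 := hfix ⟨g, hg⟩
  exact congrArg Subtype.val h2

/-- the `p`-elements of the (abelian) stabilizer -/
def jb_pel {Q : Type u} [Loop Q] (hQ : AIM Q) (p : ℕ) (x : Q) : Subgroup (Perm Q) where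
  carrier := {g | g ∈ St x ∧ ∃ k : ℕ, g ^ (p ^ k) = 1}
  mul_mem' := by
    rintro g h ⟨hg, k, hk⟩ ⟨hh, l, hl⟩
    refine ⟨mul_mem hg hh, k + l, ?_⟩
    have hc : Commute g h := hQ.comm_at hg hh
    rw [hc.mul_pow, pow_add, pow_mul, hk, one_pow, one_mul, mul_comm, pow_mul, hl, one_pow]
  one_mem' := ⟨one_mem _, 0, by simp⟩
  inv_mem' := by
    rintro g ⟨hg, k, hk⟩
    exact ⟨inv_mem hg, k, by rw [inv_pow, hk, inv_one]⟩

theorem jb_pel_pgroup {Q : Type u} [Loop Q] (hQ : AIM Q) (p : ℕ) (x : Q) :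
    IsPGroup p (jb_pel hQ p x) := by
  rintro ⟨g, hg, k, hk⟩
  exact ⟨k, Subtype.ext hk⟩

/-- lifting along a surjective homomorphism -/
theorem jb_lift {Q : Type u} {P : Type v} [Loop Q] [Loop P] {f : Q → P}
    (hf : ∀ x y, f (x * y) = f x * f y) (hs : Function.Surjective f)
    {g' : Perm P} (hg : g' ∈ Mlt P) : ∃ g ∈ Mlt Q, ∀ x, f (g x) = g' (f x) := by
  refine Subgroup.closure_induction (p := fun g' _ => ∃ g ∈ Mlt Q, ∀ x, f (g x) = g' (f x))
      ?_ ?_ ?_ ?_ hg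
  · rintro g (⟨a, rfl⟩ | ⟨a, rfl⟩)
    · obtain ⟨a, rfl⟩ := hs a
      exact ⟨L a, L_mem _, fun x => hf a x⟩
    · obtain ⟨a, rfl⟩ := hs a
      exact ⟨R a, R_mem _, fun x => hf x a⟩
  · exact ⟨1, one_mem _, fun x => rfl⟩
  · rintro g' h' _ _ ⟨g, hg, eg⟩ ⟨h, hh, eh⟩
    exact ⟨g * h, mul_mem hg hh, fun x => by rw [Perm.mul_apply, eg, eh]; rfl⟩
  · rintro g' _ ⟨g, hg, eg⟩
    refine ⟨g⁻¹, inv_mem hg, fun x => ?_⟩
    rw [Perm.eq_inv_iff_eq, ← eg, pai]

/-- congruences permute -/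
theorem jb_perm {Q : Type u} [Loop Q] {r s : Setoid Q} (hr : Inv r) (hs : Inv s) {x y z : Q}
    (h1 : r x y) (h2 : s y z) : ∃ w, s x w ∧ r w z := by
  refine ⟨LpAim.rd x y * z, ?_, ?_⟩
  · have := hs (L (LpAim.rd x y)) (L_mem _) _ _ h2
    rw [L_apply, L_apply, rd_mul] at this
    exact this
  · have h3 := hr (R y)⁻¹ (inv_mem (R_mem y)) _ _ h1
    rw [R_inv_apply, R_inv_apply, rd_self] at h3
    have h4 := hr (R z) (R_mem z) _ _ h3
    rw [R_apply, R_apply, lone_mul] at h4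
    exact h4

/-- the join of two permuting congruences -/
def jb_join {Q : Type u} [Loop Q] {r s : Setoid Q} (hr : Inv r) (hs : Inv s) : Setoid Q where
  r x y := ∃ w, s x w ∧ r w y
  iseqv := by
    refine ⟨fun x => ⟨x, s.refl x, r.refl x⟩, ?_, ?_⟩
    · rintro x y ⟨w, h1, h2⟩
      exact jb_perm hr hs (r.symm h2) (s.symm h1)
    · rintro x y z ⟨w, h1, h2⟩ ⟨w', h3, h4⟩
      obtain ⟨v, h5, h6⟩ := jb_perm hr hs h2 h3
      exact ⟨v, s.trans h1 h5, r.trans h6 h4⟩

theorem jb_join_iff {Q : Type u} [Loop Q] {r s : Setoid Q} (hr : Inv r) (hs : Inv s) (x y : Q) :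
    (jb_join hr hs) x y ↔ ∃ w, s x w ∧ r w y := Iff.rfl

theorem jb_join_inv {Q : Type u} [Loop Q] {r s : Setoid Q} (hr : Inv r) (hs : Inv s) :
    Inv (jb_join hr hs) := by
  rintro g hg x y ⟨w, h1, h2⟩
  exact ⟨g w, hs g hg _ _ h1, hr g hg _ _ h2⟩

/-- the congruence on the quotient by `s` induced by a congruence `t ≥ s` -/
def jb_desc {Q : Type u} [Loop Q] {s t : Setoid Q} (hs : Inv s) (hst : ∀ x y, s x y → t x y) :
    Setoid (LQ s hs) where
  r a b := ∃ x y, pr s hs x = a ∧ pr s hs y = b ∧ t x y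
  iseqv := by
    refine ⟨fun a => ?_, ?_, ?_⟩
    · obtain ⟨x, rfl⟩ := pr_surj s hs a
      exact ⟨x, x, rfl, rfl, t.refl x⟩
    · rintro a b ⟨x, y, rfl, rfl, h⟩
      exact ⟨y, x, rfl, rfl, t.symm h⟩
    · rintro a b c ⟨x, y, rfl, rfl, h⟩ ⟨y', z, e, rfl, h'⟩
      rw [pr_eq] at e
      exact ⟨x, z, rfl, rfl, t.trans h (t.trans (t.symm (hst _ _ e)) h')⟩

theorem jb_desc_iff {Q : Type u} [Loop Q] {s t : Setoid Q} (hs : Inv s)
    (hst : ∀ x y, s x y → t x y) (x y : Q) :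
    (jb_desc hs hst) (pr s hs x) (pr s hs y) ↔ t x y := by
  constructor
  · rintro ⟨x', y', e, e', h⟩
    rw [pr_eq] at e e'
    exact t.trans (t.symm (hst _ _ e)) (t.trans h (hst _ _ e'))
  · intro h
    exact ⟨x, y, rfl, rfl, h⟩

theorem jb_desc_inv {Q : Type u} [Loop Q] {s t : Setoid Q} (hs : Inv s)
    (hst : ∀ x y, s x y → t x y) (ht : Inv t) : Inv (jb_desc hs hst) := by
  rintro g' hg' a b ⟨x, y, rfl, rfl, h⟩
  obtain ⟨g, hg, e⟩ := jb_lift (pr_mul s hs) (pr_surj s hs) hg'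
  exact ⟨g x, g y, e x, e y, ht g hg _ _ h⟩

/-- the order of an element of any stabilizer divides the order of the inner mapping group -/
theorem jb_order_dvd {Q : Type u} [Loop Q] [Finite Q] {x : Q} {g : Perm Q} (hg : g ∈ St x) :
    orderOf g ∣ Nat.card (St (1 : Q)) := by
  have e : (L x)⁻¹ x = 1 := ld_self x
  have h1 := conj_St (inv_mem (L_mem x)) hg
  rw [e] at h1
  have h2 : orderOf ((L x)⁻¹ * g * (L x)⁻¹⁻¹) = orderOf g := by
    have := orderOf_injective (MulAut.conj (L x)⁻¹).toMonoidHom (MulAut.conj (L x)⁻¹).injective g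
    rw [← this]
    rfl
  rw [← h2]
  have h3 : orderOf (⟨_, h1⟩ : St (1 : Q)) = orderOf ((L x)⁻¹ * g * (L x)⁻¹⁻¹) := by
    rw [← Subgroup.orderOf_coe]
  rw [← h3]
  exact orderOf_dvd_natCard _

theorem jb_all_primes {Q : Type u} [Loop Q] [Finite Q] {x y : Q}
    (h : ∀ p : ℕ, p.Prime → p ∣ Nat.card (St (1 : Q)) → (sp Q p) x y) {g : Perm Q}
    (hg : g ∈ St x) : g y = y := by
  have hn : 0 < orderOf g := orderOf_pos g
  have hk : Function.minimalPeriod g y = 1 := by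
    by_contra hne
    obtain ⟨p, hp, hpk⟩ := Nat.exists_prime_and_dvd hne
    have hper : Function.minimalPeriod g y ∣ orderOf g := by
      apply Function.IsPeriodicPt.minimalPeriod_dvd
      show (⇑g)^[orderOf g] y = y
      rw [Equiv.Perm.iterate_eq_pow, pow_orderOf_eq_one]; rfl
    obtain ⟨a, m, hpm, hm⟩ := Nat.exists_eq_pow_mul_and_not_dvd hn.ne' p hp.ne_one
    have hpd : p ∣ Nat.card (St (1 : Q)) := (hpk.trans hper).trans (jb_order_dvd hg)
    have h2 := h p hp hpd (g ^ m) (pow_mem hg.1 m) ⟨a, by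
      rw [← pow_mul, mul_comm m, ← hm, pow_orderOf_eq_one]⟩
    have h3 : (g ^ m) x = x := (pow_mem hg m : g ^ m ∈ St x).2
    have h4 := h2.1 h3
    have h5 : Function.minimalPeriod g y ∣ m := by
      apply Function.IsPeriodicPt.minimalPeriod_dvd
      show (⇑g)^[m] y = y
      rw [Equiv.Perm.iterate_eq_pow]; exact h4
    exact hpm (hpk.trans h5)
  exact Function.minimalPeriod_eq_one_iff_isFixedPt.1 hk

theorem jb_induced_trivial {Q : Type u} {P : Type v} [Loop Q] [Loop P] [Finite Q] [Finite P]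
    {f : Q → P} (hf : ∀ x y, f (x * y) = f x * f y) (hs : Function.Surjective f) (p : ℕ)
    (hp : p.Prime) (hP : ¬ p ∣ Nat.card (St (1 : P))) {g : Perm Q} (hg : g ∈ St (1 : Q))
    {k : ℕ} (hk : g ^ (p ^ k) = 1) (x : Q) : f (g x) = f x := by
  obtain ⟨g', hg', e⟩ := inner_induced hf hg
  have e2 : ∀ n : ℕ, ∀ x, f ((g ^ n) x) = (g' ^ n) (f x) := by
    intro n
    induction n with
    | zero => intro x; rfl
    | succ n ih =>
      intro x
      rw [pow_succ, pow_succ, Perm.mul_apply, Perm.mul_apply, ih, e]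
  have e3 : g' ^ (p ^ k) = 1 := by
    ext y
    obtain ⟨y, rfl⟩ := hs y
    rw [← e2, hk]; rfl
  have e4 : g' = 1 := by
    have h1 : orderOf g' ∣ p ^ k := orderOf_dvd_of_pow_eq_one e3
    have h2 := jb_order_dvd hg'
    obtain ⟨j, hj, ej⟩ := (Nat.dvd_prime_pow hp).1 h1
    rcases Nat.eq_zero_or_pos j with h0 | h0
    · rw [h0, pow_zero] at ej
      exact orderOf_eq_one_iff.1 ej
    · exfalso
      apply hP
      refine Dvd.dvd.trans ?_ h2
      rw [ej]
      exact dvd_pow_self p h0.ne'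
  rw [e, e4]; rfl

/-- the inductive statement -/
def jb_main (Q : Type u) [Loop Q] : Prop :=
  (∀ p : ℕ, p.Prime → ¬ p ∣ Nat.card Q → ¬ p ∣ Nat.card (St (1 : Q))) ∧
  (∀ s : Setoid Q, Inv s → s ≠ ⊥ → ∃ x y : Q, x ≠ y ∧ s x y ∧ St x = St y)

theorem jb_ne_bot {Q : Type u} {s : Setoid Q} {x y : Q} (h : s x y) (hn : x ≠ y) : s ≠ ⊥ := by
  rintro rfl
  exact hn h

theorem jb_exists_of_ne_bot {Q : Type u} {s : Setoid Q} (hs : s ≠ ⊥) : ∃ x y, s x y ∧ x ≠ y := by
  by_contra hcon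
  push Not at hcon
  apply hs
  ext x y
  exact ⟨fun h => hcon x y h, fun h => by
    have h' : x = y := h
    subst h'; exact s.refl x⟩

theorem jb_part3
    (h1 : ∀ (Q : Type u) [Loop Q] [Finite Q] (p : ℕ) (x y : Q),
      (∀ g ∈ St x, (∃ k : ℕ, g ^ (p ^ k) = 1) → g y = y) → (sp Q p) x y)
    (h2 : ∀ (Q : Type u) [Loop Q] [Finite Q], AIM Q → ∀ (p : ℕ), p.Prime →
      p ∣ Nat.card (St (1 : Q)) → p ∣ Nat.card Q → ∃ y : Q, y ≠ 1 ∧ (sp Q p) 1 y)
    (h3 : ∀ (Q : Type u) [Loop Q] [Finite Q], AIM Q → (∀ s : Setoid Q, Inv s → s = ⊥ ∨ s = ⊤) →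
      (∀ x y : Q, St x = St y → x = y) → Subsingleton Q)
    (Q : Type u) [Loop Q] [Finite Q] (hQ : AIM Q)
    (ih : ∀ (s : Setoid Q) (hs : Inv s), s ≠ ⊥ → jb_main (LQ s hs))
    (s : Setoid Q) (hs : Inv s) (hsb : s ≠ ⊥) : ∃ x y : Q, x ≠ y ∧ s x y ∧ St x = St y := by
  classical
  obtain ⟨r, hr⟩ := (Set.toFinite {t : Setoid Q | Inv t ∧ t ≠ ⊥ ∧ t ≤ s}).exists_minimal
    ⟨s, hs, hsb, le_refl s⟩
  obtain ⟨⟨hri, hrb, hrs⟩, hmin⟩ := hr
  have hmin' : ∀ t : Setoid Q, Inv t → t ≠ ⊥ → t ≤ r → r ≤ t := fun t h1 h2 h3 =>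
    hmin ⟨h1, h2, h3.trans hrs⟩ h3
  by_cases hrt : r = ⊤
  · by_contra hcon
    push Not at hcon
    have hall : ∀ t : Setoid Q, Inv t → t = ⊥ ∨ t = ⊤ := by
      intro t ht
      by_cases htb : t = ⊥
      · exact Or.inl htb
      · right
        have := hmin' t ht htb (by rw [hrt]; exact le_top)
        rw [hrt] at this
        exact top_le_iff.1 this
    have hst : s = ⊤ := top_le_iff.1 (hrt ▸ hrs)
    have hsub := h3 Q hQ hall (fun x y hxy => by
      by_contra hne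
      exact hcon x y hne (by rw [hst]; trivial) hxy)
    apply hsb
    ext x y
    exact ⟨fun _ => Subsingleton.elim x y, fun _ => by rw [Subsingleton.elim x y]⟩
  · have hm : jb_main (LQ r hri) := ih r hri hrb
    -- an element outside the class of 1
    obtain ⟨x0, hx0⟩ : ∃ x0, ¬ r 1 x0 := by
      by_contra hcon
      push Not at hcon
      apply hrt
      ext a b
      exact ⟨fun _ => trivial, fun _ => r.trans (r.symm (hcon a)) (hcon b)⟩
    have key : ∀ p : ℕ, p.Prime → p ∣ Nat.card (St (1 : Q)) → sp Q p ≠ ⊥ := by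
      intro p hp hpd
      by_cases hpQ : p ∣ Nat.card Q
      · obtain ⟨y, hy, hsp⟩ := h2 Q hQ p hp hpd hpQ
        exact jb_ne_bot hsp hy.symm
      · have : Fact p.Prime := ⟨hp⟩
        have hP : ¬ p ∣ Nat.card (St (1 : LQ r hri)) :=
          hm.1 p hp (fun h => hpQ (h.trans (jb_card_dvd hri)))
        have hpres : ∀ g ∈ jb_pel hQ p 1, ∀ x, r (g x) x := by
          rintro g ⟨hg, k, hk⟩ x
          rw [← pr_eq r hri]
          exact jb_induced_trivial (pr_mul r hri) (pr_surj r hri) p hp hP hg hk x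
        obtain ⟨y, hy, hfix⟩ := jb_fixed p (jb_pel hQ p 1) (jb_pel_pgroup hQ p 1)
          {z | r x0 z} (fun g hg x hx => r.trans hx (r.symm (hpres g hg x)))
          (fun h => hpQ (h.trans (jb_class_dvd hri x0)))
        have hsp : (sp Q p) 1 y := h1 Q p 1 y (fun g hg hk => hfix g ⟨hg, hk⟩)
        refine jb_ne_bot hsp ?_
        rintro rfl
        exact hx0 (r.symm hy)
    by_cases hall : ∀ p : ℕ, p.Prime → p ∣ Nat.card (St (1 : Q)) → r ≤ sp Q p
    · obtain ⟨x, y, hxy, hne⟩ := jb_exists_of_ne_bot hrb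
      refine ⟨x, y, hne, hrs hxy, ?_⟩
      apply le_antisymm
      · intro g hg
        exact ⟨hg.1, jb_all_primes (fun p hp hpd => hall p hp hpd hxy) hg⟩
      · intro g hg
        exact ⟨hg.1, jb_all_primes (fun p hp hpd => hall p hp hpd (r.symm hxy)) hg⟩
    · push Not at hall
      obtain ⟨p, hp, hpd, hnle⟩ := hall
      have hspb := key p hp hpd
      have hspi := sp_inv Q p
      have hinf : r ⊓ sp Q p = ⊥ := by
        by_contra hne
        have hinv : Inv (r ⊓ sp Q p) := fun g hg x y h => ⟨hri g hg x y h.1, hspi g hg x y h.2⟩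
        exact hnle ((hmin' _ hinv hne inf_le_left).trans inf_le_right)
      have hinf' : ∀ x y, r x y → (sp Q p) x y → x = y := by
        intro x y hx hy
        have : (r ⊓ sp Q p) x y := ⟨hx, hy⟩
        rw [hinf] at this
        exact this
      have hst : ∀ x y, (sp Q p) x y → (jb_join hri hspi) x y := fun x y h => ⟨y, h, r.refl y⟩
      have hm' : jb_main (LQ (sp Q p) hspi) := ih _ hspi hspb
      have hti := jb_desc_inv hspi hst (jb_join_inv hri hspi)
      have htb : jb_desc hspi hst ≠ ⊥ := by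
        have : ∃ a b, r a b ∧ ¬ (sp Q p) a b := by
          by_contra hcon
          push Not at hcon
          exact hnle (fun {a b} h => hcon a b h)
        obtain ⟨a, b, hab, hnab⟩ := this
        refine jb_ne_bot ((jb_desc_iff hspi hst a b).2 ⟨a, (sp Q p).refl a, hab⟩) ?_
        rw [Ne, pr_eq]; exact hnab
      obtain ⟨X, Y, hXY, htXY, hSt⟩ := hm'.2 _ hti htb
      obtain ⟨x, rfl⟩ := pr_surj _ hspi X
      obtain ⟨y, rfl⟩ := pr_surj _ hspi Y
      rw [jb_desc_iff] at htXY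
      obtain ⟨w, hxw, hwy⟩ := htXY
      rw [Ne, pr_eq] at hXY
      have hXw : pr _ hspi x = pr _ hspi w := (pr_eq _ hspi x w).2 hxw
      refine ⟨w, y, ?_, hrs hwy, ?_⟩
      · rintro rfl; exact hXY hxw
      · rw [hXw] at hSt
        -- both inclusions
        have hincl : ∀ a b : Q, r a b → St (pr _ hspi a) = St (pr _ hspi b) →
            ∀ h ∈ St a, h ∈ St b := by
          intro a b hab hSab h hh
          refine ⟨hh.1, ?_⟩
          obtain ⟨h', hh', e⟩ := exists_induced (pr_mul _ hspi) hh.1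
          have ha : h a = a := hh.2
          have h4 : h' ∈ St (pr _ hspi a) := ⟨hh', by
            show h' (pr _ hspi a) = pr _ hspi a
            rw [← e, ha]⟩
          rw [hSab] at h4
          have h5 : h' (pr _ hspi b) = pr _ hspi b := h4.2
          rw [← e, pr_eq] at h5
          have h6 : r (h a) (h b) := hri h hh.1 _ _ hab
          rw [ha] at h6
          exact hinf' _ _ (r.trans (r.symm h6) hab) h5
        ext h
        exact ⟨hincl w y hwy hSt h, hincl y w (r.symm hwy) hSt.symm h⟩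

theorem jb_part2 (Q : Type u) [Loop Q] [Finite Q] 
    (ih : ∀ (s : Setoid Q) (hs : Inv s), s ≠ ⊥ → jb_main (LQ s hs))
    (h3 : ∀ s : Setoid Q, Inv s → s ≠ ⊥ → ∃ x y : Q, x ≠ y ∧ s x y ∧ St x = St y)
    (p : ℕ) (hp : p.Prime) (hpQ : ¬ p ∣ Nat.card Q) : ¬ p ∣ Nat.card (St (1 : Q)) := by
  intro hpd
  have : Fact p.Prime := ⟨hp⟩
  obtain ⟨⟨h, hh⟩, ho⟩ := exists_prime_orderOf_dvd_card' p hpd
  have ho' : orderOf h = p := by
    rw [← ho, ← Subgroup.orderOf_coe]
  have hpow : h ^ (p ^ 1) = 1 := by rw [pow_one, ← ho', pow_orderOf_eq_one]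
  have hne1 : h ≠ 1 := by
    rintro rfl
    rw [orderOf_one] at ho'
    exact hp.one_lt.ne ho'
  have hex : ∃ z, h z ≠ z := by
    by_contra hcon
    push Not at hcon
    exact hne1 (Equiv.ext hcon)
  obtain ⟨z, hz⟩ := hex
  have htop : (⊤ : Setoid Q) ≠ ⊥ := jb_ne_bot (x := h z) (y := z) trivial hz
  have htopi : Inv (⊤ : Setoid Q) := fun _ _ _ _ _ => trivial
  obtain ⟨x, y, hxy, -, hSt⟩ := h3 ⊤ htopi htop
  have hcb : cen Q ≠ ⊥ := jb_ne_bot (s := cen Q) (x := x) (y := y) hSt hxy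
  have hm := ih (cen Q) cen_inv hcb
  have hP : ¬ p ∣ Nat.card (St (1 : LQ (cen Q) cen_inv)) :=
    hm.1 p hp (fun h => hpQ (h.trans (jb_card_dvd cen_inv)))
  have hpres : ∀ x, (cen Q) (h x) x := by
    intro x
    rw [← pr_eq (cen Q) cen_inv]
    exact jb_induced_trivial (pr_mul _ cen_inv) (pr_surj _ cen_inv) p hp hP hh hpow x
  have hpg : IsPGroup p (Subgroup.zpowers h) := by
    rintro ⟨g, hg⟩
    obtain ⟨n, rfl⟩ := Subgroup.mem_zpowers_iff.1 hg
    refine ⟨1, Subtype.ext ?_⟩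
    show (h ^ n) ^ (p ^ 1) = 1
    rw [← zpow_natCast, ← zpow_mul, mul_comm, zpow_mul, zpow_natCast, hpow, one_zpow]
  -- `h` preserves the class of `z`
  have hpres2 : ∀ g ∈ Subgroup.zpowers h, ∀ x, (cen Q) (g x) x := by
    intro g hg
    refine Subgroup.closure_induction (k := {h}) (p := fun g _ => ∀ x, (cen Q) (g x) x)
      ?_ ?_ ?_ ?_ (by rwa [← Subgroup.zpowers_eq_closure])
    · rintro g rfl x; exact hpres x
    · intro x; exact (cen Q).refl x
    · intro a b _ _ ha hb x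
      exact (cen Q).trans (ha (b x)) (hb x)
    · intro a _ ha x
      have := ha (a⁻¹ x)
      rw [pai] at this
      exact (cen Q).symm this
  obtain ⟨w, hw, hfix⟩ := jb_fixed p (Subgroup.zpowers h) hpg {u | (cen Q) z u}
    (fun g hg x hx => (cen Q).trans hx ((cen Q).symm (hpres2 g hg x)))
    (fun h => hpQ (h.trans (jb_class_dvd cen_inv z)))
  have h5 : h w = w := hfix h (Subgroup.mem_zpowers h)
  have h6 : h ∈ St w := ⟨hh.1, h5⟩
  have h7 : St z = St w := hw
  rw [← h7] at h6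
  exact hz h6.2

theorem jb_induct
    (h1 : ∀ (Q : Type u) [Loop Q] [Finite Q] (p : ℕ) (x y : Q),
      (∀ g ∈ St x, (∃ k : ℕ, g ^ (p ^ k) = 1) → g y = y) → (sp Q p) x y)
    (h2 : ∀ (Q : Type u) [Loop Q] [Finite Q], AIM Q → ∀ (p : ℕ), p.Prime →
      p ∣ Nat.card (St (1 : Q)) → p ∣ Nat.card Q → ∃ y : Q, y ≠ 1 ∧ (sp Q p) 1 y)
    (h3 : ∀ (Q : Type u) [Loop Q] [Finite Q], AIM Q → (∀ s : Setoid Q, Inv s → s = ⊥ ∨ s = ⊤) →
      (∀ x y : Q, St x = St y → x = y) → Subsingleton Q)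
    (n : ℕ) : ∀ (Q : Type u) [Loop Q] [Finite Q], AIM Q → Nat.card Q = n → jb_main Q := by
  induction n using Nat.strong_induction_on with
  | _ n ihn =>
    intro Q _ _ hQ hn
    have ih : ∀ (s : Setoid Q) (hs : Inv s), s ≠ ⊥ → jb_main (LQ s hs) := by
      intro s hs hsb
      exact ihn _ (hn ▸ jb_card_lt hs hsb) (LQ s hs) (hQ.quot s hs) rfl
    have h := jb_part3 h1 h2 h3 Q hQ ih
    exact ⟨jb_part2 Q ih h, h⟩

end job2951

/-- A finite loop with abelian inner mapping group is nilpotent.  The hypotheses `h1`, `h2`, `h3`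
are lemmas proved in another job. -/
theorem nilp_of_finite
    (h1 : ∀ (Q : Type u) [Loop Q] [Finite Q] (p : ℕ) (x y : Q),
      (∀ g ∈ St x, (∃ k : ℕ, g ^ (p ^ k) = 1) → g y = y) → (sp Q p) x y)
    (h2 : ∀ (Q : Type u) [Loop Q] [Finite Q], AIM Q → ∀ (p : ℕ), p.Prime →
      p ∣ Nat.card (St (1 : Q)) → p ∣ Nat.card Q → ∃ y : Q, y ≠ 1 ∧ (sp Q p) 1 y)
    (h3 : ∀ (Q : Type u) [Loop Q] [Finite Q], AIM Q → (∀ s : Setoid Q, Inv s → s = ⊥ ∨ s = ⊤) →
      (∀ x y : Q, St x = St y → x = y) → Subsingleton Q)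
    (Q : Type u) [i : Loop Q] [Finite Q] (hQ : AIM Q) : Nilp Q i := by
  suffices H : ∀ n : ℕ, ∀ (Q : Type u) [i : Loop Q] [Finite Q], AIM Q → Nat.card Q = n →
      Nilp Q i from H _ Q hQ rfl
  intro n
  induction n using Nat.strong_induction_on with
  | _ n ihn =>
    intro Q i _ hQ hn
    by_cases hsub : Subsingleton Q
    · exact Nilp.triv Q i hsub
    · have hm := jb_induct h1 h2 h3 _ Q hQ rfl
      have : Nontrivial Q := not_subsingleton_iff_nontrivial.1 hsub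
      obtain ⟨a, b, hab⟩ := this
      have htop : (⊤ : Setoid Q) ≠ ⊥ := jb_ne_bot (x := a) (y := b) trivial hab
      obtain ⟨x, y, hxy, -, hSt⟩ := hm.2 ⊤ (fun _ _ _ _ _ => trivial) htop
      have hcb : cen Q ≠ ⊥ := jb_ne_bot (s := cen Q) (x := x) (y := y) hSt hxy
      exact Nilp.step Q i (ihn _ (hn ▸ jb_card_lt cen_inv hcb) (LQ (cen Q) cen_inv)
        (hQ.quot _ cen_inv) rfl)

end LpAim
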