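import Pool.Agent.Helper548.LoopClass

/-!
# The forms `ψ`, `θ`, `τ` on a loop of class at most three
-/

namespace LpAim

open Equiv

universe u v

section
variable {Q : Type u} [Loop Q]

noncomputable def ps (a b x y z : Q) : Zn Q := Ph (l a b) (l x y) z
noncomputable def th (x a b w : Q) : Zn Q := Ph (T x) (l a b) w
noncomputable def ta (a x w : Q) : Zn Q := Ph (T a) (T x) w

variable (hQ : AIM Q) (hA : Al Q)

include hQ hA

theorem ps_s (a b x y z : Q) : ps a b x y z = ps x y a b z :=
  Ph_symm hQ hA (l_mem a b) (l_mem x y) z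

theorem ps_c (a b x y z : Q) : ps a b x y z = ps x b a z y := by
  unfold ps
  rw [← Ph_A hA (l_mem a b), Ph_symm hQ hA (l_mem a b) (A_mem x z), ← Ph_A hA (A_mem x z),
    Ph_symm hQ hA (A_mem x z) (A_mem a y), Ph_A hA (A_mem a y) x b z,
    Ph_symm hQ hA (A_mem a y) (l_mem x b), Ph_A hA (l_mem x b) a z y]

theorem ps_d (a b x y z : Q) : ps a b x y z = ps a y z b x := by
  unfold ps
  have h1 := Ph_r hQ hA (l_mem a b) x y z
  have h2 := Ph_symm hQ hA (l_mem a b) (r_mem y z) x
  have h3 := Ph_r hQ hA (r_mem y z) a b x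
  have h4 := Ph_symm hQ hA (r_mem b x) (r_mem y z) a
  have h5 := Ph_r hQ hA (r_mem b x) a y z
  have h6 := Ph_symm hQ hA (l_mem a y) (r_mem b x) z
  have h7 := Ph_r hQ hA (l_mem a y) z b x
  -- ps a b x y z = - Ph (l a b) (r y z) x = - Ph (r y z) (l a b) x = Ph (r y z) (r b x) a
  calc Ph (l a b) (l x y) z = - Ph (l a b) (r y z) x := by rw [h1]; abel
    _ = - Ph (r y z) (l a b) x := by rw [h2]
    _ = Ph (r y z) (r b x) a := by rw [h3]
    _ = Ph (r b x) (r y z) a := h4.symm
    _ = - Ph (r b x) (l a y) z := h5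
    _ = - Ph (l a y) (r b x) z := by rw [h6]
    _ = Ph (l a y) (l z b) x := by rw [h7]; abel

theorem ps_cs (a b x y z : Q) : ps a b x y z = ps a y x z b := by
  rw [ps_s hQ hA, ps_c hQ hA]

theorem ps_cyc3 (a b x y z : Q) : ps a b x y z = ps a b z x y := by
  rw [ps_d hQ hA, ps_cs hQ hA]

theorem th_14 (x a b w : Q) : th x a b w = - th w a b x := by
  unfold th
  rw [Ph_symm hQ hA (T_mem x) (l_mem a b), Ph_T hQ hA (l_mem a b) w x,
    Ph_symm hQ hA (l_mem a b) (T_mem w)]

theorem th_13 (x a b w : Q) : th x a b w = - th b a x w := by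
  unfold th
  rw [← Ph_A hA (T_mem x), Ph_symm hQ hA (T_mem x) (A_mem a w), Ph_T hQ hA (A_mem a w) b x,
    Ph_symm hQ hA (A_mem a w) (T_mem b), Ph_A hA (T_mem b)]

theorem th_12 (x a b w : Q) : th x a b w = - th a x b w := by
  unfold th
  have h1 := Ph_r hQ hA (T_mem x) a b w
  have h2 := Ph_symm hQ hA (T_mem x) (r_mem b w) a
  have h3 := Ph_T hQ hA (r_mem b w) a x
  have h4 := Ph_symm hQ hA (r_mem b w) (T_mem a) x
  have h5 := Ph_r hQ hA (T_mem a) x b w
  calc Ph (T x) (l a b) w = - Ph (T x) (r b w) a := by rw [h1]; abel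
    _ = - Ph (r b w) (T x) a := by rw [h2]
    _ = Ph (r b w) (T a) x := by rw [h3]; abel
    _ = Ph (T a) (r b w) x := h4
    _ = - Ph (T a) (l x b) w := h5

theorem th_14_self (x a b : Q) : th x a b x = 0 := by
  unfold th
  rw [Ph_symm hQ hA (T_mem x) (l_mem a b), Ph_T_self (l_mem a b)]

theorem th_23 (x a b w : Q) : th x a b w = - th x b a w := by
  have h1 := th_12 hQ hA x a b w
  have h2 := th_13 hQ hA a x b w
  have h3 := th_12 hQ hA b x a w
  rw [h1, h2, h3, neg_neg]

theorem th_34 (x a b w : Q) : th x a b w = - th x a w b := by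
  have h1 := th_14 hQ hA x a b w
  have h2 := th_13 hQ hA w a b x
  have h3 := th_14 hQ hA b a w x
  rw [h1, h2, neg_neg, h3]

theorem ta_12 (a x w : Q) : ta a x w = ta x a w :=
  Ph_symm hQ hA (T_mem a) (T_mem x) w

theorem ta_23 (a x w : Q) : ta a x w = - ta a w x := Ph_T hQ hA (T_mem a) w x

omit hQ hA in
theorem ta_23_self (a x : Q) : ta a x x = 0 := Ph_T_self (T_mem a) x

theorem ta_13 (a x w : Q) : ta a x w = - ta w x a := by
  rw [ta_12 hQ hA, ta_23 hQ hA, ta_12 hQ hA]

theorem ta_two (a x w : Q) : ta a x w + ta a x w = 0 := by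
  -- (13) transposition in two ways
  have h1 := ta_13 hQ hA a x w
  have h2 : ta a x w = ta w x a := by
    calc ta a x w = - ta a w x := ta_23 hQ hA a x w
      _ = - ta w a x := by rw [ta_12 hQ hA a w x]
      _ = ta w x a := by rw [ta_23 hQ hA w a x, neg_neg]
  rw [← h2] at h1
  nth_rewrite 1 [h1]
  exact neg_add_cancel _

/-- relation (1) -/
theorem rel1 (a b x y w : Q) : th (x * y) a b w - th x a b w - th y a b w
    = ps a b x w y - ps a b x y w - ps a b x y w := by
  have h := Ph_rel hQ hA (l_mem a b) x y w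
  have e1 : Ph (l a b) (T (x * y)) w = th (x * y) a b w :=
    Ph_symm hQ hA (l_mem a b) (T_mem _) w
  have e2 : Ph (l a b) (T x) w = th x a b w := Ph_symm hQ hA (l_mem a b) (T_mem _) w
  have e3 : Ph (l a b) (T y) w = th y a b w := Ph_symm hQ hA (l_mem a b) (T_mem _) w
  have e4 : Ph (l a b) (l w x) y = ps a b x y w := (ps_cyc3 hQ hA a b x y w).symm
  rw [e1, e2, e3, e4] at h
  have h' : ps a b x w y = ps a b x y w + ps a b x y w + th (x * y) a b w - th x a b w
      - th y a b w := h
  rw [h']; abel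

theorem ps_45 (a b x y z : Q) : ps a b x z y = - ps a b x y z := by
  have h1 := rel1 hQ hA a b x y z
  have h2 := rel1 hQ hA a z x y b
  rw [th_34 hQ hA (x * y) a b z, th_34 hQ hA x a b z, th_34 hQ hA y a b z] at h1
  have e1 : ps a z x y b = ps a b x z y := by rw [ps_cs hQ hA, ps_cs hQ hA]
  have e2 : ps a z x b y = ps a b x y z := by rw [ps_cs hQ hA]
  rw [e1, e2] at h2
  linear_combination (norm := abel) h1 + h2

/-- relation (1') -/
theorem rel1' (a b x y w : Q) : th (x * y) a b w - th x a b w - th y a b w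
    = - (3 : ℤ) • ps a b x y w := by
  rw [rel1 hQ hA, ps_45 hQ hA]
  abel

/-- relation (2) -/
theorem rel2 (a x y w : Q) : ta a (x * y) w - ta a x w - ta a y w
    = - (3 : ℤ) • th a x y w := by
  have h := Ph_rel hQ hA (T_mem a) x y w
  have e1 : Ph (T a) (l x w) y = - th a x y w := th_34 hQ hA a x w y
  have e2 : Ph (T a) (l w x) y = th a x y w := by
    show th a w x y = th a x y w
    rw [th_23 hQ hA, th_34 hQ hA, neg_neg]
  have h' : - th a x y w = th a x y w + th a x y w + ta a (x * y) w - ta a x w - ta a y w := by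
    rw [← e1]
    nth_rewrite 2 [← e2]
    exact h
  linear_combination (norm := abel) -h'

theorem ps_34 (a b x y z : Q) : ps a b y x z = - ps a b x y z := by
  rw [ps_cyc3 hQ hA, ps_cyc3 hQ hA, ps_45 hQ hA]

theorem ps_12 (a b x y z : Q) : ps b a x y z = - ps a b x y z := by
  rw [ps_s hQ hA, ps_34 hQ hA, ps_s hQ hA x y a b z]

theorem ps_23 (a b x y z : Q) : ps a x b y z = - ps a b x y z := by
  have h3 : ∀ a b x y z : Q, ps a b x y z = ps b x a y z := by
    intro a b x y z
    rw [ps_c hQ hA, ps_45 hQ hA, ps_12 hQ hA, neg_neg]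
  rw [h3 a x b y z, ps_12 hQ hA b x a y z, ← h3 a b x y z]

theorem ps_13 (a b x y z : Q) : ps x b a y z = - ps a b x y z := by
  rw [ps_12 hQ hA, ps_23 hQ hA, ps_12 hQ hA, neg_neg]

theorem ta_sq (a x w : Q) : ta a (x * x) w = 0 := by
  have h := rel2 hQ hA a x x w
  have h0 : th a x x w = 0 := by
    rw [th_12 hQ hA, th_34 hQ hA, th_14_self hQ hA]
    simp
  rw [h0, smul_zero] at h
  have h2 := ta_two hQ hA a x w
  linear_combination (norm := abel) h + h2

theorem th_23_self (a x w : Q) : th a x x w = 0 := by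
  rw [th_12 hQ hA, th_34 hQ hA, th_14_self hQ hA]
  simp

theorem ps_34_self (a b x w : Q) : ps a b x x w = 0 := by
  have h1 := rel1' hQ hA a b x x w
  -- 3 θ(xx,a,b,w) = 0
  have h2 : (3 : ℤ) • th (x * x) a b w = 0 := by
    have h := rel2 hQ hA (x * x) a b w
    rw [ta_12 hQ hA (x * x) (a * b), ta_sq hQ hA, ta_12 hQ hA (x * x) a, ta_sq hQ hA,
      ta_12 hQ hA (x * x) b, ta_sq hQ hA] at h
    linear_combination (norm := abel) h
  -- 6 θ = 0
  have h3 : (6 : ℤ) • th x a b w = 0 := by
    have h := rel2 hQ hA x a b w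
    have t1 := ta_two hQ hA x (a * b) w
    have t2 := ta_two hQ hA x a w
    have t3 := ta_two hQ hA x b w
    linear_combination (norm := abel) h + h - t1 + t2 + t3
  have h4 : ps a b x x w + ps a b x x w = 0 := by
    have := ps_34 hQ hA a b x x w
    nth_rewrite 1 [this]
    exact neg_add_cancel _
  have h5 : (9 : ℤ) • ps a b x x w = 0 := by
    linear_combination (norm := module) (3 : ℤ) • h1 - h2 + h3
  have h6 : (8 : ℤ) • ps a b x x w = 0 := by
    linear_combination (norm := module) (4 : ℤ) • h4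
  linear_combination (norm := module) h5 - h6

/-- additivity of `ψ` -/
theorem ps_add3 (a b x y z w : Q) : ps a b (x * y) z w = ps a b x z w + ps a b y z w := by
  set D : Q → Q → Q → Q → Zn Q := fun x y z w =>
    ps a b (x * y) z w - ps a b x z w - ps a b y z w with hD
  have coc : ∀ x y z w : Q, ps a b x y (z * w) = ps a b x y z - ps a b (x * y) z w
      + ps a b x (y * z) w + ps a b y z w := fun x y z w => Ph_cocycle hQ hA (l_mem a b) x y z w
  have comm : ∀ x y z w : Q, ps a b (x * y) z w = ps a b (y * x) z w := by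
    intro x y z w
    have h1 := Ph_r hQ hA (l_mem a b) (x * y) z w
    have h2 := Ph_r hQ hA (l_mem a b) (y * x) z w
    have h3 := Ph_arg_comm hA (l_mem a b) (r_mem z w) x y
    have h4 : - ps a b (x * y) z w = - ps a b (y * x) z w := by
      show - Ph (l a b) (l (x * y) z) w = - Ph (l a b) (l (y * x) z) w
      rw [← h1, ← h2, h3]
    exact neg_injective h4
  have star : ∀ x y z w : Q, D x y z w + D y z x w + D z w x y = 0 := by
    intro x y z w
    have h := coc x y z w
    have e1 : ps a b x (y * z) w = - ps a b (y * z) x w := ps_34 hQ hA a b (y * z) x w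
    have e2 : ps a b x y (z * w) = ps a b (z * w) x y := ps_cyc3 hQ hA a b x y (z * w)
    have e3 : ps a b y x w = - ps a b x y w := ps_34 hQ hA a b x y w
    have e4 : ps a b z x w = - ps a b x z w := ps_34 hQ hA a b x z w
    have e5 : ps a b z x y = ps a b x y z := (ps_cyc3 hQ hA a b x y z).symm
    have e6 : ps a b w x y = ps a b x y w := (ps_cyc3 hQ hA a b x y w).symm
    simp only [hD]
    rw [e1, e2] at h
    rw [e3, e4, e5, e6, h]
    abel
  have sym : ∀ x y z w : Q, D x y z w = D y x z w := by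
    intro x y z w
    simp only [hD]
    rw [comm x y z w]; abel
  have anti : ∀ x y z w : Q, D x y z w = - D x y w z := by
    intro x y z w
    simp only [hD]
    rw [ps_45 hQ hA a b (x * y) w z, ps_45 hQ hA a b x w z, ps_45 hQ hA a b y w z]; abel
  have i1 : ∀ x y z w : Q, D x y z w + D x y z w + D y z x w + D x z y w = 0 := by
    intro x y z w
    have h1 := star x y z w
    have h2 := star y x z w
    rw [← sym x y z w, anti z w y x] at h2
    linear_combination (norm := abel) h1 + h2
  have rule : ∀ x y z w : Q, D x y z w = D y z x w := by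
    intro x y z w
    have h1 := i1 x y z w
    have h2 := i1 y z x w
    rw [sym z x y w, sym y x z w] at h2
    linear_combination (norm := abel) h1 - h2
  have four : ∀ x y z w : Q, (4 : ℤ) • D x y z w = 0 := by
    intro x y z w
    have h1 := i1 x y z w
    rw [← rule x y z w, sym x z y w, rule z x y w] at h1
    linear_combination (norm := abel) h1
  have three : ∀ x y z w : Q, (3 : ℤ) • D x y z w = 0 := by
    intro x y z w
    have h1 := star x y z w
    have h2 : D z w x y = D x y z w := by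
      rw [rule x y z w, anti y z x w, rule y z w x, anti z w y x, neg_neg]
    rw [h2, ← rule x y z w] at h1
    linear_combination (norm := abel) h1
  have h0 : D x y z w = 0 := by
    have h1 := four x y z w
    have h2 := three x y z w
    linear_combination (norm := module) h1 - h2
  simp only [hD] at h0
  linear_combination (norm := abel) h0

theorem ps_zero {p q r : Q} (hg : Gen3 p q r) (a b x y z : Q) : ps a b x y z = 0 := by
  refine alt4_zero hg (fun a b x y => ps a b x y z) ?_ ?_ ?_ ?_ ?_ ?_ ?_ ?_ ?_ ?_ a b x y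
  · intro x y b c d
    have h1 := ps_13 hQ hA (x * y) b c d z
    have h2 := ps_13 hQ hA x b c d z
    have h3 := ps_13 hQ hA y b c d z
    have h4 := ps_add3 hQ hA c b x y d z
    show ps (x * y) b c d z = ps x b c d z + ps y b c d z
    linear_combination (norm := abel) h1 - h2 - h3 - h4
  · intro x y a c d
    have h1 := ps_23 hQ hA a (x * y) c d z
    have h2 := ps_23 hQ hA a x c d z
    have h3 := ps_23 hQ hA a y c d z
    have h4 := ps_add3 hQ hA a c x y d z
    show ps a (x * y) c d z = ps a x c d z + ps a y c d z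
    linear_combination (norm := abel) h1 - h2 - h3 - h4
  · intro x y a b d
    exact ps_add3 hQ hA a b x y d z
  · intro x y a b c
    have h1 := ps_34 hQ hA a b c (x * y) z
    have h2 := ps_34 hQ hA a b c x z
    have h3 := ps_34 hQ hA a b c y z
    have h4 := ps_add3 hQ hA a b x y c z
    show ps a b c (x * y) z = ps a b c x z + ps a b c y z
    linear_combination (norm := abel) h1 - h2 - h3 - h4
  · intro x c d
    show ps x x c d z = 0
    rw [ps_s hQ hA, ps_34_self hQ hA]
  · intro x b d
    show ps x b x d z = 0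
    rw [ps_12 hQ hA b x, ps_23 hQ hA b x x, ← ps_23 hQ hA b x x, ps_12 hQ hA x b,
      ps_23 hQ hA x x b, ps_s hQ hA, ps_34_self hQ hA]
    simp
  · intro x b c
    show ps x b c x z = 0
    rw [ps_34 hQ hA x b x c, ps_23 hQ hA x x b, ps_s hQ hA, ps_34_self hQ hA]
    simp
  · intro x a d
    show ps a x x d z = 0
    rw [ps_12 hQ hA x a, ps_23 hQ hA x x a, ps_s hQ hA, ps_34_self hQ hA]
    simp
  · intro x a c
    show ps a x c x z = 0
    rw [ps_23 hQ hA a c x, ps_34_self hQ hA]
    simp
  · intro x a b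
    exact ps_34_self hQ hA a b x z

theorem th_add1 {p q r : Q} (hg : Gen3 p q r) (x y a b w : Q) :
    th (x * y) a b w = th x a b w + th y a b w := by
  have h := rel1' hQ hA a b x y w
  rw [ps_zero hQ hA hg, smul_zero] at h
  linear_combination (norm := abel) h

theorem th_zero {p q r : Q} (hg : Gen3 p q r) (a b x y : Q) : th a b x y = 0 := by
  have a1 := th_add1 hQ hA hg
  refine alt4_zero hg th ?_ ?_ ?_ ?_ ?_ ?_ ?_ ?_ ?_ ?_ a b x y
  · intro x y b c d; exact a1 x y b c d
  · intro x y a c d
    rw [th_12 hQ hA, a1, th_12 hQ hA a x c d, th_12 hQ hA a y c d]; abel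
  · intro x y a b d
    rw [th_13 hQ hA, a1, th_13 hQ hA a b x d, th_13 hQ hA a b y d]; abel
  · intro x y a b c
    rw [th_14 hQ hA, a1, th_14 hQ hA a b c x, th_14 hQ hA a b c y]; abel
  · intro x c d
    rw [th_13 hQ hA x x c d, th_23_self hQ hA]
    simp
  · intro x b d
    rw [th_12 hQ hA x b x d, th_23_self hQ hA]
    simp
  · intro x b c
    exact th_14_self hQ hA x b c
  · intro x a d
    exact th_23_self hQ hA a x d
  · intro x a c
    rw [th_34 hQ hA a x c x, th_23_self hQ hA]
    simp
  · intro x a b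
    rw [th_23 hQ hA a b x x, th_34 hQ hA a x b x, th_23_self hQ hA]
    simp

theorem ta_add2 {p q r : Q} (hg : Gen3 p q r) (a x y w : Q) :
    ta a (x * y) w = ta a x w + ta a y w := by
  have h := rel2 hQ hA a x y w
  rw [th_zero hQ hA hg, smul_zero] at h
  linear_combination (norm := abel) h

theorem ta_zero {p q : Q} (hg : Gen3 p q q) (a b c : Q) : ta a b c = 0 := by
  have a2 := ta_add2 hQ hA hg
  refine alt3_zero hg ta ?_ ?_ ?_ ?_ ?_ ?_ a b c
  · intro x y b c
    rw [ta_12 hQ hA, a2, ta_12 hQ hA b x c, ta_12 hQ hA b y c]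
  · intro x y a c
    exact a2 a x y c
  · intro x y a b
    rw [ta_23 hQ hA, a2, ta_23 hQ hA a x b, ta_23 hQ hA a y b]; abel
  · intro x c
    rw [ta_23 hQ hA, ta_12 hQ hA x c x, ta_23_self]
    simp
  · intro x b
    rw [ta_12 hQ hA, ta_23_self]
  · intro x a
    exact ta_23_self a x

end

end LpAim
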