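import Pool.Agent.Helper548.LoopBasic

namespace LpAim

open Equiv

universe u v

/-! ### target -/

/-- `x ~ y` iff the stabilizers of `x` and `y` contain the same `p`-elements. -/
def sp (Q : Type u) [Loop Q] (p : ℕ) : Setoid Q where
  r x y := ∀ g ∈ Mlt Q, (∃ k : ℕ, g ^ (p ^ k) = 1) → (g x = x ↔ g y = y)
  iseqv := ⟨fun _ _ _ _ => Iff.rfl, fun h g hg hk => (h g hg hk).symm,
    fun h1 h2 g hg hk => (h1 g hg hk).trans (h2 g hg hk)⟩

theorem sp_inv (Q : Type u) [Loop Q] (p : ℕ) : Inv (sp Q p) := by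
  intro g hg x y hxy h hh hk
  obtain ⟨k, hk⟩ := hk
  have e : (g⁻¹ * h * g) ^ (p ^ k) = 1 := by
    have : g⁻¹ * h * g = g⁻¹ * h * (g⁻¹)⁻¹ := by rw [inv_inv]
    rw [this, conj_pow, hk]; group
  have h2 := hxy (g⁻¹ * h * g) ((Mlt Q).mul_mem ((Mlt Q).mul_mem ((Mlt Q).inv_mem hg) hh) hg) ⟨k, e⟩
  simp only [Perm.mul_apply, Perm.inv_eq_iff_eq] at h2
  exact h2

/-- the p-elements of an abelian subgroup -/
def pel {G : Type*} [Group G] (H : Subgroup G) (hH : ∀ g ∈ H, ∀ h ∈ H, g * h = h * g) (p : ℕ) :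
    Subgroup G where
  carrier := {g | g ∈ H ∧ ∃ k : ℕ, g ^ (p ^ k) = 1}
  mul_mem' := by
    rintro a b ⟨ha, k, hk⟩ ⟨hb, l, hl⟩
    refine ⟨H.mul_mem ha hb, k + l, ?_⟩
    have hc : Commute a b := hH a ha b hb
    have e1 : a ^ (p ^ (k + l)) = 1 := by rw [pow_add, pow_mul, hk, one_pow]
    have e2 : b ^ (p ^ (k + l)) = 1 := by rw [add_comm, pow_add, pow_mul, hl, one_pow]
    rw [hc.mul_pow, e1, e2, one_mul]
  one_mem' := ⟨H.one_mem, 0, one_pow _⟩
  inv_mem' := by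
    rintro a ⟨ha, k, hk⟩
    exact ⟨H.inv_mem ha, k, by rw [inv_pow, hk, inv_one]⟩

theorem pel_isPGroup {G : Type*} [Group G] (H : Subgroup G)
    (hH : ∀ g ∈ H, ∀ h ∈ H, g * h = h * g) (p : ℕ) : IsPGroup p (pel H hH p) := by
  rintro ⟨g, hg, k, hk⟩
  exact ⟨k, Subtype.ext hk⟩

/-- If the `p`-elements of `St x` fix `y` then `x ~ y`. -/
theorem sp_of_sub (Q : Type u) [Loop Q] [Finite Q] (p : ℕ) (x y : Q)
    (h : ∀ g ∈ St x, (∃ k : ℕ, g ^ (p ^ k) = 1) → g y = y) : (sp Q p) x y := by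
  classical
  obtain ⟨P, hP⟩ : ∃ P : Q → Set (Perm Q),
    P = fun z => {g | g ∈ Mlt Q ∧ (∃ k : ℕ, g ^ (p ^ k) = 1) ∧ g z = z} := ⟨_, rfl⟩
  have hPm : ∀ z g, g ∈ P z ↔ g ∈ Mlt Q ∧ (∃ k : ℕ, g ^ (p ^ k) = 1) ∧ g z = z := by
    intro z g; rw [hP]; rfl
  have h1 : P x ⊆ P y := by
    intro g hg
    rw [hPm] at hg ⊢
    exact ⟨hg.1, hg.2.1, h g ⟨hg.1, hg.2.2⟩ hg.2.1⟩
  obtain ⟨g, hg, hgx⟩ := Mlt_trans x y
  have h2 : P y ⊆ (fun h => g * h * g⁻¹) '' P x := by
    intro h hh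
    rw [hPm] at hh
    refine ⟨g⁻¹ * h * g, (hPm _ _).2 ⟨(Mlt Q).mul_mem ((Mlt Q).mul_mem ((Mlt Q).inv_mem hg) hh.1) hg,
      ?_, ?_⟩, ?_⟩
    · obtain ⟨k, hk⟩ := hh.2.1
      refine ⟨k, ?_⟩
      have : g⁻¹ * h * g = g⁻¹ * h * (g⁻¹)⁻¹ := by rw [inv_inv]
      rw [this, conj_pow, hk]; group
    · show g⁻¹ (h (g x)) = x
      rw [hgx, hh.2.2, ← hgx, pia]
    · show g * (g⁻¹ * h * g) * g⁻¹ = h
      group
  have h3 : (P y).ncard ≤ (P x).ncard :=
    (Set.ncard_le_ncard h2 (Set.toFinite _)).trans (Set.ncard_image_le (Set.toFinite _))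
  have h4 : P x = P y := Set.eq_of_subset_of_ncard_le h1 h3 (Set.toFinite _)
  intro k hk hk2
  constructor
  · intro e
    have : k ∈ P x := (hPm _ _).2 ⟨hk, hk2, e⟩
    rw [h4] at this
    exact ((hPm _ _).1 this).2.2
  · intro e
    have : k ∈ P y := (hPm _ _).2 ⟨hk, hk2, e⟩
    rw [← h4] at this
    exact ((hPm _ _).1 this).2.2

/-- If `p` divides both `|Q|` and the order of the inner mapping group then `sp Q p` is
nontrivial. -/
theorem sp_ne_bot_of_dvd (Q : Type u) [Loop Q] [Finite Q] (hQ : AIM Q) (p : ℕ) (hp : p.Prime)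
    (h1 : p ∣ Nat.card (St (1 : Q))) (h2 : p ∣ Nat.card Q) : ∃ y : Q, y ≠ 1 ∧ (sp Q p) 1 y := by
  haveI : Fact p.Prime := ⟨hp⟩
  have hPG := pel_isPGroup (St (1 : Q)) hQ p
  have h1f : (1 : Q) ∈ MulAction.fixedPoints (pel (St (1 : Q)) hQ p) Q := by
    rintro ⟨g, hg⟩
    exact hg.1.2
  obtain ⟨b, hb, hb1⟩ := hPG.exists_fixed_point_of_prime_dvd_card_of_fixed_point Q h2 h1f
  refine ⟨b, fun e => hb1 e.symm, sp_of_sub Q p 1 b ?_⟩
  intro g hg hgk
  exact hb ⟨g, hg, hgk⟩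

/-- Cauchy: the congruence is not everything -/
theorem sp_ne_top (Q : Type u) [Loop Q] [Finite Q] (p : ℕ) (hp : p.Prime)
    (h1 : p ∣ Nat.card (St (1 : Q))) : sp Q p ≠ ⊤ := by
  intro htop
  haveI : Fact p.Prime := ⟨hp⟩
  obtain ⟨g, hg⟩ := exists_prime_orderOf_dvd_card' p h1
  have hg1 : (g : Perm Q) ^ p = 1 := by
    have := pow_orderOf_eq_one g
    rw [hg] at this
    exact congrArg Subtype.val this
  have hall : ∀ y : Q, (g : Perm Q) y = y := by
    intro y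
    have h2 : (sp Q p) 1 y := by rw [htop]; trivial
    exact (h2 g g.2.1 ⟨1, by rw [pow_one]; exact hg1⟩).1 g.2.2
  have hg2 : (g : Perm Q) = 1 := by ext y; exact hall y
  have hg3 : g = 1 := Subtype.ext hg2
  rw [hg3, orderOf_one] at hg
  exact hp.one_lt.ne hg

/-- a finite loop with only trivial congruences: the order of `A x y` is prime to every prime
dividing the order of the inner mapping group -/
theorem A_order (Q : Type u) [Loop Q] [Finite Q] (hQ : AIM Q)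
    (hs : ∀ s : Setoid Q, Inv s → s = ⊥ ∨ s = ⊤) (p : ℕ) (hp : p.Prime)
    (h1 : p ∣ Nat.card (St (1 : Q))) :
    ¬ p ∣ Nat.card Q ∧ ∀ x y : Q, ¬ p ∣ orderOf (A x y) := by
  haveI : Fact p.Prime := ⟨hp⟩
  have hbot : sp Q p = ⊥ := (hs _ (sp_inv Q p)).resolve_right (sp_ne_top Q p hp h1)
  have hbot' : ∀ x y : Q, (sp Q p) x y → x = y := by
    intro x y hxy
    rw [hbot] at hxy
    exact hxy
  have hpQ : ¬ p ∣ Nat.card Q := by
    intro h2
    obtain ⟨y, hy, hy2⟩ := sp_ne_bot_of_dvd Q hQ p hp h1 h2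
    exact hy (hbot' _ _ hy2).symm
  refine ⟨hpQ, ?_⟩
  haveI : Finite (Perm Q) := inferInstance
  haveI : Finite (Mlt Q) := inferInstance
  obtain ⟨P⟩ : Nonempty (Sylow p (Mlt Q)) := inferInstance
  obtain ⟨x, hx⟩ := P.isPGroup'.nonempty_fixed_point_of_prime_not_dvd_card Q hpQ
  have hx' : ∀ g : Mlt Q, g ∈ P → (g : Perm Q) x = x := fun g hg => hx ⟨g, hg⟩
  have hab : ∀ g ∈ (St x).subgroupOf (Mlt Q), ∀ h ∈ (St x).subgroupOf (Mlt Q), g * h = h * g := by
    intro g hg h hh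
    apply Subtype.ext
    exact AIM.comm_at hQ (Subgroup.mem_subgroupOf.1 hg) (Subgroup.mem_subgroupOf.1 hh)
  have hPpel : pel _ hab p = P := by
    apply P.is_maximal' (pel_isPGroup _ hab p)
    intro g hg
    refine ⟨Subgroup.mem_subgroupOf.2 ⟨g.2, hx' g hg⟩, ?_⟩
    obtain ⟨k, hk⟩ := P.isPGroup' ⟨g, hg⟩
    exact ⟨k, congrArg Subtype.val hk⟩
  have hmemP : ∀ g : Mlt Q, g ∈ P ↔ (g : Perm Q) ∈ St x ∧ ∃ k : ℕ, g ^ (p ^ k) = 1 := by
    intro g
    have : g ∈ P ↔ g ∈ pel _ hab p := by rw [hPpel]; rfl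
    rw [this]
    rfl
  have hNC : Subgroup.normalizer (P : Set (Mlt Q)) ≤ Subgroup.centralizer (P : Set (Mlt Q)) := by
    intro g hg
    have hgx : (sp Q p) x ((g : Perm Q) x) := by
      apply sp_of_sub
      intro h hh hk
      obtain ⟨k, hk⟩ := hk
      have hhP : (⟨h, hh.1⟩ : Mlt Q) ∈ P := (hmemP _).2 ⟨hh, k, Subtype.ext hk⟩
      have h3 : g⁻¹ * ⟨h, hh.1⟩ * g ∈ P := by
        have := (Subgroup.mem_normalizer_iff''.1 hg ⟨h, hh.1⟩).1 hhP
        exact this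
      have h4 := hx' _ h3
      have h5 : (g : Perm Q)⁻¹ (h ((g : Perm Q) x)) = x := h4
      rw [Perm.inv_eq_iff_eq] at h5
      exact h5
    have hgx2 : (g : Perm Q) x = x := (hbot' _ _ hgx).symm
    rw [Subgroup.mem_centralizer_iff]
    intro h hh
    have hh2 : (h : Perm Q) ∈ St x := ((hmemP h).1 hh).1
    have hg2 : (g : Perm Q) ∈ St x := ⟨g.2, hgx2⟩
    exact Subtype.ext (AIM.comm_at hQ hh2 hg2)
  intro a b hdvd
  obtain ⟨c, hc⟩ : ∃ c : Mlt Q, c = ⟨A a b, A_mem_Mlt a b⟩ := ⟨_, rfl⟩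
  have hcker : c ∈ (MonoidHom.transferSylow P hNC).ker := by
    rw [MonoidHom.mem_ker]
    have hcc : c = (⟨L a, L_mem a⟩ : Mlt Q)⁻¹ * (⟨R b, R_mem b⟩ : Mlt Q)⁻¹ * ⟨L a, L_mem a⟩ *
      ⟨R b, R_mem b⟩ := hc
    rw [hcc, map_mul, map_mul, map_mul, map_inv, map_inv]
    have hcomm : ∀ u v : P, u * v = v * u := fun u v =>
      Subtype.ext (hNC (Subgroup.le_normalizer v.2) u u.2)
    set u := MonoidHom.transferSylow P hNC ⟨L a, L_mem a⟩
    set v := MonoidHom.transferSylow P hNC ⟨R b, R_mem b⟩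
    rw [hcomm u⁻¹ v⁻¹, mul_assoc v⁻¹, inv_mul_cancel, mul_one, inv_mul_cancel]
  have hord : orderOf c = orderOf (A a b) := by
    rw [hc, ← Subgroup.orderOf_coe]
  rw [← hord] at hdvd
  obtain ⟨m, hm⟩ := hdvd
  have hcpos : 0 < orderOf c := orderOf_pos c
  have hmpos : 0 < m := by
    rcases Nat.eq_zero_or_pos m with h0 | h0
    · rw [h0, mul_zero] at hm; omega
    · exact h0
  have hcm : (c ^ m) ^ p = 1 := by rw [← pow_mul, mul_comm m p, ← hm, pow_orderOf_eq_one]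
  have hpg : IsPGroup p (Subgroup.zpowers (c ^ m)) := by
    rintro ⟨g, k, rfl⟩
    refine ⟨1, Subtype.ext ?_⟩
    show ((c ^ m) ^ k) ^ (p ^ 1) = 1
    rw [pow_one, ← zpow_natCast, ← zpow_mul, mul_comm, zpow_mul, zpow_natCast, hcm, one_zpow]
  have hdis := MonoidHom.ker_transferSylow_disjoint P hNC _ hpg
  have hcm1 : c ^ m = 1 := by
    have := Subgroup.disjoint_def.1 hdis (Subgroup.pow_mem _ hcker m) (Subgroup.mem_zpowers _)
    exact this
  have := orderOf_dvd_of_pow_eq_one hcm1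
  have h6 := Nat.le_of_dvd hmpos this
  rw [hm] at h6
  have := hp.two_le
  nlinarith

theorem orderOf_dvd_St {Q : Type u} [Loop Q] [Finite Q] {g : Perm Q} (hg : g ∈ St (1 : Q)) :
    orderOf g ∣ Nat.card (St (1 : Q)) := by
  have := orderOf_dvd_natCard (⟨g, hg⟩ : St (1 : Q))
  rwa [← Subgroup.orderOf_coe] at this

/-- A finite loop with abelian inner mapping group, no proper congruences and trivial center is
trivial. -/
theorem simple_case (Q : Type u) [Loop Q] [Finite Q] (hQ : AIM Q)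
    (hs : ∀ s : Setoid Q, Inv s → s = ⊥ ∨ s = ⊤) (hinj : ∀ x y : Q, St x = St y → x = y) :
    Subsingleton Q := by
  have hA1 : ∀ x y : Q, A x y = 1 := by
    intro x y
    rw [← orderOf_eq_one_iff]
    by_contra hne
    obtain ⟨p, hp, hpd⟩ := Nat.exists_prime_and_dvd hne
    exact (A_order Q hQ hs p hp (hpd.trans (orderOf_dvd_St (A_mem x y)))).2 x y hpd
  have hassoc : ∀ x z y : Q, x * (z * y) = (x * z) * y := by
    intro x z y
    have h1 : A x y z = z := by rw [hA1]; rfl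
    rw [A_apply] at h1
    have h2 := (eq_ld_iff x (rd (x * (z * y)) y) z).1 h1.symm
    have h3 := (eq_rd_iff y (x * (z * y)) (x * z)).1 h2
    exact h3.symm
  have hLL : ∀ x y : Q, L x * L y = L (x * y) := by
    intro x y; ext z; exact hassoc x y z
  have hRR : ∀ x y : Q, R y * R x = R (x * y) := by
    intro x y; ext z; exact (hassoc z x y).symm
  have hl1 : ∀ x y : Q, l x y = 1 := by
    intro x y
    rw [l, mul_assoc, hLL, inv_mul_cancel]
  have hr1 : ∀ x y : Q, r x y = 1 := by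
    intro x y
    rw [r, mul_assoc, hRR, inv_mul_cancel]
  have hL1 : (L (1 : Q)) = 1 := by ext x; exact lone_mul x
  have hR1 : (R (1 : Q)) = 1 := by ext x; exact lmul_one x
  have hLinj : Function.Injective (L : Q → Perm Q) := by
    intro x y h
    have := congrArg (fun g : Perm Q => g 1) h
    simpa [lmul_one] using this
  have hRinj : Function.Injective (R : Q → Perm Q) := by
    intro x y h
    have := congrArg (fun g : Perm Q => g 1) h
    simpa [lone_mul] using this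
  have hLpow : ∀ x : Q, (L x) ^ (Nat.card Q) = 1 := by
    intro x
    let H : Subgroup (Perm Q) :=
      { carrier := Set.range L
        mul_mem' := by
          rintro _ _ ⟨a, rfl⟩ ⟨b, rfl⟩
          exact ⟨a * b, (hLL a b).symm⟩
        one_mem' := ⟨1, hL1⟩
        inv_mem' := by
          rintro _ ⟨a, rfl⟩
          refine ⟨ld a 1, ?_⟩
          have : L a * L (ld a 1) = 1 := by rw [hLL, mul_ld, hL1]
          exact (eq_inv_of_mul_eq_one_right this) }
    have hcard : Nat.card H = Nat.card Q :=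
      Nat.card_congr (Equiv.ofInjective L hLinj).symm
    have h1 : (⟨L x, ⟨x, rfl⟩⟩ : H) ^ (Nat.card H) = 1 := pow_card_eq_one'
    rw [← hcard]
    exact congrArg Subtype.val h1
  have hRpow : ∀ x : Q, (R x) ^ (Nat.card Q) = 1 := by
    intro x
    let H : Subgroup (Perm Q) :=
      { carrier := Set.range R
        mul_mem' := by
          rintro _ _ ⟨a, rfl⟩ ⟨b, rfl⟩
          exact ⟨b * a, (hRR b a).symm⟩
        one_mem' := ⟨1, hR1⟩
        inv_mem' := by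
          rintro _ ⟨a, rfl⟩
          refine ⟨rd 1 a, ?_⟩
          have : R a * R (rd 1 a) = 1 := by rw [hRR, rd_mul, hR1]
          exact (eq_inv_of_mul_eq_one_right this) }
    have hcard : Nat.card H = Nat.card Q :=
      Nat.card_congr (Equiv.ofInjective R hRinj).symm
    have h1 : (⟨R x, ⟨x, rfl⟩⟩ : H) ^ (Nat.card H) = 1 := pow_card_eq_one'
    rw [← hcard]
    exact congrArg Subtype.val h1
  have hcLR : ∀ x y : Q, Commute (R y)⁻¹ (L x) := by
    intro x y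
    apply Commute.inv_left
    show R y * L x = L x * R y
    ext z
    exact (hassoc x z y).symm
  have hT1 : ∀ x : Q, T x = 1 := by
    intro x
    have h1 : (T x) ^ (Nat.card Q) = 1 := by
      rw [T, (hcLR x x).mul_pow, inv_pow, hRpow, hLpow, inv_one, one_mul]
    have h2 := orderOf_dvd_of_pow_eq_one h1
    rw [← orderOf_eq_one_iff]
    by_contra hne
    obtain ⟨p, hp, hpd⟩ := Nat.exists_prime_and_dvd hne
    exact (A_order Q hQ hs p hp (hpd.trans (orderOf_dvd_St (T_mem x)))).1 (hpd.trans h2)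
  have hSt1 : St (1 : Q) = ⊥ := by
    rw [St_one_eq_closure, eq_bot_iff, Subgroup.closure_le]
    rintro g (⟨x, rfl⟩ | ⟨x, y, rfl⟩ | ⟨x, y, rfl⟩)
    · exact hT1 x
    · exact hl1 x y
    · exact hr1 x y
  have hSt : ∀ x : Q, St x = ⊥ := by
    intro x
    rw [eq_bot_iff]
    intro g hg
    have h1 := conj_St ((Mlt Q).inv_mem (L_mem x)) hg
    have e : (L x)⁻¹ x = 1 := ld_self x
    rw [e, hSt1, Subgroup.mem_bot] at h1
    rw [Subgroup.mem_bot]
    have h2 : g = L x * ((L x)⁻¹ * g * (L x)⁻¹⁻¹) * (L x)⁻¹ := by group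
    rw [h2, h1]; group
  exact ⟨fun x y => hinj x y (by rw [hSt, hSt])⟩

end LpAim
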