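import Pool.Agent.Helper548.LoopInd
import Pool.Agent.Helper548.LoopNilp
import Pool.Agent.Helper548.LoopFC

/-!
# Subloops generated by three elements, and the impossibility of power subgroups of prime order
-/

namespace LpAim

open Equiv

universe u v

theorem nilp_of_AIM_finite (Q : Type u) [i : Loop Q] [Finite Q] (hQ : AIM Q) : Nilp Q i :=
  nilp_of_finite (fun Q _ _ p x y h => sp_of_sub Q p x y h)
    (fun Q _ _ hQ p hp h1 h2 => sp_ne_bot_of_dvd Q hQ p hp h1 h2)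
    (fun Q _ _ hQ h1 h2 => simple_case Q hQ h1 h2) Q hQ

theorem nilp_of_inner_finite (Q : Type u) [i : Loop Q] [Finite (St (1 : Q))] (hQ : AIM Q) :
    Nilp Q i := by
  have := finite_quot_cen Q
  exact Nilp.step Q i (nilp_of_AIM_finite (LQ (cen Q) cen_inv) (hQ.quot _ cen_inv))

section sub
variable {Q : Type u} [Loop Q]

/-- membership in the subloop generated by `u, v, w` -/
def InSub (u v w x : Q) : Prop := ∀ P : Q → Prop, P u → P v → P w → P 1 →
  (∀ x y, P x → P y → P (x * y)) → (∀ x y, P x → P y → P (ld x y)) →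
  (∀ x y, P x → P y → P (rd x y)) → P x

theorem InSub.mul {u v w x y : Q} (hx : InSub u v w x) (hy : InSub u v w y) :
    InSub u v w (x * y) := fun P h1 h2 h3 h4 h5 h6 h7 =>
  h5 _ _ (hx P h1 h2 h3 h4 h5 h6 h7) (hy P h1 h2 h3 h4 h5 h6 h7)
theorem InSub.ld {u v w x y : Q} (hx : InSub u v w x) (hy : InSub u v w y) :
    InSub u v w (ld x y) := fun P h1 h2 h3 h4 h5 h6 h7 =>
  h6 _ _ (hx P h1 h2 h3 h4 h5 h6 h7) (hy P h1 h2 h3 h4 h5 h6 h7)
theorem InSub.rd {u v w x y : Q} (hx : InSub u v w x) (hy : InSub u v w y) :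
    InSub u v w (rd x y) := fun P h1 h2 h3 h4 h5 h6 h7 =>
  h7 _ _ (hx P h1 h2 h3 h4 h5 h6 h7) (hy P h1 h2 h3 h4 h5 h6 h7)

/-- The subloop generated by three elements. -/
def SL (u v w : Q) : Type u := {x : Q // InSub u v w x}

/-- inclusion -/
def SL.inc {u v w : Q} (x : SL u v w) : Q := x.1

theorem SL.ext {u v w : Q} {x y : SL u v w} (h : x.inc = y.inc) : x = y := Subtype.ext h

instance (u v w : Q) : Loop (SL u v w) where
  mul x y := ⟨x.1 * y.1, x.2.mul y.2⟩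
  one := ⟨1, fun _ _ _ _ h4 _ _ _ => h4⟩
  ld x y := ⟨LpAim.ld x.1 y.1, x.2.ld y.2⟩
  rd x y := ⟨LpAim.rd x.1 y.1, x.2.rd y.2⟩
  one_mul' _ := SL.ext (lone_mul _)
  mul_one' _ := SL.ext (lmul_one _)
  mul_ld _ _ := SL.ext (mul_ld _ _)
  ld_mul _ _ := SL.ext (ld_mul _ _)
  rd_mul _ _ := SL.ext (rd_mul _ _)
  mul_rd _ _ := SL.ext (mul_rd _ _)

theorem inc_mul {u v w : Q} (x y : SL u v w) : (x * y).inc = x.inc * y.inc := rfl

/-- the three generators -/
def g1 (u v w : Q) : SL u v w := ⟨u, fun _ h1 _ _ _ _ _ _ => h1⟩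
def g2 (u v w : Q) : SL u v w := ⟨v, fun _ _ h2 _ _ _ _ _ => h2⟩
def g3 (u v w : Q) : SL u v w := ⟨w, fun _ _ _ h3 _ _ _ _ => h3⟩

theorem gen_SL (u v w : Q) : Gen3 (g1 u v w) (g2 u v w) (g3 u v w) := by
  intro P h1 h2 h3 h4 h5 h6 h7 x
  obtain ⟨x, hx⟩ := x
  have := hx (fun y => ∃ h : InSub u v w y, P ⟨y, h⟩) ⟨(g1 u v w).2, h1⟩ ⟨(g2 u v w).2, h2⟩
    ⟨(g3 u v w).2, h3⟩ ⟨(1 : SL u v w).2, h4⟩ ?_ ?_ ?_
  · exact this.2
  · rintro x y ⟨hx, px⟩ ⟨hy, py⟩
    exact ⟨hx.mul hy, h5 _ _ px py⟩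
  · rintro x y ⟨hx, px⟩ ⟨hy, py⟩
    exact ⟨hx.ld hy, h6 _ _ px py⟩
  · rintro x y ⟨hx, px⟩ ⟨hy, py⟩
    exact ⟨hx.rd hy, h7 _ _ px py⟩

theorem SL_lift {u v w : Q} {g : Perm (SL u v w)} (hg : g ∈ St (1 : SL u v w)) :
    ∃ g' ∈ St (1 : Q), ∀ s, (g s).inc = g' s.inc := by
  refine gens_induction (P := fun g : Perm (SL u v w) =>
    ∃ g' ∈ St (1 : Q), ∀ s, (g s).inc = g' s.inc) ?_ ?_ ?_ ?_ ?_ ?_ g hg
  · intro x
    exact ⟨T x.inc, T_mem _, fun s => map_T (f := SL.inc) inc_mul x s⟩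
  · intro x y
    exact ⟨l x.inc y.inc, l_mem _ _, fun s => map_l (f := SL.inc) inc_mul x y s⟩
  · intro x y
    exact ⟨r x.inc y.inc, r_mem _ _, fun s => map_r (f := SL.inc) inc_mul x y s⟩
  · exact ⟨1, one_mem _, fun s => rfl⟩
  · rintro g h _ _ ⟨g', hg', e⟩ ⟨h', hh', e'⟩
    exact ⟨g' * h', mul_mem hg' hh', fun s => by rw [Perm.mul_apply, e, e']; rfl⟩
  · rintro g _ ⟨g', hg', e⟩
    refine ⟨g'⁻¹, inv_mem hg', fun s => ?_⟩
    rw [Perm.eq_inv_iff_eq, ← e, pai]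

theorem AIM_SL (hQ : AIM Q) (u v w : Q) : AIM (SL u v w) := by
  intro g hg h hh
  obtain ⟨g', hg', e⟩ := SL_lift hg
  obtain ⟨h', hh', e'⟩ := SL_lift hh
  ext s
  apply SL.ext
  rw [Perm.mul_apply, Perm.mul_apply, e, e', e', e, ← Perm.mul_apply, ← Perm.mul_apply,
    hQ g' hg' h' hh']

theorem finite_SL [Finite (St (1 : Q))] (u v w : Q) : Finite (St (1 : SL u v w)) := by
  choose F hF1 hF2 using fun g : St (1 : SL u v w) => SL_lift g.2
  refine Finite.of_injective (fun g => (⟨F g, hF1 g⟩ : St (1 : Q))) ?_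
  intro g h e
  have e1 : F g = F h := congrArg Subtype.val e
  apply Subtype.ext
  ext s
  apply SL.ext
  rw [hF2 g s, hF2 h s, e1]

theorem SL_props (hQ : AIM Q) [Finite (St (1 : Q))] (u v w : Q) :
    Al (SL u v w) ∧ Be (SL u v w) := by
  have := finite_SL u v w
  exact nilp_class (nilp_of_inner_finite (SL u v w) (AIM_SL hQ u v w)) (AIM_SL hQ u v w) _ _ _
    (gen_SL u v w)

theorem pow_z {g : Perm Q} (hg : g ∈ Mlt Q) {x : Q} {a : Zn Q} (h : g x = x * a.val) (n : ℕ) :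
    (g ^ n) x = x * (n • a).val := by
  induction n with
  | zero => rw [pow_zero, zero_smul, mul_zero_z]; rfl
  | succ n ih =>
    rw [pow_succ', Perm.mul_apply, ih, (n • a).act hg, h, ← mul_add_z, add_smul, one_smul,
      add_comm]

theorem pow_fix_iff {g : Perm Q} (hg : g ∈ Mlt Q) {x : Q} {a : Zn Q} (h : g x = x * a.val)
    (n : ℕ) : (g ^ n) x = x ↔ n • a = 0 := by
  rw [pow_z hg h n]
  constructor
  · intro e
    have : x * (n • a).val = x * (0 : Zn Q).val := by rw [e, mul_zero_z]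
    exact mul_z_inj this
  · intro e; rw [e, mul_zero_z]

theorem inc_pow {u v w : Q} {g : Perm (SL u v w)} {g' : Perm Q}
    (h : ∀ s, (g s).inc = g' s.inc) (n : ℕ) (s : SL u v w) :
    ((g ^ n) s).inc = (g' ^ n) s.inc := by
  induction n with
  | zero => rfl
  | succ n ih => rw [pow_succ', pow_succ', Perm.mul_apply, Perm.mul_apply, h, ih]

theorem inc_pow_fix {u v w : Q} {g : Perm (SL u v w)} {g' : Perm Q}
    (h : ∀ s, (g s).inc = g' s.inc) (n : ℕ) (s : SL u v w) :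
    (g ^ n) s = s ↔ (g' ^ n) s.inc = s.inc := by
  rw [← inc_pow h]
  exact ⟨fun e => by rw [e], fun e => SL.ext e⟩

variable (hQ : AIM Q) [Finite (St (1 : Q))]

include hQ in
theorem L1 (u w : Q) (n : ℕ) : ((T u) ^ n) w = w ↔ ((T w) ^ n) u = u := by
  obtain ⟨hA, hB⟩ := SL_props hQ u w w
  set U := g1 u w w with hU
  set W := g2 u w w with hW
  have hg : Gen3 U W W := gen_SL u w w
  obtain ⟨a, ha⟩ := comm_central (AIM_SL hQ u w w) hA hg U W
  have hb := comm_T ha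
  have e1 := inc_pow_fix (g := T U) (g' := T u) (fun s => map_T (f := SL.inc) inc_mul U s) n W
  have e2 := inc_pow_fix (g := T W) (g' := T w) (fun s => map_T (f := SL.inc) inc_mul W s) n U
  have e1' : ((T U) ^ n) W = W ↔ ((T u) ^ n) w = w := e1
  have e2' : ((T W) ^ n) U = U ↔ ((T w) ^ n) u = u := e2
  rw [← e1', ← e2', pow_fix_iff (T_mem_Mlt U) ha, pow_fix_iff (T_mem_Mlt W) hb, smul_neg,
    neg_eq_zero]

include hQ in
theorem L2b (u v w : Q) (n : ℕ) : ((l u v) ^ n) w = w ↔ ((r v w) ^ n) u = u := by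
  obtain ⟨hA, hB⟩ := SL_props hQ u v w
  set U := g1 u v w with hU
  set V := g2 u v w with hV
  set W := g3 u v w with hW
  obtain ⟨a, ha⟩ := hB U V W
  have hb := assoc_r ha
  have e1 := inc_pow_fix (g := l U V) (g' := l u v)
    (fun s => map_l (f := SL.inc) inc_mul U V s) n W
  have e2 := inc_pow_fix (g := r V W) (g' := r v w)
    (fun s => map_r (f := SL.inc) inc_mul V W s) n U
  have e1' : ((l U V) ^ n) W = W ↔ ((l u v) ^ n) w = w := e1
  have e2' : ((r V W) ^ n) U = U ↔ ((r v w) ^ n) u = u := e2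
  rw [← e1', ← e2', pow_fix_iff (l_mem_Mlt U V) ha, pow_fix_iff (r_mem_Mlt V W) hb, smul_neg,
    neg_eq_zero]

include hQ in
theorem L2c (x z : Q) (n : ℕ) : ((l x z) ^ n) z = ((A x z) ^ n) z := by
  obtain ⟨hA, hB⟩ := SL_props hQ x z z
  set X := g1 x z z with hX
  set Z := g2 x z z with hZ
  obtain ⟨a, ha⟩ := hB X Z Z
  have hb := assoc_A ha
  have e1 := inc_pow (g := l X Z) (g' := l x z)
    (fun s => map_l (f := SL.inc) inc_mul X Z s) n Z
  have e2 := inc_pow (g := A X Z) (g' := A x z)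
    (fun s => map_A (f := SL.inc) inc_mul X Z s) n Z
  have e1' : (((l X Z) ^ n) Z).inc = ((l x z) ^ n) z := e1
  have e2' : (((A X Z) ^ n) Z).inc = ((A x z) ^ n) z := e2
  rw [← e1', ← e2', pow_z (l_mem_Mlt X Z) ha, pow_z (A_mem_Mlt X Z) hb]

include hQ in
/-- No power subgroup of the inner mapping group has prime order. -/
theorem no_prime (n : ℕ) (K : Subgroup (Perm Q))
    (hK : (Nat.card K).Prime) (hK1 : ∀ g ∈ St (1 : Q), g ^ n ∈ K)
    (hK2 : ∀ k ∈ K, ∃ g ∈ St (1 : Q), g ^ n = k) : False := by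
  have : Fact (Nat.card K).Prime := ⟨hK⟩
  -- a point moved by K
  obtain ⟨z, hz⟩ : ∃ z : Q, ∃ k ∈ K, k z ≠ z := by
    by_contra hcon
    push Not at hcon
    have : K = ⊥ := by
      rw [Subgroup.eq_bot_iff_forall]
      intro k hk
      ext z
      exact hcon z k hk
    rw [this, Subgroup.card_bot] at hK
    exact Nat.not_prime_one hK
  have key : ∀ k ∈ K, k z = z → k = 1 := by
    intro k hk hkz
    by_contra hne
    have h1 : Subgroup.zpowers (⟨k, hk⟩ : K) = ⊤ :=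
      zpowers_eq_top_of_prime_card rfl (by
        intro h; exact hne (congrArg Subtype.val h))
    obtain ⟨k', hk', hk'z⟩ := hz
    have h2 : (⟨k', hk'⟩ : K) ∈ Subgroup.zpowers (⟨k, hk⟩ : K) := by rw [h1]; trivial
    obtain ⟨m, hm⟩ := h2
    have h3 : k ^ m = k' := congrArg Subtype.val hm
    apply hk'z
    rw [← h3]
    have h4 : k ∈ MulAction.stabilizer (Perm Q) z := hkz
    exact (MulAction.stabilizer (Perm Q) z).zpow_mem h4 m
  have keyg : ∀ g ∈ St (1 : Q), (g ^ n) z = z → g ^ n = 1 := fun g hg h =>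
    key _ (hK1 g hg) h
  have hcomm := hQ
  -- step 1
  have t1 : (T z) ^ n = 1 := by
    apply keyg _ (T_mem z)
    have : T z ∈ MulAction.stabilizer (Perm Q) z := T_self z
    exact (MulAction.stabilizer (Perm Q) z).pow_mem this n
  have t2 : ∀ u : Q, (T u) ^ n = 1 := by
    intro u
    apply keyg _ (T_mem u)
    rw [L1 hQ, t1]; rfl
  -- step 2
  have mul_pow' : ∀ g ∈ St (1 : Q), ∀ h ∈ St (1 : Q), (g * h) ^ n = g ^ n * h ^ n := by
    intro g hg h hh
    exact (show Commute g h from hQ g hg h hh).mul_pow n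
  have r1 : ∀ x : Q, (r x z) ^ n = 1 := by
    intro x
    have mT := T_mem x
    have mr := r_mem x z
    have mTT := T_mem (x * z)
    have ml := l_mem x z
    have mTy := T_mem z
    have e1 : (A x z) ^ n = ((r x z) ^ n)⁻¹ * (l x z) ^ n := by
      rw [A_eq, mul_pow' _ (mul_mem (mul_mem (mul_mem (inv_mem mT) (inv_mem mr)) mTT) ml) _
        (inv_mem mTy), mul_pow' _ (mul_mem (mul_mem (inv_mem mT) (inv_mem mr)) mTT) _ ml,
        mul_pow' _ (mul_mem (inv_mem mT) (inv_mem mr)) _ mTT,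
        mul_pow' _ (inv_mem mT) _ (inv_mem mr), inv_pow, inv_pow, inv_pow, t2, t2, t2]
      simp
    have e2 := L2c hQ x z n
    have e3 : ((r x z) ^ n) z = z := by
      have h1 : (r x z) ^ n * (A x z) ^ n = (l x z) ^ n := by rw [e1]; group
      have h2 : (A x z) ^ n * (r x z) ^ n = (l x z) ^ n := by
        rw [← h1]
        have : Commute (A x z) (r x z) := hQ _ (A_mem x z) _ mr
        exact (this.pow_pow n n).eq
      have h3 : ((A x z) ^ n) (((r x z) ^ n) z) = ((A x z) ^ n) z := by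
        rw [← Perm.mul_apply, h2, e2]
      exact ((A x z) ^ n).injective h3
    exact keyg _ mr e3
  have l1 : ∀ u x : Q, (l u x) ^ n = 1 := by
    intro u x
    apply keyg _ (l_mem u x)
    rw [L2b hQ, r1]; rfl
  have r2 : ∀ v w : Q, (r v w) ^ n = 1 := by
    intro v w
    ext u
    have := (L2b hQ u v w n).1 (by rw [l1]; rfl)
    rw [this]; rfl
  have all : ∀ g ∈ St (1 : Q), g ^ n = 1 := by
    refine gens_induction t2 l1 r2 (one_pow n) ?_ ?_
    · intro g h hg hh e1 e2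
      rw [mul_pow' g hg h hh, e1, e2, one_mul]
    · intro g _ e1
      rw [inv_pow, e1, inv_one]
  have : K = ⊥ := by
    rw [Subgroup.eq_bot_iff_forall]
    intro k hk
    obtain ⟨g, hg, e⟩ := hK2 k hk
    rw [← e]; exact all g hg
  rw [this, Subgroup.card_bot] at hK
  exact Nat.not_prime_one hK

end sub

end LpAim
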